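import Mathlib

/-!
Norm of a symmetric 3-tensor and its components.

Proof of `norm_split`.  Let `M b c = ∑ v a N a b c`.  Project the three slots in turn to the
orthogonal complement of `v`: `T = N - v⊗M` has `∑ T² = ∑ N² - ∑ M²` (because `∑ v a N a b c = M b c`
and `∑ v² = 1`); in general `T' a b c = T a b c - v b * (∑ b', v b' T a b' c)` has
`∑ T'² = ∑ T² - ∑_{a,c} (∑ b', v b' T a b' c)²`, and similarly for the third slot.  In total, for the
projected tensor `T₃`, `∑ T₃² = ∑ N² - 3 ∑ M² + 3 ∑ (M v)² - (v M v)²`.  As `u ⊥ v`,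
`∑ T₃ u u u = ∑ N u u u`; then Cauchy-Schwarz (`cubic_cs` for `T₃`; it does not need symmetry).
-/

namespace Pool.HopfAL

open Finset

theorem cubic_cs {ι : Type} [Fintype ι] (N : ι → ι → ι → ℝ) (u : ι → ℝ)
    (hu : ∑ i, u i * u i = 1) :
    (∑ a, ∑ b, ∑ c, N a b c * u a * u b * u c) ^ 2 ≤ ∑ a, ∑ b, ∑ c, N a b c ^ 2 := by
  have h := Finset.sum_mul_sq_le_sq_mul_sq (univ : Finset (ι × ι × ι))
    (fun p => N p.1 p.2.1 p.2.2) (fun p => u p.1 * (u p.2.1 * u p.2.2))
  simp only [Fintype.sum_prod_type] at h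
  have h2 : ∑ x, ∑ y, ∑ z, (u x * (u y * u z)) ^ 2 = 1 := by
    have e : ∀ x y z, (u x * (u y * u z)) ^ 2 = (u x * u x) * ((u y * u y) * (u z * u z)) :=
      fun x y z => by ring
    simp only [e, ← mul_sum, hu, mul_one]
  rw [h2, mul_one] at h
  refine le_trans (le_of_eq ?_) h
  congr 1
  refine sum_congr rfl fun a _ => sum_congr rfl fun b _ => sum_congr rfl fun c _ => ?_
  ring

theorem proj_sq {ι : Type} [Fintype ι] (f v : ι → ℝ) (hv : ∑ i, v i * v i = 1) (D : ℝ)
    (hD : ∑ a, v a * f a = D) :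
    ∑ a, (f a - v a * D) ^ 2 = ∑ a, f a ^ 2 - D ^ 2 := by
  have h : ∀ a, (f a - v a * D) ^ 2 = f a ^ 2 - 2 * D * (v a * f a) + D ^ 2 * (v a * v a) :=
    fun a => by ring
  simp_rw [h, sum_add_distrib, sum_sub_distrib, ← mul_sum, hD, hv]
  ring

theorem proj_u {ι : Type} [Fintype ι] (f u v : ι → ℝ) (huv : ∑ i, u i * v i = 0) (D : ℝ) :
    ∑ a, (f a - v a * D) * u a = ∑ a, f a * u a := by
  have h : ∀ a, (f a - v a * D) * u a = f a * u a - D * (u a * v a) := fun a => by ring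
  simp_rw [h, sum_sub_distrib, ← mul_sum, huv]
  ring

theorem proj_v {ι : Type} [Fintype ι] (f g v : ι → ℝ) (k D E : ℝ)
    (hf : ∑ a, v a * f a = D) (hg : ∑ a, v a * g a = E) :
    ∑ a, v a * (f a - k * g a) = D - k * E := by
  have h : ∀ a, v a * (f a - k * g a) = v a * f a - k * (v a * g a) := fun a => by ring
  simp_rw [h, sum_sub_distrib, ← mul_sum, hf, hg]

theorem rot3 {ι : Type} [Fintype ι] (F : ι → ι → ι → ℝ) :
    ∑ a, ∑ b, ∑ c, F a b c = ∑ b, ∑ c, ∑ a, F a b c := by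
  rw [sum_comm]
  exact sum_congr rfl fun b _ => sum_comm

theorem norm_split {ι : Type} [Fintype ι] (N : ι → ι → ι → ℝ) (h12 : ∀ a b c, N b a c = N a b c)
    (h23 : ∀ a b c, N a c b = N a b c) (u v : ι → ℝ) (hu : ∑ i, u i * u i = 1)
    (hv : ∑ i, v i * v i = 1) (huv : ∑ i, u i * v i = 0) :
    (∑ a, ∑ b, ∑ c, N a b c * u a * u b * u c) ^ 2 +
      (3 * ∑ b, ∑ c, (∑ a, v a * N a b c) ^ 2 - 3 * ∑ b, (∑ c, (∑ a, v a * N a b c) * v c) ^ 2 +
        (∑ b, ∑ c, (∑ a, v a * N a b c) * v b * v c) ^ 2) ≤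
      ∑ a, ∑ b, ∑ c, N a b c ^ 2 := by
  obtain ⟨M, hM⟩ : ∃ M : ι → ι → ℝ, ∀ b c, ∑ a, v a * N a b c = M b c := ⟨_, fun _ _ => rfl⟩
  have hMs : ∀ b c, M b c = M c b := fun b c => by
    rw [← hM, ← hM]
    exact sum_congr rfl fun a _ => by rw [h23]
  have hM2 : ∀ a c, ∑ b, v b * N a b c = M a c := fun a c => by
    rw [← hM]
    exact sum_congr rfl fun b _ => by rw [h12]
  have hM3 : ∀ a b, ∑ c, v c * N a b c = M a b := fun a b => by
    rw [← hM2]
    exact sum_congr rfl fun c _ => by rw [h23]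
  obtain ⟨w, hw⟩ : ∃ w : ι → ℝ, ∀ b, ∑ c, v c * M b c = w b := ⟨_, fun _ => rfl⟩
  have hw2 : ∀ c, ∑ b, v b * M b c = w c := fun c => by
    rw [← hw]
    exact sum_congr rfl fun b _ => by rw [hMs]
  obtain ⟨s, hs⟩ : ∃ s : ℝ, ∑ b, v b * w b = s := ⟨_, rfl⟩
  have e1 : ∀ b, ∑ c, M b c * v c = w b := fun b => by
    rw [← hw]
    exact sum_congr rfl fun c _ => mul_comm _ _
  have e2 : ∑ b, ∑ c, M b c * v b * v c = s := by
    rw [← hs]
    refine sum_congr rfl fun b _ => ?_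
    rw [← hw b, mul_sum]
    exact sum_congr rfl fun c _ => by ring
  simp only [hM, e1, e2]
  -- The projected tensor.
  have hP : ∀ a c, ∑ b, v b * (N a b c - v a * M b c) = M a c - v a * w c := fun a c =>
    proj_v (fun b => N a b c) (fun b => M b c) v (v a) _ _ (hM2 a c) (hw2 c)
  have hQ0 : ∀ a b, ∑ c, v c * (N a b c - v a * M b c) = M a b - v a * w b := fun a b =>
    proj_v (fun c => N a b c) (fun c => M b c) v (v a) _ _ (hM3 a b) (hw b)
  have hQ1 : ∀ a, ∑ c, v c * (M a c - v a * w c) = w a - v a * s := fun a =>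
    proj_v (fun c => M a c) w v (v a) _ _ (hw a) hs
  have hQ : ∀ a b, ∑ c, v c * ((N a b c - v a * M b c) - v b * (M a c - v a * w c)) =
      (M a b - v a * w b) - v b * (w a - v a * s) := fun a b =>
    proj_v (fun c => N a b c - v a * M b c) (fun c => M a c - v a * w c) v (v b) _ _
      (hQ0 a b) (hQ1 a)
  have key := cubic_cs (fun a b c => ((N a b c - v a * M b c) - v b * (M a c - v a * w c)) -
    v c * ((M a b - v a * w b) - v b * (w a - v a * s))) u hu
  have n1 : ∑ a, ∑ b, ∑ c, (N a b c - v a * M b c) ^ 2 =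
      ∑ a, ∑ b, ∑ c, N a b c ^ 2 - ∑ b, ∑ c, M b c ^ 2 := by
    rw [rot3, rot3 (fun a b c => N a b c ^ 2), ← sum_sub_distrib]
    refine sum_congr rfl fun b _ => ?_
    rw [← sum_sub_distrib]
    exact sum_congr rfl fun c _ => proj_sq (fun a => N a b c) v hv _ (hM b c)
  have m1 : ∑ a, ∑ c, (M a c - v a * w c) ^ 2 = ∑ b, ∑ c, M b c ^ 2 - ∑ c, w c ^ 2 := by
    rw [sum_comm, sum_comm (f := fun b c => M b c ^ 2), ← sum_sub_distrib]
    exact sum_congr rfl fun c _ => proj_sq (fun a => M a c) v hv _ (hw2 c)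
  have m2 : ∑ a, (w a - v a * s) ^ 2 = ∑ c, w c ^ 2 - s ^ 2 := proj_sq w v hv _ hs
  have n2 : ∑ a, ∑ b, ∑ c, ((N a b c - v a * M b c) - v b * (M a c - v a * w c)) ^ 2 =
      ∑ a, ∑ b, ∑ c, (N a b c - v a * M b c) ^ 2 - ∑ a, ∑ c, (M a c - v a * w c) ^ 2 := by
    rw [← sum_sub_distrib]
    refine sum_congr rfl fun a _ => ?_
    rw [sum_comm, sum_comm (f := fun b c => (N a b c - v a * M b c) ^ 2), ← sum_sub_distrib]
    exact sum_congr rfl fun c _ => proj_sq (fun b => N a b c - v a * M b c) v hv _ (hP a c)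
  have n3 : ∑ a, ∑ b, ∑ c, (((N a b c - v a * M b c) - v b * (M a c - v a * w c)) -
        v c * ((M a b - v a * w b) - v b * (w a - v a * s))) ^ 2 =
      ∑ a, ∑ b, ∑ c, ((N a b c - v a * M b c) - v b * (M a c - v a * w c)) ^ 2 -
        ∑ a, ∑ b, ((M a b - v a * w b) - v b * (w a - v a * s)) ^ 2 := by
    rw [← sum_sub_distrib]
    refine sum_congr rfl fun a _ => ?_
    rw [← sum_sub_distrib]
    exact sum_congr rfl fun b _ =>
      proj_sq (fun c => (N a b c - v a * M b c) - v b * (M a c - v a * w c)) v hv _ (hQ a b)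
  have m3 : ∑ a, ∑ b, ((M a b - v a * w b) - v b * (w a - v a * s)) ^ 2 =
      ∑ a, ∑ c, (M a c - v a * w c) ^ 2 - ∑ a, (w a - v a * s) ^ 2 := by
    rw [← sum_sub_distrib]
    exact sum_congr rfl fun a _ => proj_sq (fun b => M a b - v a * w b) v hv _ (hQ1 a)
  have k1 : ∀ F : ι → ι → ι → ℝ, ∀ G : ι → ι → ℝ,
      ∑ a, ∑ b, ∑ c, (F a b c - v c * G a b) * u a * u b * u c =
      ∑ a, ∑ b, ∑ c, F a b c * u a * u b * u c := fun F G => by
    refine sum_congr rfl fun a _ => sum_congr rfl fun b _ => ?_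
    have := proj_u (fun c => F a b c) u v huv (G a b)
    have e : ∀ c, (F a b c - v c * G a b) * u a * u b * u c =
        u a * u b * ((F a b c - v c * G a b) * u c) := fun c => by ring
    have e' : ∀ c, F a b c * u a * u b * u c = u a * u b * (F a b c * u c) := fun c => by ring
    simp_rw [e, e', ← mul_sum]
    rw [this]
  have k2 : ∀ F : ι → ι → ι → ℝ, ∀ G : ι → ι → ℝ,
      ∑ a, ∑ b, ∑ c, (F a b c - v b * G a c) * u a * u b * u c =
      ∑ a, ∑ b, ∑ c, F a b c * u a * u b * u c := fun F G => by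
    refine sum_congr rfl fun a _ => ?_
    rw [sum_comm, sum_comm (f := fun b c => F a b c * u a * u b * u c)]
    refine sum_congr rfl fun c _ => ?_
    have := proj_u (fun b => F a b c) u v huv (G a c)
    have e : ∀ b, (F a b c - v b * G a c) * u a * u b * u c =
        u a * u c * ((F a b c - v b * G a c) * u b) := fun b => by ring
    have e' : ∀ b, F a b c * u a * u b * u c = u a * u c * (F a b c * u b) := fun b => by ring
    simp_rw [e, e', ← mul_sum]
    rw [this]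
  have k3 : ∀ F : ι → ι → ι → ℝ, ∀ G : ι → ι → ℝ,
      ∑ a, ∑ b, ∑ c, (F a b c - v a * G b c) * u a * u b * u c =
      ∑ a, ∑ b, ∑ c, F a b c * u a * u b * u c := fun F G => by
    rw [rot3, rot3 (fun a b c => F a b c * u a * u b * u c)]
    refine sum_congr rfl fun b _ => sum_congr rfl fun c _ => ?_
    have := proj_u (fun a => F a b c) u v huv (G b c)
    have e : ∀ a, (F a b c - v a * G b c) * u a * u b * u c =
        u b * u c * ((F a b c - v a * G b c) * u a) := fun a => by ring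
    have e' : ∀ a, F a b c * u a * u b * u c = u b * u c * (F a b c * u a) := fun a => by ring
    simp_rw [e, e', ← mul_sum]
    rw [this]
  rw [k1 (fun a b c => (N a b c - v a * M b c) - v b * (M a c - v a * w c))
      (fun a b => (M a b - v a * w b) - v b * (w a - v a * s)),
    k2 (fun a b c => N a b c - v a * M b c) (fun a c => M a c - v a * w c), k3 N M] at key
  rw [n3, n2, n1, m3, m1, m2] at key
  linarith

end Pool.HopfAL
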