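import Pool.Agent.Lib.MP_4a593f_gt.AL.Core1
import Pool.Agent.Lib.MP_4a593f_gt.AL.Norm

/-!
The abstract inequality for a symmetric 3-tensor `N` and a vector `ω`.
-/

namespace Pool.HopfAL

open Finset

private theorem poly_ineq {x : ℝ} (h0 : 0 ≤ x) (h1 : x ≤ 1) :
    0 ≤ 6 - 27 * x ^ 2 + 177 / 8 * x ^ 3 := by
  nlinarith [mul_nonneg h0 (sq_nonneg (x - 13 / 16)), sq_nonneg (x - 13 / 16)]

private theorem final {x c s P Q : ℝ} (h0 : 0 ≤ x) (h1 : x ≤ 1) (hc : x ^ 3 * c ^ 2 = 1)
    (hP : c ^ 2 + 9 / 2 * x * s ^ 2 ≤ P) (hQ : Q = x ^ 2 * (c ^ 2 + s ^ 2)) :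
    15 / 8 ≤ 6 * P - 27 * Q + 24 := by
  have e1 := mul_nonneg (poly_ineq h0 h1) (sq_nonneg c)
  have e2 : 0 ≤ x * (1 - x) * s ^ 2 := mul_nonneg (mul_nonneg h0 (by linarith)) (sq_nonneg s)
  rw [hQ]
  nlinarith

theorem abstract_core {ι : Type} [Fintype ι] [DecidableEq ι] (N : ι → ι → ι → ℝ)
    (h12 : ∀ a b c, N b a c = N a b c) (h23 : ∀ a b c, N a c b = N a b c) (ω : ι → ℝ)
    (hξ : ∀ a, ∑ b, N a b b = 3 * ∑ b, ∑ c, N a b c * ω b * ω c)
    (hν : ∑ a, ∑ b, ∑ c, N a b c * ω a * ω b * ω c = 1)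
    (hω : ∑ a, ω a ^ 2 ≤ 1)
    (h8 : ∀ y : ι → ℝ, ∀ E : Submodule ℝ (ι → ℝ),
      (∀ c ∈ E, c ≠ 0 → 0 < ∑ i, ∑ j, (∑ a, y a * N a i j) * c i * c j) →
      Module.finrank ℝ E ≤ 8)
    (h7 : ∀ y : ι → ℝ, 0 < ∑ a, ∑ b, ∑ c, N a b c * y a * y b * y c →
      ∀ E : Submodule ℝ (ι → ℝ),
      (∀ c ∈ E, c ≠ 0 → 0 < ∑ i, ∑ j, (∑ a, y a * N a i j) * c i * c j) →
      Module.finrank ℝ E ≤ 7) :
    15 / 8 ≤ 6 * ∑ a, ∑ b, ∑ c, N a b c ^ 2 -
      27 * ∑ a, (∑ b, ∑ c, N a b c * ω b * ω c) ^ 2 + 24 := by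
  classical
  set x : ℝ := ∑ a, ω a ^ 2 with hx
  have hx0 : 0 ≤ x := Finset.sum_nonneg fun a _ => sq_nonneg _
  have hxpos : 0 < x := by
    rcases hx0.lt_or_eq with h | h
    · exact h
    · exfalso
      have hz : ∀ a, ω a = 0 := by
        intro a
        have := (Finset.sum_eq_zero_iff_of_nonneg (fun a _ => sq_nonneg (ω a))).1
          (by rw [← hx]; exact h.symm) a (Finset.mem_univ a)
        exact pow_eq_zero_iff (two_ne_zero) |>.1 this
      simp [hz] at hν
  set t : ℝ := Real.sqrt x with ht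
  have ht2 : t * t = x := Real.mul_self_sqrt hx0
  have htpos : 0 < t := Real.sqrt_pos.2 hxpos
  have htne : t ≠ 0 := htpos.ne'
  set u : ι → ℝ := fun a => ω a / t with hu_def
  have hωu : ∀ a, ω a = t * u a := by
    intro a; simp only [hu_def]; field_simp
  have hu : ∑ a, u a * u a = 1 := by
    have : ∑ a, u a * u a = (∑ a, ω a ^ 2) / (t * t) := by
      rw [Finset.sum_div]
      refine Finset.sum_congr rfl fun a _ => ?_
      simp only [hu_def]; field_simp
    rw [this, ← hx, ht2, div_self hxpos.ne']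
  set η : ι → ℝ := fun a => ∑ b, ∑ c, N a b c * u b * u c with hη
  have hξη : ∀ a, ∑ b, ∑ c, N a b c * ω b * ω c = x * η a := by
    intro a
    simp only [hη, Finset.mul_sum]
    refine Finset.sum_congr rfl fun b _ => Finset.sum_congr rfl fun c _ => ?_
    rw [hωu b, hωu c, ← ht2]; ring
  set c : ℝ := ∑ a, η a * u a with hc
  have hcN : ∑ a, ∑ b, ∑ d, N a b d * u a * u b * u d = c := by
    rw [hc]
    refine Finset.sum_congr rfl fun a _ => ?_
    simp only [hη, Finset.sum_mul]
    refine Finset.sum_congr rfl fun b _ => Finset.sum_congr rfl fun d _ => ?_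
    ring
  have hcx : x ^ 3 * c ^ 2 = 1 := by
    have h1 : t ^ 3 * c = 1 := by
      rw [← hν, ← hcN, Finset.mul_sum]
      refine Finset.sum_congr rfl fun a _ => ?_
      rw [Finset.mul_sum]
      refine Finset.sum_congr rfl fun b _ => ?_
      rw [Finset.mul_sum]
      refine Finset.sum_congr rfl fun d _ => ?_
      rw [hωu a, hωu b, hωu d]; ring
    have h2 : x ^ 3 * c ^ 2 = (t ^ 3 * c) ^ 2 := by rw [← ht2]; ring
    rw [h2, h1]; ring
  set w : ι → ℝ := fun a => η a - c * u a with hw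
  have hwu : ∑ a, w a * u a = 0 := by
    have : ∑ a, w a * u a = (∑ a, η a * u a) - c * ∑ a, u a * u a := by
      rw [Finset.mul_sum, ← Finset.sum_sub_distrib]
      exact Finset.sum_congr rfl fun a _ => by simp only [hw]; ring
    rw [this, hu, ← hc]; ring
  set s2 : ℝ := ∑ a, w a * w a with hs2
  have hs20 : 0 ≤ s2 := Finset.sum_nonneg fun a _ => mul_self_nonneg _
  set s : ℝ := Real.sqrt s2 with hs
  have hss : s * s = s2 := Real.mul_self_sqrt hs20
  have hη2 : ∑ a, η a ^ 2 = c ^ 2 + s ^ 2 := by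
    have h1 : ∑ a, η a ^ 2 = c ^ 2 * ∑ a, u a * u a + 2 * c * ∑ a, w a * u a +
        ∑ a, w a * w a := by
      rw [Finset.mul_sum, Finset.mul_sum, ← Finset.sum_add_distrib, ← Finset.sum_add_distrib]
      exact Finset.sum_congr rfl fun a _ => by simp only [hw]; ring
    rw [h1, hu, hwu, ← hs2, ← hss]; ring
  have hQ : ∑ a, (∑ b, ∑ c, N a b c * ω b * ω c) ^ 2 = x ^ 2 * (c ^ 2 + s ^ 2) := by
    rw [← hη2, Finset.mul_sum]
    refine Finset.sum_congr rfl fun a _ => ?_
    rw [hξη]; ring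
  refine final hx0 hω hcx ?_ hQ
  rcases (Real.sqrt_nonneg s2).lt_or_eq with hspos | hs0
  · -- the main case
    rw [← hs] at hspos
    have hsne : s ≠ 0 := hspos.ne'
    set v : ι → ℝ := fun a => w a / s with hv_def
    have hv : ∑ a, v a * v a = 1 := by
      have : ∑ a, v a * v a = (∑ a, w a * w a) / (s * s) := by
        rw [Finset.sum_div]
        refine Finset.sum_congr rfl fun a _ => ?_
        simp only [hv_def]; field_simp
      rw [this, ← hs2, hss, div_self]
      rw [← hss]; positivity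
    have huv : ∑ a, u a * v a = 0 := by
      have : ∑ a, u a * v a = (∑ a, w a * u a) / s := by
        rw [Finset.sum_div]
        refine Finset.sum_congr rfl fun a _ => ?_
        simp only [hv_def]; field_simp
      rw [this, hwu, zero_div]
    have hvη : ∑ a, v a * η a = s := by
      have : ∑ a, v a * η a = (∑ a, w a * w a) / s + c * ∑ a, u a * v a := by
        rw [Finset.sum_div, Finset.mul_sum, ← Finset.sum_add_distrib]
        refine Finset.sum_congr rfl fun a _ => ?_
        have : η a = w a + c * u a := by simp only [hw]; ring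
        rw [this]
        simp only [hv_def]; field_simp
      rw [this, huv, ← hs2, ← hss]; field_simp; ring
    set M : ι → ι → ℝ := fun b d => ∑ a, v a * N a b d with hM_def
    have hMs : ∀ i j, M j i = M i j := by
      intro i j
      simp only [hM_def]
      exact Finset.sum_congr rfl fun a _ => by rw [h23]
    have hMu : ∑ i, ∑ j, M i j * u i * u j = s := by
      rw [← hvη]
      simp only [hM_def, hη, Finset.sum_mul, Finset.mul_sum]
      rw [show (∑ i, ∑ j, ∑ a, v a * N a i j * u i * u j) =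
        ∑ i, ∑ a, ∑ j, v a * N a i j * u i * u j from
        Finset.sum_congr rfl fun i _ => Finset.sum_comm]
      rw [Finset.sum_comm]
      refine Finset.sum_congr rfl fun a _ => Finset.sum_congr rfl fun i _ =>
        Finset.sum_congr rfl fun j _ => ?_
      ring
    have hMt : ∑ i, M i i = 3 * x * s := by
      simp only [hM_def]
      rw [Finset.sum_comm]
      have : ∀ a, ∑ i, v a * N a i i = 3 * x * (v a * η a) := by
        intro a
        rw [← Finset.mul_sum, hξ a, hξη a]; ring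
      simp only [this]
      rw [← Finset.mul_sum, hvη]
    have hMv : ∑ i, ∑ j, M i j * v i * v j = ∑ a, ∑ b, ∑ d, N a b d * v a * v b * v d := by
      simp only [hM_def, Finset.sum_mul]
      rw [show (∑ i, ∑ j, ∑ a, v a * N a i j * v i * v j) =
        ∑ i, ∑ a, ∑ j, v a * N a i j * v i * v j from
        Finset.sum_congr rfl fun i _ => Finset.sum_comm]
      rw [Finset.sum_comm]
      refine Finset.sum_congr rfl fun a _ => Finset.sum_congr rfl fun i _ =>
        Finset.sum_congr rfl fun j _ => ?_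
      ring
    have k1 := core1 M hMs u v hu hv huv (by rw [hMu]; exact hspos) (h8 v)
      (fun h => h7 v (by rw [← hMv]; exact h))
    have k2 := norm_split N h12 h23 u v hu hv huv
    rw [hMu, hMt] at k1
    rw [hcN] at k2
    simp only [hM_def] at k1
    nlinarith
  · -- `s = 0`
    have k := cubic_cs N u hu
    rw [hcN] at k
    rw [hs, ← hs0]
    nlinarith

end Pool.HopfAL
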