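import Pool.Agent.Lib.MP_4a593f_gt.AL.Defs

/-!
A positive definite quadratic form on 2-forms is a sum of 15 squares of linearly independent
2-forms.

Proof.  Let `pr : Fin 15 → Fin 6 × Fin 6` enumerate the pairs `i < j`, `A p q = U (pr p) (pr q)`.
`A` is positive definite (apply `hpos` to `β = ∑ x p • el (pr p)`: the sum over `i j k l` is four
times `x ⬝ A x`).  Write `A = L Lᵀ` with `L` invertible (see `exists_factor` in `KP/Atoms.lean`)
and let `ρ a` be the skew array with `ρ a (pr p) = L p a`.
-/

namespace Pool.HopfAL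

open Finset Equiv Pool.HopfKP

open scoped MatrixOrder in
/-- a positive definite symmetric matrix is `L Lᵀ` with `L` invertible -/
private lemma exists_factor15 (A : Matrix (Fin 15) (Fin 15) ℝ) (hA : A.PosDef) :
    ∃ L : Matrix (Fin 15) (Fin 15) ℝ, IsUnit L ∧ A = L * L.transpose := by
  obtain ⟨B, hB⟩ := CStarAlgebra.nonneg_iff_eq_star_mul_self.mp hA.posSemidef.nonneg
  have hBt : star B = B.transpose := by
    ext i j; simp [Matrix.star_apply]
  refine ⟨B.transpose, ?_, ?_⟩
  · have hu : IsUnit A := hA.isUnit
    rw [Matrix.isUnit_iff_isUnit_det] at hu ⊢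
    rw [hB, Matrix.det_mul] at hu
    have := isUnit_of_mul_isUnit_right hu
    rwa [Matrix.det_transpose]
  · rw [Matrix.transpose_transpose, ← hBt]; exact hB

/-- the pairs `i < j` -/
private abbrev PP : Type := {p : Fin 6 × Fin 6 // p.1 < p.2}

private lemma card_PP : Fintype.card PP = 15 := by decide

/-- an enumeration of the pairs -/
private noncomputable def en : Fin 15 ≃ PP := (Fintype.equivFinOfCardEq card_PP).symm

/-- the skew array with given entries above the diagonal -/
private noncomputable def up (x : Fin 15 → ℝ) : Arr := fun i j =>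
  if h : i < j then x (en.symm ⟨(i, j), h⟩)
  else if h : j < i then - x (en.symm ⟨(j, i), h⟩) else 0

private lemma up_lt (x : Fin 15 → ℝ) {i j : Fin 6} (h : i < j) :
    up x i j = x (en.symm ⟨(i, j), h⟩) := by
  unfold up; rw [dif_pos h]

private lemma sk_up (x : Fin 15 → ℝ) : Sk (up x) := by
  intro i j
  rcases lt_trichotomy i j with h | h | h
  · unfold up; rw [dif_neg (not_lt.2 h.le), dif_pos h, dif_pos h]
  · subst h; unfold up; simp
  · unfold up; rw [dif_pos h, dif_neg (not_lt.2 h.le), dif_pos h, neg_neg]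

private lemma up_en (x : Fin 15 → ℝ) (p : Fin 15) : up x (en p).1.1 (en p).1.2 = x p := by
  rw [up_lt x (en p).2]
  congr 1
  exact en.symm_apply_apply p

private lemma sk_ext {z w : Arr} (hz : Sk z) (hw : Sk w)
    (h : ∀ p, z (en p).1.1 (en p).1.2 = w (en p).1.1 (en p).1.2) : z = w := by
  have key : ∀ i j : Fin 6, i < j → z i j = w i j := by
    intro i j hij
    have := h (en.symm ⟨(i, j), hij⟩)
    simpa using this
  funext i j
  rcases lt_trichotomy i j with hij | hij | hij
  · exact key i j hij
  · subst hij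
    have h1 := hz i i
    have h2 := hw i i
    linarith
  · rw [hz j i, hw j i, key j i hij]

private lemma sum_pairs (F : Arr) (hF : ∀ i j, F j i = F i j) (h0 : ∀ i, F i i = 0) :
    ∑ i, ∑ j, F i j = 2 * ∑ p, F (en p).1.1 (en p).1.2 := by
  have h1 : ∑ p, F (en p).1.1 (en p).1.2 = ∑ p : PP, F p.1.1 p.1.2 :=
    Equiv.sum_comp en (fun p : PP => F p.1.1 p.1.2)
  have h2 : ∑ p : PP, F p.1.1 p.1.2 = ∑ i, ∑ j, if i < j then F i j else 0 := by
    rw [← Fintype.sum_prod_type' (f := fun i j : Fin 6 => if i < j then F i j else 0)]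
    rw [← Finset.sum_filter]
    symm
    apply Finset.sum_subtype
    intro x; simp
  have h3 : ∑ i, ∑ j, F i j = ∑ i, ∑ j, ((if i < j then F i j else 0) +
      (if j < i then F j i else 0)) := by
    refine Finset.sum_congr rfl fun i _ => Finset.sum_congr rfl fun j _ => ?_
    rcases lt_trichotomy i j with h | h | h
    · rw [if_pos h, if_neg (not_lt.2 h.le), add_zero]
    · subst h; simp [h0]
    · rw [if_neg (not_lt.2 h.le), if_pos h, zero_add, hF]
  rw [h1, h2, h3]
  simp only [Finset.sum_add_distrib]
  rw [two_mul]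
  congr 1
  rw [Finset.sum_comm]

private lemma pair_up {z : Arr} (hz : Sk z) (x : Fin 15 → ℝ) :
    ∑ i, ∑ j, z i j * up x i j = 2 * ∑ p, z (en p).1.1 (en p).1.2 * x p := by
  rw [sum_pairs (fun i j => z i j * up x i j)]
  · congr 1
    refine Finset.sum_congr rfl fun p _ => ?_
    rw [up_en]
  · intro i j
    rw [hz i j, sk_up x i j]; ring
  · intro i
    have := hz i i
    have h : z i i = 0 := by linarith
    simp [h]

private lemma bf_up {U : Ten} (h12 : ∀ i j k l, U j i k l = - U i j k l)
    (h34 : ∀ i j k l, U i j l k = - U i j k l) (x : Fin 15 → ℝ) :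
    bf U (up x) (up x) = 4 * ∑ p, ∑ q,
      x p * (U (en p).1.1 (en p).1.2 (en q).1.1 (en q).1.2 * x q) := by
  have h1 : bf U (up x) (up x) = ∑ i, ∑ j, (∑ k, ∑ l, U i j k l * up x k l) * up x i j := by
    unfold bf
    refine Finset.sum_congr rfl fun i _ => Finset.sum_congr rfl fun j _ => ?_
    simp only [Finset.sum_mul]
    refine Finset.sum_congr rfl fun k _ => Finset.sum_congr rfl fun l _ => ?_
    ring
  have hsk : Sk (fun i j => ∑ k, ∑ l, U i j k l * up x k l) := by
    intro i j
    simp only [h12 i j, neg_mul, Finset.sum_neg_distrib]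
  rw [h1, pair_up hsk x]
  have h2 : ∀ i j, ∑ k, ∑ l, U i j k l * up x k l =
      2 * ∑ q, U i j (en q).1.1 (en q).1.2 * x q := fun i j => pair_up (h34 i j) x
  simp only [h2]
  simp only [Finset.mul_sum, Finset.sum_mul]
  refine Finset.sum_congr rfl fun p _ => Finset.sum_congr rfl fun q _ => ?_
  ring

theorem exists_gram {U : Ten} (h12 : ∀ i j k l, U j i k l = - U i j k l)
    (h34 : ∀ i j k l, U i j l k = - U i j k l) (hp : ∀ i j k l, U k l i j = U i j k l)
    (hpos : ∀ β : Arr, Sk β → β ≠ 0 → 0 < bf U β β) :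
    ∃ ρ : Fin 15 → Arr, (∀ a, Sk (ρ a)) ∧ U = ∑ a, tens (ρ a) (ρ a) ∧
      LinearIndependent ℝ ρ ∧ (∀ z, Sk z → ∃ c : Fin 15 → ℝ, z = ∑ a, c a • ρ a) ∧
      (∀ c : Fin 15 → ℝ, ∃ β : Arr, Sk β ∧ ∀ a, ∑ i, ∑ j, ρ a i j * β i j = c a) := by
  set A : Matrix (Fin 15) (Fin 15) ℝ :=
    Matrix.of fun p q => U (en p).1.1 (en p).1.2 (en q).1.1 (en q).1.2 with hA
  have hAp : A.PosDef := by
    refine Matrix.PosDef.of_dotProduct_mulVec_pos ?_ ?_
    · ext p q
      simp [hA, hp]
    · intro x hx
      have hne : up x ≠ 0 := by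
        intro h
        apply hx
        funext p
        rw [← up_en x p, h]; rfl
      have h1 := hpos (up x) (sk_up x) hne
      rw [bf_up h12 h34] at h1
      have h2 : star x ⬝ᵥ A.mulVec x = ∑ p, ∑ q,
          x p * (U (en p).1.1 (en p).1.2 (en q).1.1 (en q).1.2 * x q) := by
        simp only [dotProduct, Matrix.mulVec, hA, Matrix.of_apply, Pi.star_apply, star_trivial,
          Finset.mul_sum]
      rw [h2]
      linarith
  obtain ⟨L, hL, hAL⟩ := exists_factor15 A hAp
  have hdet : IsUnit L.det := (Matrix.isUnit_iff_isUnit_det _).1 hL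
  have hdett : IsUnit L.transpose.det := by rwa [Matrix.det_transpose]
  have hAL' : ∀ p q, U (en p).1.1 (en p).1.2 (en q).1.1 (en q).1.2 = ∑ a, L p a * L q a := by
    intro p q
    have := congrFun (congrFun hAL p) q
    simpa [hA, Matrix.mul_apply, Matrix.transpose_apply] using this
  have hdual : ∀ c : Fin 15 → ℝ, ∃ β : Arr, Sk β ∧
      ∀ a, ∑ i, ∑ j, up (fun p => L p a) i j * β i j = c a := by
    intro c
    refine ⟨up (L.transpose⁻¹.mulVec (fun a => c a / 2)), sk_up _, fun a => ?_⟩
    rw [pair_up (sk_up _)]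
    simp only [up_en]
    have h1 : L.transpose.mulVec (L.transpose⁻¹.mulVec (fun a => c a / 2)) =
        fun a => c a / 2 := by
      rw [Matrix.mulVec_mulVec, Matrix.mul_nonsing_inv _ hdett, Matrix.one_mulVec]
    have h2 := congrFun h1 a
    rw [Matrix.mulVec, dotProduct] at h2
    simp only [Matrix.transpose_apply] at h2
    rw [h2]; ring
  refine ⟨fun a => up (fun p => L p a), fun a => sk_up _, ?_, ?_, ?_, hdual⟩
  · -- U
    have hsum : ∀ i j k l, (∑ a, tens (up (fun p => L p a)) (up (fun p => L p a))) i j k l =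
        ∑ a, up (fun p => L p a) i j * up (fun p => L p a) k l := by
      intro i j k l
      simp only [Finset.sum_apply, tens]
    have h1 : ∀ p, ∀ k l, U (en p).1.1 (en p).1.2 k l =
        (∑ a, tens (up (fun p => L p a)) (up (fun p => L p a))) (en p).1.1 (en p).1.2 k l := by
      intro p
      have : U (en p).1.1 (en p).1.2 =
          (∑ a, tens (up (fun p => L p a)) (up (fun p => L p a))) (en p).1.1 (en p).1.2 := by
        refine sk_ext (h34 _ _) ?_ ?_
        · intro k l
          rw [hsum, hsum, ← Finset.sum_neg_distrib]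
          refine Finset.sum_congr rfl fun a _ => ?_
          rw [sk_up _ k l]; ring
        · intro q
          rw [hsum, hAL']
          simp only [up_en]
      intro k l
      rw [this]
    funext i j k l
    have h2 : (fun i j => U i j k l) =
        fun i j => (∑ a, tens (up (fun p => L p a)) (up (fun p => L p a))) i j k l := by
      refine sk_ext (fun i j => h12 i j k l) ?_ ?_
      · intro i j
        simp only [hsum]
        rw [← Finset.sum_neg_distrib]
        refine Finset.sum_congr rfl fun a _ => ?_
        rw [sk_up _ i j]; ring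
      · intro p
        exact h1 p k l
    exact congrFun (congrFun h2 i) j
  · -- independence
    rw [Fintype.linearIndependent_iff]
    intro g hg
    obtain ⟨β, -, hβ⟩ := hdual g
    have h1 : ∑ a, g a * g a = 0 := by
      have h2 : ∑ a, g a * g a = ∑ i, ∑ j, (∑ a, g a • up (fun p => L p a)) i j * β i j := by
        calc ∑ a, g a * g a
            = ∑ a, g a * ∑ i, ∑ j, up (fun p => L p a) i j * β i j := by
              refine Finset.sum_congr rfl fun a _ => ?_
              rw [hβ a]
          _ = ∑ a, ∑ i, ∑ j, g a * (up (fun p => L p a) i j * β i j) := by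
              simp only [Finset.mul_sum]
          _ = ∑ i, ∑ j, ∑ a, g a * (up (fun p => L p a) i j * β i j) := by
              rw [Finset.sum_comm]
              refine Finset.sum_congr rfl fun i _ => ?_
              rw [Finset.sum_comm]
          _ = _ := by
              refine Finset.sum_congr rfl fun i _ => Finset.sum_congr rfl fun j _ => ?_
              simp only [Finset.sum_apply, Pi.smul_apply, smul_eq_mul, Finset.sum_mul]
              refine Finset.sum_congr rfl fun a _ => ?_
              ring
      rw [h2, hg]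
      simp
    intro a
    have h3 := (Finset.sum_eq_zero_iff_of_nonneg (fun a _ => mul_self_nonneg (g a))).1 h1 a
      (Finset.mem_univ a)
    exact mul_self_eq_zero.1 h3
  · -- span
    intro z hz
    refine ⟨L⁻¹.mulVec (fun p => z (en p).1.1 (en p).1.2), ?_⟩
    have h1 : L.mulVec (L⁻¹.mulVec (fun p => z (en p).1.1 (en p).1.2)) =
        fun p => z (en p).1.1 (en p).1.2 := by
      rw [Matrix.mulVec_mulVec, Matrix.mul_nonsing_inv _ hdet, Matrix.one_mulVec]
    refine sk_ext hz ?_ ?_
    · intro i j
      simp only [Finset.sum_apply, Pi.smul_apply, smul_eq_mul]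
      rw [← Finset.sum_neg_distrib]
      refine Finset.sum_congr rfl fun a _ => ?_
      rw [sk_up _ i j]; ring
    · intro p
      have h2 := congrFun h1 p
      rw [Matrix.mulVec, dotProduct] at h2
      simp only [Finset.sum_apply, Pi.smul_apply, smul_eq_mul, up_en]
      rw [← h2]
      refine Finset.sum_congr rfl fun a _ => ?_
      ring

end Pool.HopfAL
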