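import Pool.Agent.Lib.MP_4a593f_gt.AL.Scalar

/-! The scalar inequality; see the docstring of `AL/Scalar.lean` for the proof. -/

namespace Pool.HopfAL

open Finset

private theorem scalar1_norm {ι : Type} [Fintype ι] (μ p r : ι → ℝ) (hp : ∀ k, 0 ≤ p k)
    (hr : ∀ k, 0 ≤ r k)
    (hpr : ∀ k, p k + r k ≤ 1) (hP : ∑ k, p k = 1) (hR : ∑ k, r k = 1)
    (hX : ∑ k, r k * μ k = 1)
    (h8 : (univ.filter (fun k => 0 < μ k)).card ≤ 8)
    (h7 : 0 < ∑ k, p k * μ k → (univ.filter (fun k => 0 < μ k)).card ≤ 7) :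
    3 / 2 * ∑ k, μ k ≤
      3 * ∑ k, (1 - p k) * μ k ^ 2 + (∑ k, p k * μ k) ^ 2 := by
  classical
  set I : Finset ι := univ.filter (fun k => 0 < μ k) with hI
  have hmem : ∀ k, k ∈ I ↔ 0 < μ k := by
    intro k
    simp [hI]
  set n : ℝ := ∑ k, p k * μ k with hn
  set P : ℝ := ∑ k ∈ I, p k with hPdef
  have hp1 : ∀ k, p k ≤ 1 := fun k => by linarith [hpr k, hr k]
  have split : ∀ f : ι → ℝ, ∑ k, f k = ∑ k ∈ I, f k + ∑ k ∈ Iᶜ, f k := fun f =>
    (Finset.sum_add_sum_compl I f).symm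
  have hPle : P ≤ 1 := by
    have h := split p
    have h2 : 0 ≤ ∑ k ∈ Iᶜ, p k := Finset.sum_nonneg fun k _ => hp k
    linarith
  have hRle : ∑ k ∈ I, r k ≤ 1 := by
    have h := split r
    have h2 : 0 ≤ ∑ k ∈ Iᶜ, r k := Finset.sum_nonneg fun k _ => hr k
    linarith
  have hneg : ∀ k ∈ Iᶜ, μ k ≤ 0 := by
    intro k hk
    rw [Finset.mem_compl, hmem] at hk
    exact not_lt.mp hk
  have hrI : 1 ≤ ∑ k ∈ I, r k * μ k := by
    have h := split (fun k => r k * μ k)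
    have h2 : ∑ k ∈ Iᶜ, r k * μ k ≤ 0 :=
      Finset.sum_nonpos fun k hk => mul_nonpos_of_nonneg_of_nonpos (hr k) (hneg k hk)
    linarith
  have hnI : n ≤ ∑ k ∈ I, p k * μ k := by
    have h := split (fun k => p k * μ k)
    have h2 : ∑ k ∈ Iᶜ, p k * μ k ≤ 0 :=
      Finset.sum_nonpos fun k hk => mul_nonpos_of_nonneg_of_nonpos (hp k) (hneg k hk)
    linarith
  set A : ℝ := ∑ k ∈ I, (1 - p k) * (μ k - 1 / 4) ^ 2 with hA
  set D : ℝ := ∑ k ∈ I, p k * (μ k - 1 / 4) with hD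
  have hDn : ∑ k ∈ I, p k * μ k = D + P / 4 := by
    rw [hD, hPdef, Finset.sum_div, ← Finset.sum_add_distrib]
    exact Finset.sum_congr rfl fun k _ => by ring
  have hrd : 3 / 4 ≤ ∑ k ∈ I, r k * (μ k - 1 / 4) := by
    have h : ∑ k ∈ I, r k * (μ k - 1 / 4) = ∑ k ∈ I, r k * μ k - (∑ k ∈ I, r k) / 4 := by
      rw [Finset.sum_div, ← Finset.sum_sub_distrib]
      exact Finset.sum_congr rfl fun k _ => by ring
    linarith
  have hcard : ∑ k ∈ I, (1 - p k) = (I.card : ℝ) - P := by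
    rw [Finset.sum_sub_distrib, hPdef]
    simp
  -- the pointwise estimate, summed
  have key : 3 * A - 3 / 16 * ((I.card : ℝ) - P) - 3 / 2 * n ≤
      3 * ∑ k, (1 - p k) * μ k ^ 2 - 3 / 2 * ∑ k, μ k := by
    have h1 : 3 * ∑ k, (1 - p k) * μ k ^ 2 - 3 / 2 * ∑ k, μ k =
        ∑ k, (3 * ((1 - p k) * μ k ^ 2) - 3 / 2 * μ k) := by
      rw [Finset.mul_sum, Finset.mul_sum, ← Finset.sum_sub_distrib]
    have h2 : ∑ k ∈ I, (3 * ((1 - p k) * μ k ^ 2) - 3 / 2 * μ k) =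
        3 * A - 3 / 16 * ((I.card : ℝ) - P) - 3 / 2 * ∑ k ∈ I, p k * μ k := by
      rw [← hcard, hA, Finset.mul_sum, Finset.mul_sum, Finset.mul_sum, ← Finset.sum_sub_distrib,
        ← Finset.sum_sub_distrib]
      exact Finset.sum_congr rfl fun k _ => by ring
    have h3 : - (3 / 2) * ∑ k ∈ Iᶜ, p k * μ k ≤
        ∑ k ∈ Iᶜ, (3 * ((1 - p k) * μ k ^ 2) - 3 / 2 * μ k) := by
      rw [Finset.mul_sum]
      refine Finset.sum_le_sum fun k hk => ?_
      have ha : 0 ≤ (1 - p k) * μ k ^ 2 := mul_nonneg (by linarith [hp1 k]) (sq_nonneg _)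
      have hb : (1 - p k) * μ k ≤ 0 :=
        mul_nonpos_of_nonneg_of_nonpos (by linarith [hp1 k]) (hneg k hk)
      nlinarith
    have h4 := split (fun k => p k * μ k)
    have h5 := split (fun k => 3 * ((1 - p k) * μ k ^ 2) - 3 / 2 * μ k)
    rw [h1, h5, h2]
    have h6 : n = ∑ k ∈ I, p k * μ k + ∑ k ∈ Iᶜ, p k * μ k := h4
    linarith
  have hP0 : 0 ≤ P := Finset.sum_nonneg fun k _ => hp k
  rcases le_or_gt n 0 with h0 | h0
  · have hA9 : 9 / 16 ≤ A :=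
      scalar00 I p r (fun k => μ k - 1 / 4) (fun k _ => hr k) (fun k _ => hpr k) hRle hrd
    have hc : (I.card : ℝ) ≤ 8 := by exact_mod_cast h8
    nlinarith [sq_nonneg n]
  · have hc : (I.card : ℝ) ≤ 7 := by exact_mod_cast h7 h0
    have hS := scalar0 I p r (fun k => μ k - 1 / 4) (1 - P) (fun k _ => hp k) (fun k _ => hr k)
      (fun k _ => hpr k) (by linarith) (by linarith) hRle hrd
    rw [← hA, ← hD] at hS
    have hq : (max (1 / 2 + (1 - P) / 4 - D) 0) ^ 2 ≤ (n - 3 / 4) ^ 2 := by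
      rcases le_total (1 / 2 + (1 - P) / 4 - D) 0 with h | h
      · rw [max_eq_right h]
        nlinarith [sq_nonneg (n - 3 / 4)]
      · rw [max_eq_left h]
        have h2 : 1 / 2 + (1 - P) / 4 - D ≤ 3 / 4 - n := by linarith
        nlinarith
    nlinarith

theorem scalar1 {ι : Type} [Fintype ι] (μ p r : ι → ℝ) (hp : ∀ k, 0 ≤ p k) (hr : ∀ k, 0 ≤ r k)
    (hpr : ∀ k, p k + r k ≤ 1) (hP : ∑ k, p k = 1) (hR : ∑ k, r k = 1)
    (hX : 0 < ∑ k, r k * μ k)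
    (h8 : (univ.filter (fun k => 0 < μ k)).card ≤ 8)
    (h7 : 0 < ∑ k, p k * μ k → (univ.filter (fun k => 0 < μ k)).card ≤ 7) :
    3 / 2 * (∑ k, r k * μ k) * ∑ k, μ k ≤
      3 * ∑ k, (1 - p k) * μ k ^ 2 + (∑ k, p k * μ k) ^ 2 := by
  classical
  set X : ℝ := ∑ k, r k * μ k with hXdef
  have hfil : univ.filter (fun k => 0 < μ k / X) = univ.filter (fun k => 0 < μ k) := by
    ext k
    simp only [mem_filter, mem_univ, true_and]
    exact div_pos_iff_of_pos_right hX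
  have e1 : ∑ k, r k * (μ k / X) = 1 := by
    have : ∑ k, r k * (μ k / X) = X / X := by
      rw [hXdef, Finset.sum_div]
      exact Finset.sum_congr rfl fun k _ => by ring
    rw [this, div_self hX.ne']
  have e2 : ∑ k, p k * (μ k / X) = (∑ k, p k * μ k) / X := by
    rw [Finset.sum_div]
    exact Finset.sum_congr rfl fun k _ => by ring
  have e3 : ∑ k, μ k / X = (∑ k, μ k) / X := by
    rw [Finset.sum_div]
  have e4 : ∑ k, (1 - p k) * (μ k / X) ^ 2 = (∑ k, (1 - p k) * μ k ^ 2) / X ^ 2 := by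
    rw [Finset.sum_div]
    exact Finset.sum_congr rfl fun k _ => by ring
  have h := scalar1_norm (fun k => μ k / X) p r hp hr hpr hP hR e1
    (by rw [hfil]; exact h8)
    (by
      rw [hfil, e2]
      intro h
      exact h7 ((div_pos_iff_of_pos_right hX).mp h))
  rw [e2, e3, e4] at h
  have hX2 : 0 < X ^ 2 := by positivity
  have h2 := mul_le_mul_of_nonneg_right h hX2.le
  have l1 : 3 / 2 * ((∑ k, μ k) / X) * X ^ 2 = 3 / 2 * X * ∑ k, μ k := by
    field_simp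
  have l2 : (3 * ((∑ k, (1 - p k) * μ k ^ 2) / X ^ 2) + ((∑ k, p k * μ k) / X) ^ 2) * X ^ 2 =
      3 * ∑ k, (1 - p k) * μ k ^ 2 + (∑ k, p k * μ k) ^ 2 := by
    field_simp
  rw [l1, l2] at h2
  exact h2

end Pool.HopfAL
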