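import Pool.Agent.Lib.MP_4a593f_gt.AL.Spec
import Pool.Agent.Lib.MP_4a593f_gt.AL.Scalar1

/-!
The inequality for a symmetric matrix with few positive eigenvalues.

Proof.  Take `μ, q` from `exists_spec`, `p k = (∑ v i q k i)²`, `r k = (∑ u i q k i)²`.  Then
`∑ p = ∑ r = 1` (Parseval), `p k + r k ≤ 1` (Bessel for the unit vector `q k` and the orthonormal
`u, v`), `∑∑ M u u = ∑ r μ`, `∑ M i i = ∑ μ`, `∑∑ M² = ∑ μ²`, `∑ (M v)² = ∑ p μ²`,
`∑∑ M v v = ∑ p μ`.  The span `E` of the `q k` with `μ k > 0` has dimension equal to the number of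
positive `μ k` and `M` is positive on it (an element `c` of it has `∑ c i q k i = 0` for the other
`k`).  Conclude by `scalar1`.
-/

namespace Pool.HopfAL

open Finset

section

variable {ι : Type} [Fintype ι] [DecidableEq ι] {M : ι → ι → ℝ} {μ : ι → ℝ} {q : ι → ι → ℝ}

private theorem parseval (h2 : ∀ i j, ∑ k, q k i * q k j = if i = j then 1 else 0) (c : ι → ℝ) :
    ∑ k, (∑ i, c i * q k i) ^ 2 = ∑ i, c i * c i := by
  have e : ∀ k, (∑ i, c i * q k i) ^ 2 = ∑ i, ∑ j, c i * c j * (q k i * q k j) := by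
    intro k
    rw [sq, Finset.sum_mul_sum]
    apply Finset.sum_congr rfl; intro i _
    apply Finset.sum_congr rfl; intro j _
    ring
  simp only [e]
  rw [Finset.sum_comm]
  apply Finset.sum_congr rfl; intro i _
  rw [Finset.sum_comm]
  have : ∀ j, ∑ k, c i * c j * (q k i * q k j) = if i = j then c i * c j else 0 := by
    intro j
    rw [← Finset.mul_sum, h2]
    split_ifs <;> simp
  simp only [this]
  simp

omit [DecidableEq ι] in
private theorem quad (h3 : ∀ i j, M i j = ∑ k, μ k * q k i * q k j) (c : ι → ℝ) :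
    ∑ i, ∑ j, M i j * c i * c j = ∑ k, (∑ i, c i * q k i) ^ 2 * μ k := by
  have e : ∀ k, (∑ i, c i * q k i) ^ 2 * μ k = ∑ i, ∑ j, μ k * q k i * q k j * c i * c j := by
    intro k
    rw [sq, Finset.sum_mul_sum, Finset.sum_mul]
    apply Finset.sum_congr rfl; intro i _
    rw [Finset.sum_mul]
    apply Finset.sum_congr rfl; intro j _
    ring
  symm
  simp only [e]
  rw [Finset.sum_comm]
  apply Finset.sum_congr rfl; intro i _
  rw [Finset.sum_comm]
  apply Finset.sum_congr rfl; intro j _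
  rw [h3, Finset.sum_mul, Finset.sum_mul]

private theorem trace (h1 : ∀ k l, ∑ i, q k i * q l i = if k = l then 1 else 0)
    (h3 : ∀ i j, M i j = ∑ k, μ k * q k i * q k j) : ∑ i, M i i = ∑ k, μ k := by
  simp only [h3]
  rw [Finset.sum_comm]
  apply Finset.sum_congr rfl; intro k _
  have : ∀ i, μ k * q k i * q k i = μ k * (q k i * q k i) := fun i => by ring
  simp only [this]
  rw [← Finset.mul_sum, h1]
  simp

private theorem apply_sq (h1 : ∀ k l, ∑ i, q k i * q l i = if k = l then 1 else 0)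
    (h3 : ∀ i j, M i j = ∑ k, μ k * q k i * q k j) (c : ι → ℝ) :
    ∑ i, (∑ j, M i j * c j) ^ 2 = ∑ k, (∑ i, c i * q k i) ^ 2 * μ k ^ 2 := by
  have e : ∀ i, ∑ j, M i j * c j = ∑ k, μ k * (∑ j, c j * q k j) * q k i := by
    intro i
    simp only [h3, Finset.sum_mul, Finset.mul_sum]
    rw [Finset.sum_comm]
    apply Finset.sum_congr rfl; intro k _
    apply Finset.sum_congr rfl; intro j _
    ring
  simp only [e]
  set b : ι → ℝ := fun k => μ k * ∑ j, c j * q k j with hb
  have e2 : ∀ i, (∑ k, b k * q k i) ^ 2 = ∑ k, ∑ l, b k * b l * (q k i * q l i) := by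
    intro i
    rw [sq, Finset.sum_mul_sum]
    apply Finset.sum_congr rfl; intro k _
    apply Finset.sum_congr rfl; intro l _
    ring
  have e3 : ∑ i, (∑ k, b k * q k i) ^ 2 = ∑ k, b k ^ 2 := by
    simp only [e2]
    rw [Finset.sum_comm]
    apply Finset.sum_congr rfl; intro k _
    rw [Finset.sum_comm]
    have : ∀ l, ∑ i, b k * b l * (q k i * q l i) = if k = l then b k * b l else 0 := by
      intro l
      rw [← Finset.mul_sum, h1]
      split_ifs <;> simp
    simp only [this]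
    simp [sq]
  rw [e3]
  apply Finset.sum_congr rfl; intro k _
  simp only [hb]
  ring

private theorem frob (h1 : ∀ k l, ∑ i, q k i * q l i = if k = l then 1 else 0)
    (h3 : ∀ i j, M i j = ∑ k, μ k * q k i * q k j) :
    ∑ i, ∑ j, M i j ^ 2 = ∑ k, μ k ^ 2 := by
  rw [Finset.sum_comm]
  have e : ∀ j, ∑ i, M i j ^ 2 = ∑ k, (q k j) ^ 2 * μ k ^ 2 := by
    intro j
    have := apply_sq h1 h3 (fun i => if i = j then 1 else 0)
    simpa using this
  simp only [e]
  rw [Finset.sum_comm]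
  apply Finset.sum_congr rfl; intro k _
  rw [← Finset.sum_mul]
  have := h1 k k
  simp only [if_true] at this
  have h4 : ∑ i, q k i ^ 2 = 1 := by
    rw [← this]
    apply Finset.sum_congr rfl; intro i _
    ring
  rw [h4, one_mul]

private theorem bessel (h1 : ∀ k l, ∑ i, q k i * q l i = if k = l then 1 else 0)
    (u v : ι → ℝ) (hu : ∑ i, u i * u i = 1) (hv : ∑ i, v i * v i = 1) (huv : ∑ i, u i * v i = 0)
    (k : ι) : (∑ i, v i * q k i) ^ 2 + (∑ i, u i * q k i) ^ 2 ≤ 1 := by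
  set a := ∑ i, u i * q k i with ha
  set b := ∑ i, v i * q k i with hb
  have h0 : 0 ≤ ∑ i, (q k i - a * u i - b * v i) ^ 2 := Finset.sum_nonneg fun i _ => sq_nonneg _
  have e : ∑ i, (q k i - a * u i - b * v i) ^ 2 = ∑ i, q k i * q k i + a ^ 2 * ∑ i, u i * u i +
      b ^ 2 * ∑ i, v i * v i - 2 * a * ∑ i, u i * q k i - 2 * b * ∑ i, v i * q k i +
      2 * a * b * ∑ i, u i * v i := by
    simp only [Finset.mul_sum]
    rw [← Finset.sum_add_distrib, ← Finset.sum_add_distrib, ← Finset.sum_sub_distrib,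
      ← Finset.sum_sub_distrib, ← Finset.sum_add_distrib]
    apply Finset.sum_congr rfl; intro i _
    ring
  rw [e, hu, hv, huv, ← ha, ← hb, h1] at h0
  simp only [if_true] at h0
  nlinarith

private theorem count (h1 : ∀ k l, ∑ i, q k i * q l i = if k = l then 1 else 0)
    (h2 : ∀ i j, ∑ k, q k i * q k j = if i = j then 1 else 0)
    (h3 : ∀ i j, M i j = ∑ k, μ k * q k i * q k j) (N : ℕ)
    (h : ∀ E : Submodule ℝ (ι → ℝ), (∀ c ∈ E, c ≠ 0 → 0 < ∑ i, ∑ j, M i j * c i * c j) →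
      Module.finrank ℝ E ≤ N) : (univ.filter (fun k => 0 < μ k)).card ≤ N := by
  classical
  set Q : {k // 0 < μ k} → (ι → ℝ) := fun k => q k with hQ
  have hli : LinearIndependent ℝ Q := by
    rw [Fintype.linearIndependent_iff]
    intro g hg l
    have h4 : ∑ i, (∑ k : {k // 0 < μ k}, g k • Q k) i * q l i = 0 := by
      rw [hg]; simp
    simp only [Finset.sum_apply, Pi.smul_apply, smul_eq_mul, Finset.sum_mul] at h4
    rw [Finset.sum_comm] at h4
    have h5 : ∀ k : {k // 0 < μ k}, ∑ i, g k * Q k i * q l i = if k = l then g k else 0 := by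
      intro k
      have : ∀ i, g k * Q k i * q l i = g k * (q k i * q l i) := fun i => by
        rw [hQ]; ring
      simp only [this]
      rw [← Finset.mul_sum, h1]
      by_cases hkl : k = l
      · subst hkl; simp
      · have : (k : ι) ≠ l := fun h => hkl (Subtype.ext h)
        simp [hkl, this]
    simp only [h5] at h4
    simpa using h4
  have hcard : Module.finrank ℝ (Submodule.span ℝ (Set.range Q)) =
      (univ.filter (fun k => 0 < μ k)).card := by
    rw [finrank_span_eq_card hli, Fintype.card_subtype]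
  rw [← hcard]
  apply h
  intro c hc hc0
  have hneg : ∀ l, ¬ 0 < μ l → ∑ i, c i * q l i = 0 := by
    intro l hl
    refine Submodule.span_induction (p := fun c _ => ∑ i, c i * q l i = 0) ?_ ?_ ?_ ?_ hc
    · rintro _ ⟨k, rfl⟩
      have hkl : (k : ι) ≠ l := by
        rintro rfl; exact hl k.2
      rw [show (∑ i, Q k i * q l i) = ∑ i, q k i * q l i from rfl, h1, if_neg hkl]
    · simp
    · intro x y _ _ hx hy
      simp only [Pi.add_apply, add_mul, Finset.sum_add_distrib, hx, hy, add_zero]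
    · intro a x _ hx
      simp only [Pi.smul_apply, smul_eq_mul, mul_assoc]
      rw [← Finset.mul_sum, hx, mul_zero]
  rw [quad h3]
  have hpos : 0 < ∑ k, (∑ i, c i * q k i) ^ 2 := by
    rw [parseval h2]
    obtain ⟨i, hi⟩ := Function.ne_iff.1 hc0
    refine Finset.sum_pos' (fun j _ => mul_self_nonneg _) ⟨i, Finset.mem_univ i, ?_⟩
    exact mul_self_pos.2 (by simpa using hi)
  obtain ⟨l, -, hl⟩ : ∃ l ∈ (univ : Finset ι), 0 < (∑ i, c i * q l i) ^ 2 := by
    by_contra hne
    simp only [not_exists, not_and, not_lt] at hne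
    have : ∑ k, (∑ i, c i * q k i) ^ 2 ≤ 0 := Finset.sum_nonpos fun k hk => hne k hk
    linarith
  apply Finset.sum_pos'
  · intro k _
    by_cases hk : 0 < μ k
    · positivity
    · rw [hneg k hk]; simp
  · refine ⟨l, Finset.mem_univ l, ?_⟩
    by_cases hk : 0 < μ l
    · positivity
    · rw [hneg l hk] at hl; simp at hl

end

theorem core1 {ι : Type} [Fintype ι] [DecidableEq ι] (M : ι → ι → ℝ) (hM : ∀ i j, M j i = M i j)
    (u v : ι → ℝ) (hu : ∑ i, u i * u i = 1) (hv : ∑ i, v i * v i = 1) (huv : ∑ i, u i * v i = 0)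
    (hX : 0 < ∑ i, ∑ j, M i j * u i * u j)
    (h8 : ∀ E : Submodule ℝ (ι → ℝ), (∀ c ∈ E, c ≠ 0 → 0 < ∑ i, ∑ j, M i j * c i * c j) →
      Module.finrank ℝ E ≤ 8)
    (h7 : 0 < ∑ i, ∑ j, M i j * v i * v j →
      ∀ E : Submodule ℝ (ι → ℝ), (∀ c ∈ E, c ≠ 0 → 0 < ∑ i, ∑ j, M i j * c i * c j) →
        Module.finrank ℝ E ≤ 7) :
    3 / 2 * (∑ i, ∑ j, M i j * u i * u j) * ∑ i, M i i ≤
      3 * ∑ i, ∑ j, M i j ^ 2 - 3 * ∑ i, (∑ j, M i j * v j) ^ 2 +
        (∑ i, ∑ j, M i j * v i * v j) ^ 2 := by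
  obtain ⟨μ, q, h1, h2, h3⟩ := exists_spec M hM
  have hX' := hX
  rw [quad h3] at hX'
  have key := scalar1 μ (fun k => (∑ i, v i * q k i) ^ 2) (fun k => (∑ i, u i * q k i) ^ 2)
    (fun k => sq_nonneg _) (fun k => sq_nonneg _) (fun k => bessel h1 u v hu hv huv k)
    (by rw [parseval h2, hv]) (by rw [parseval h2, hu]) hX' (count h1 h2 h3 8 h8)
    (fun hp => count h1 h2 h3 7 (h7 (by rw [quad h3]; exact hp)))
  rw [quad h3, quad h3, trace h1 h3, frob h1 h3, apply_sq h1 h3]
  have e : ∑ k, (1 - (∑ i, v i * q k i) ^ 2) * μ k ^ 2 =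
      ∑ k, μ k ^ 2 - ∑ k, (∑ i, v i * q k i) ^ 2 * μ k ^ 2 := by
    rw [← Finset.sum_sub_distrib]
    apply Finset.sum_congr rfl; intro k _
    ring
  rw [e] at key
  linarith

end Pool.HopfAL
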