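import Pool.Agent.Lib.MP_4a593f_gt.AL.Defs

/-!
Counting dimensions: the space of skew arrays has dimension 15.

Proof of `count`.  Consider the linear map `E × (Fin m → ℝ) → Arr`, `(c, t) ↦ ∑ c a • ρ a - Ψ t`.
Its values are skew; it is injective: if `∑ c a • ρ a = Ψ t` then `T3 y (..) (..) ≤ 0`, and if
`c ≠ 0` it is positive by `hE` (expand with the trilinearity of `T3`); so `c = 0`, `Ψ t = 0`,
`t = 0`.  The submodule of skew arrays has `finrank ≤ 15` (a skew array is determined by the 15
entries above the diagonal).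
-/

namespace Pool.HopfAL

open Finset Equiv Pool.HopfKP

/-- the pairs above the diagonal -/
private abbrev Up : Type := {p : Fin 6 × Fin 6 // p.1 < p.2}

private theorem card_Up : Fintype.card Up = 15 := by decide

/-- the submodule of skew arrays -/
private def SkS : Submodule ℝ Arr where
  carrier := {x | Sk x}
  add_mem' := by
    intro x y hx hy i j
    simp only [Pi.add_apply]
    rw [hx i j, hy i j]; ring
  zero_mem' := by
    intro i j
    simp
  smul_mem' := by
    intro c x hx i j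
    simp only [Pi.smul_apply, smul_eq_mul]
    rw [hx i j]; ring

private theorem finrank_SkS : Module.finrank ℝ SkS ≤ 15 := by
  let L : SkS →ₗ[ℝ] (Up → ℝ) :=
    { toFun := fun x p => (x : Arr) p.1.1 p.1.2
      map_add' := fun x y => by
        funext p
        simp
      map_smul' := fun c x => by
        funext p
        simp }
  have hL : Function.Injective L := by
    rw [injective_iff_map_eq_zero]
    intro x hx
    have hup : ∀ i j : Fin 6, i < j → (x : Arr) i j = 0 := fun i j hij =>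
      congrFun hx (⟨(i, j), hij⟩ : Up)
    apply Subtype.ext
    funext i j
    show (x : Arr) i j = 0
    rcases lt_trichotomy i j with h | h | h
    · exact hup i j h
    · subst h
      have := x.2 i i
      linarith
    · rw [x.2 j i, hup j i h, neg_zero]
  have h := LinearMap.finrank_le_finrank_of_injective hL
  rwa [Module.finrank_fintype_fun_eq_card, card_Up] at h

private theorem T3_lin (y : Arr) (ρ : Fin 15 → Arr) (c : Fin 15 → ℝ) :
    T3 y (∑ a, c a • ρ a) (∑ a, c a • ρ a) = ∑ i, ∑ j, T3 y (ρ i) (ρ j) * c i * c j := by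
  rw [T3_sum_right]
  have h1 : ∀ j, T3 y (∑ a, c a • ρ a) (c j • ρ j) = ∑ i, T3 y (ρ i) (ρ j) * c i * c j := by
    intro j
    rw [T3_smul_right, T3_comm23, T3_sum_right, Finset.mul_sum]
    refine Finset.sum_congr rfl fun i _ => ?_
    rw [T3_smul_right, T3_comm23]
    ring
  rw [Finset.sum_congr rfl fun j _ => h1 j, Finset.sum_comm]

theorem count {y : Arr} {ρ : Fin 15 → Arr} (hρ : ∀ a, Sk (ρ a)) {m : ℕ}
    (Ψ : (Fin m → ℝ) →ₗ[ℝ] Arr) (hΨ : Function.Injective Ψ) (hs : ∀ t, Sk (Ψ t))
    (hn : ∀ t, T3 y (Ψ t) (Ψ t) ≤ 0) (E : Submodule ℝ (Fin 15 → ℝ))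
    (hE : ∀ c ∈ E, c ≠ 0 → 0 < ∑ i, ∑ j, T3 y (ρ i) (ρ j) * c i * c j) :
    Module.finrank ℝ E + m ≤ 15 := by
  have hmem : ∀ c : Fin 15 → ℝ, (∑ a, c a • ρ a) ∈ SkS := fun c =>
    Submodule.sum_mem _ fun a _ => Submodule.smul_mem _ _ (hρ a)
  let Φ : (E × (Fin m → ℝ)) →ₗ[ℝ] SkS :=
    { toFun := fun p => ⟨(∑ a, (p.1 : Fin 15 → ℝ) a • ρ a) - Ψ p.2,
        Submodule.sub_mem _ (hmem _) (hs p.2)⟩
      map_add' := fun p q => by
        apply Subtype.ext
        show (∑ a, ((p + q).1 : Fin 15 → ℝ) a • ρ a) - Ψ (p + q).2 =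
          ((∑ a, (p.1 : Fin 15 → ℝ) a • ρ a) - Ψ p.2) + ((∑ a, (q.1 : Fin 15 → ℝ) a • ρ a) - Ψ q.2)
        simp only [Prod.fst_add, Prod.snd_add, Submodule.coe_add, Pi.add_apply, add_smul,
          Finset.sum_add_distrib, map_add]
        abel
      map_smul' := fun r p => by
        apply Subtype.ext
        show (∑ a, ((r • p).1 : Fin 15 → ℝ) a • ρ a) - Ψ (r • p).2 =
          r • ((∑ a, (p.1 : Fin 15 → ℝ) a • ρ a) - Ψ p.2)
        simp only [Prod.smul_fst, Prod.smul_snd, Submodule.coe_smul, Pi.smul_apply, smul_eq_mul,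
          map_smul, smul_sub, Finset.smul_sum, mul_smul] }
  have hΦ : Function.Injective Φ := by
    rw [injective_iff_map_eq_zero]
    rintro ⟨⟨c, hc⟩, t⟩ h
    have h1 : (∑ a, c a • ρ a) - Ψ t = 0 := congrArg Subtype.val h
    have h2 : (∑ a, c a • ρ a) = Ψ t := sub_eq_zero.1 h1
    have hc0 : c = 0 := by
      by_contra hne
      have h3 := hE c hc hne
      rw [← T3_lin, h2] at h3
      exact absurd (hn t) (not_le.2 h3)
    subst hc0
    have h4 : Ψ t = 0 := by
      rw [← h2]
      simp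
    have h5 : t = 0 := hΨ (by rw [h4, map_zero])
    subst h5
    rfl
  have h := LinearMap.finrank_le_finrank_of_injective hΦ
  rw [Module.finrank_prod, Module.finrank_fin_fun] at h
  exact h.trans finrank_SkS

end Pool.HopfAL
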