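import Pool.Agent.Lib.MP_4a593f_gt.KP.Basic
import Pool.Agent.Lib.MP_4a593f_gt.KP.GL

/-!
Two-forms on `ℝ⁶`, the standard symplectic form, and the 4-form `½ J ∧ J`.
-/

namespace Pool.HopfAL

open Finset Equiv Pool.HopfKP

/-- skew arrays (2-forms, bivectors) -/
def Sk (x : Arr) : Prop := ∀ i j, x j i = - x i j

/-- the 2-form `a e₀∧e₁ + b e₂∧e₃ + c e₄∧e₅` -/
def nf (a b c : ℝ) : Arr := ![![0, a, 0, 0, 0, 0], ![-a, 0, 0, 0, 0, 0], ![0, 0, 0, b, 0, 0],
  ![0, 0, -b, 0, 0, 0], ![0, 0, 0, 0, 0, c], ![0, 0, 0, 0, -c, 0]]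

/-- the standard symplectic form -/
def J : Arr := nf 1 1 1

/-- trace against `J` -/
def tJ (x : Arr) : ℝ := x 0 1 + x 2 3 + x 4 5

/-- `Λ²w` -/
def sq (w : Arr) : Ten := fun i j k l => w i k * w j l - w i l * w j k

/-- the 4-form `½ J ∧ J` as a 4-index array -/
def Om : Ten := fun i j k l => J i j * J k l - J i k * J j l + J i l * J j k

/-- value on a pair of arrays -/
def bf (U : Ten) (x y : Arr) : ℝ := ∑ i, ∑ j, ∑ k, ∑ l, U i j k l * x i j * y k l

/-- the elementary 2-form `e_k ∧ e_l` -/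
def el (k l : Fin 6) : Arr := fun i j =>
  (if i = k then 1 else 0) * (if j = l then 1 else 0) -
    (if i = l then 1 else 0) * (if j = k then 1 else 0)

/-- polarised Pfaffian on four indices (times two) -/
def pf4 (x y : Arr) (i j k l : Fin 6) : ℝ :=
  x i j * y k l + x k l * y i j - x i k * y j l - x j l * y i k + x i l * y j k + x j k * y i l

/-- components of the 2-form `x` in the family `g` -/
def pull (g : Fin 6 → Vec) (x : Arr) : Arr := fun i j => ∑ k, ∑ l, x k l * g i k * g j l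

theorem sk_nf (a b c : ℝ) : Sk (nf a b c) := by
  intro i j
  fin_cases i <;> fin_cases j <;> simp [nf]

theorem sk_J : Sk J := sk_nf 1 1 1

theorem sk_el (k l : Fin 6) : Sk (el k l) := by
  intro i j; unfold el; ring

end Pool.HopfAL
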