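import Pool.Agent.Lib.MP_4a593f_gt.AL.Defs

/-!
Explicit value of `T3` on skew arrays.

Hint.  `T3` is trilinear (`T3_add_right`, `T3_smul_right`, `T3_sum_right`, `T3_comm12`,
`T3_comm23`), so it is enough to treat `z = el k l`, `k < l` (a skew array is
`∑_{k<l} z k l • el k l`).  For `z = el k l` choose a permutation `π` with `π 4 = k`, `π 5 = l`
and replace `σ` by `π * σ` in the sum: `T3 x y (el k l) = sg π * T3 (x∘π) (y∘π) (el 4 5)`,
`(x∘π) i j = x (π i) (π j)`.  And `T3 x y (el 4 5) = 2 ∑_{σ, σ4=4, σ5=5} ...` is a sum over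
`Perm (Fin 4)`, equal to `8 * pf4 x y 0 1 2 3`.  The file `KP/T3Eval.lean` evaluates `T3` on
products by determinants, which is an alternative.
-/

namespace Pool.HopfAL

open Finset Equiv Pool.HopfKP

/-! ### permutations of the basis -/

private def pe (π : Perm (Fin 6)) (x : Arr) : Arr := fun i j => x (π i) (π j)

private theorem sg_sq (π : Perm (Fin 6)) : sg π * sg π = 1 := by
  unfold sg
  rcases Int.units_eq_one_or (Perm.sign π) with h | h <;> rw [h] <;> simp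

private theorem T3_pe (π : Perm (Fin 6)) (x y z : Arr) :
    T3 x y z = sg π * T3 (pe π x) (pe π y) (pe π z) := by
  have h : T3 (pe π x) (pe π y) (pe π z) = sg π * T3 x y z := by
    unfold T3 pe
    rw [Finset.mul_sum]
    refine Fintype.sum_equiv (Equiv.mulLeft π) _ _ fun σ => ?_
    simp only [Equiv.coe_mulLeft, sg_mul, Perm.mul_apply]
    linear_combination (-(sg σ * (x (π (σ 0)) (π (σ 1)) * y (π (σ 2)) (π (σ 3)) *
      z (π (σ 4)) (π (σ 5))))) * sg_sq π
  rw [h]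
  linear_combination (-(T3 x y z)) * sg_sq π

private theorem pe_el (π : Perm (Fin 6)) (k l : Fin 6) : pe π (el (π k) (π l)) = el k l := by
  funext i j
  simp only [pe, el, EmbeddingLike.apply_eq_iff_eq]

private theorem sk_pe {x : Arr} (hx : Sk x) (π : Perm (Fin 6)) : Sk (pe π x) :=
  fun i j => hx (π i) (π j)

/-! ### products of vectors -/

private def r1 (u v : Vec) : Arr := fun i j => u i * v j

private def bs (a : Fin 6) : Vec := fun i => if i = a then 1 else 0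

private theorem el_eq (k l : Fin 6) : el k l = r1 (bs k) (bs l) - r1 (bs l) (bs k) := by
  funext i j
  simp only [el, r1, bs, Pi.sub_apply]

private theorem sg_swap (i j : Fin 6) (h : i ≠ j) : sg (swap i j) = -1 := by
  unfold sg
  rw [Perm.sign_swap h]
  simp

private theorem T3_tr (α β γ : Arr) : T3 (fun i j => α j i) β γ = -T3 α β γ := by
  unfold T3
  rw [← Finset.sum_neg_distrib]
  refine Fintype.sum_equiv (Equiv.mulRight (swap 0 1)) _ _ fun σ => ?_
  have h0 : (swap (0 : Fin 6) 1) 0 = 1 := by decide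
  have h1 : (swap (0 : Fin 6) 1) 1 = 0 := by decide
  have h2 : (swap (0 : Fin 6) 1) 2 = 2 := by decide
  have h3 : (swap (0 : Fin 6) 1) 3 = 3 := by decide
  have h4 : (swap (0 : Fin 6) 1) 4 = 4 := by decide
  have h5 : (swap (0 : Fin 6) 1) 5 = 5 := by decide
  simp only [Equiv.coe_mulRight, sg_mul, sg_swap 0 1 (by decide), Perm.mul_apply, h0, h1, h2,
    h3, h4, h5]
  ring

private theorem T3_tr3 (α β : Arr) (u v : Vec) : T3 α β (r1 v u) = -T3 α β (r1 u v) := by
  have h := T3_tr (r1 u v) α β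
  have e : (fun i j => r1 u v j i) = r1 v u := by
    funext i j
    simp only [r1, mul_comm]
  rw [e] at h
  rw [T3_comm23, T3_comm12, h, T3_comm12, T3_comm23]

private theorem T3_sub_right (α β γ γ' : Arr) : T3 α β (γ - γ') = T3 α β γ - T3 α β γ' := by
  have h := T3_add_right α β γ ((-1 : ℝ) • γ')
  rw [T3_smul_right] at h
  have e : γ - γ' = γ + (-1 : ℝ) • γ' := by
    rw [neg_one_smul, sub_eq_add_neg]
  rw [e, h]
  ring

private theorem T3_el3 (α β : Arr) (k l : Fin 6) :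
    T3 α β (el k l) = 2 * T3 α β (r1 (bs k) (bs l)) := by
  rw [el_eq, T3_sub_right, T3_tr3 α β (bs k) (bs l)]
  ring

private theorem T3_el2 (α β : Arr) (k l : Fin 6) :
    T3 α (el k l) β = 2 * T3 α (r1 (bs k) (bs l)) β := by
  rw [T3_comm23, T3_el3, T3_comm23]

private theorem T3_el23 (x : Arr) (a b c d : Fin 6) :
    T3 x (el a b) (el c d) = 4 * T3 x (r1 (bs a) (bs b)) (r1 (bs c) (bs d)) := by
  rw [T3_el3, T3_el2]
  ring

/-- equal vectors in the places 3 and 4 -/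
private theorem van34 (x : Arr) (V A E : Vec) : T3 x (r1 V A) (r1 A E) = 0 := by
  have h : T3 x (r1 V A) (r1 A E) = -T3 x (r1 V A) (r1 A E) := by
    conv_rhs => unfold T3
    unfold T3
    rw [← Finset.sum_neg_distrib]
    refine Fintype.sum_equiv (Equiv.mulRight (swap 3 4)) _ _ fun σ => ?_
    have h0 : (swap (3 : Fin 6) 4) 0 = 0 := by decide
    have h1 : (swap (3 : Fin 6) 4) 1 = 1 := by decide
    have h2 : (swap (3 : Fin 6) 4) 2 = 2 := by decide
    have h3 : (swap (3 : Fin 6) 4) 3 = 4 := by decide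
    have h4 : (swap (3 : Fin 6) 4) 4 = 3 := by decide
    have h5 : (swap (3 : Fin 6) 4) 5 = 5 := by decide
    simp only [Equiv.coe_mulRight, sg_mul, sg_swap 3 4 (by decide), Perm.mul_apply, h0, h1, h2,
      h3, h4, h5, r1]
    ring
  linarith

private theorem van35 (x : Arr) (V A E : Vec) : T3 x (r1 V A) (r1 E A) = 0 := by
  rw [T3_tr3 x (r1 V A) A E, van34, neg_zero]

private theorem B4 (x : Arr) (a : Fin 6) : T3 x (el a 4) (el 4 5) = 0 := by
  rw [T3_el23, van34, mul_zero]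

private theorem B5 (x : Arr) (a : Fin 6) : T3 x (el a 5) (el 4 5) = 0 := by
  rw [T3_el23, van35, mul_zero]

private theorem fix4 (σ : Perm (Fin 6)) (h2 : σ 2 = 2) (h3 : σ 3 = 3) (h4 : σ 4 = 4)
    (h5 : σ 5 = 5) : σ = 1 ∨ σ = swap 0 1 := by
  have key : ∀ a : Fin 6, a ≠ 2 → a ≠ 3 → a ≠ 4 → a ≠ 5 → a = 0 ∨ a = 1 := by decide
  have hn : ∀ i j : Fin 6, σ j = j → i ≠ j → σ i ≠ j := fun i j hj hij h =>
    hij (σ.injective (h.trans hj.symm))
  have h0 := key (σ 0) (hn 0 2 h2 (by decide)) (hn 0 3 h3 (by decide)) (hn 0 4 h4 (by decide))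
    (hn 0 5 h5 (by decide))
  have h1 := key (σ 1) (hn 1 2 h2 (by decide)) (hn 1 3 h3 (by decide)) (hn 1 4 h4 (by decide))
    (hn 1 5 h5 (by decide))
  have h01 : σ 0 ≠ σ 1 := fun h => absurd (σ.injective h) (by decide)
  rcases h0 with h0 | h0 <;> rcases h1 with h1 | h1
  · exact absurd (h0.trans h1.symm) h01
  · left
    refine Equiv.ext fun i => ?_
    fin_cases i
    · exact h0
    · exact h1
    · exact h2
    · exact h3
    · exact h4
    · exact h5
  · right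
    refine Equiv.ext fun i => ?_
    fin_cases i
    · exact h0
    · exact h1
    · exact h2
    · exact h3
    · exact h4
    · exact h5
  · exact absurd (h0.trans h1.symm) h01

private theorem base0 (x : Arr) :
    T3 x (r1 (bs 2) (bs 3)) (r1 (bs 4) (bs 5)) = x 0 1 - x 1 0 := by
  have hne : (1 : Perm (Fin 6)) ≠ swap 0 1 := by decide
  unfold T3
  rw [← Finset.sum_subset (Finset.subset_univ ({1, swap 0 1} : Finset (Perm (Fin 6))))]
  · rw [Finset.sum_pair hne, sg_swap 0 1 (by decide)]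
    have h0 : (swap (0 : Fin 6) 1) 0 = 1 := by decide
    have h1 : (swap (0 : Fin 6) 1) 1 = 0 := by decide
    have h2 : (swap (0 : Fin 6) 1) 2 = 2 := by decide
    have h3 : (swap (0 : Fin 6) 1) 3 = 3 := by decide
    have h4 : (swap (0 : Fin 6) 1) 4 = 4 := by decide
    have h5 : (swap (0 : Fin 6) 1) 5 = 5 := by decide
    have hs : sg (1 : Perm (Fin 6)) = 1 := by
      unfold sg
      rw [Perm.sign_one]
      simp
    simp only [h0, h1, h2, h3, h4, h5, hs, r1, bs, Perm.one_apply, if_true]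
    ring
  · intro σ _ hσ
    by_contra hc
    apply hσ
    rw [Finset.mem_insert, Finset.mem_singleton]
    have hall : σ 2 = 2 ∧ σ 3 = 3 ∧ σ 4 = 4 ∧ σ 5 = 5 := by
      refine ⟨?_, ?_, ?_, ?_⟩ <;>
      · by_contra h
        apply hc
        simp [r1, bs, h]
    exact fix4 σ hall.1 hall.2.1 hall.2.2.1 hall.2.2.2

private theorem L1 {x : Arr} (hx : Sk x) (π : Perm (Fin 6)) :
    T3 x (el (π 2) (π 3)) (el (π 4) (π 5)) = sg π * (8 * x (π 0) (π 1)) := by
  rw [T3_pe π, pe_el, pe_el, T3_el23, base0]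
  have h := hx (π 0) (π 1)
  simp only [pe]
  rw [h]
  ring

private theorem sk_decomp {z : Arr} (hz : Sk z) : z = z 0 1 • el 0 1 +
    z 0 2 • el 0 2 +
    z 0 3 • el 0 3 +
    z 0 4 • el 0 4 +
    z 0 5 • el 0 5 +
    z 1 2 • el 1 2 +
    z 1 3 • el 1 3 +
    z 1 4 • el 1 4 +
    z 1 5 • el 1 5 +
    z 2 3 • el 2 3 +
    z 2 4 • el 2 4 +
    z 2 5 • el 2 5 +
    z 3 4 • el 3 4 +
    z 3 5 • el 3 5 +
    z 4 5 • el 4 5 := by
  have hd : ∀ i, z i i = 0 := fun i => by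
    have := hz i i
    linarith
  funext i j
  simp only [Pi.add_apply, Pi.smul_apply, smul_eq_mul, el]
  fin_cases i <;> fin_cases j <;> simp [hd, hz 0 1, hz 0 2, hz 0 3, hz 0 4, hz 0 5, hz 1 2,
    hz 1 3, hz 1 4, hz 1 5, hz 2 3, hz 2 4, hz 2 5, hz 3 4, hz 3 5, hz 4 5]

private def r01 : Perm (Fin 6) := ⟨![2, 3, 0, 1, 4, 5], ![2, 3, 0, 1, 4, 5], by decide, by decide⟩

private theorem sg_r01 : sg r01 = 1 := by
  have h : Perm.sign r01 = 1 := by decide
  unfold sg
  rw [h]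
  simp

private theorem B01 {x : Arr} (hx : Sk x) : T3 x (el 0 1) (el 4 5) = (8 * x 2 3) := by
  have h := L1 hx r01
  rw [sg_r01] at h
  have e : T3 x (el 0 1) (el 4 5) = 1 * (8 * x 2 3) := h
  rw [e]
  ring

private def r02 : Perm (Fin 6) := ⟨![1, 3, 0, 2, 4, 5], ![2, 0, 3, 1, 4, 5], by decide, by decide⟩

private theorem sg_r02 : sg r02 = -1 := by
  have h : Perm.sign r02 = -1 := by decide
  unfold sg
  rw [h]
  simp

private theorem B02 {x : Arr} (hx : Sk x) : T3 x (el 0 2) (el 4 5) = -(8 * x 1 3) := by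
  have h := L1 hx r02
  rw [sg_r02] at h
  have e : T3 x (el 0 2) (el 4 5) = -1 * (8 * x 1 3) := h
  rw [e]
  ring

private def r03 : Perm (Fin 6) := ⟨![1, 2, 0, 3, 4, 5], ![2, 0, 1, 3, 4, 5], by decide, by decide⟩

private theorem sg_r03 : sg r03 = 1 := by
  have h : Perm.sign r03 = 1 := by decide
  unfold sg
  rw [h]
  simp

private theorem B03 {x : Arr} (hx : Sk x) : T3 x (el 0 3) (el 4 5) = (8 * x 1 2) := by
  have h := L1 hx r03
  rw [sg_r03] at h
  have e : T3 x (el 0 3) (el 4 5) = 1 * (8 * x 1 2) := h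
  rw [e]
  ring

private def r12 : Perm (Fin 6) := ⟨![0, 3, 1, 2, 4, 5], ![0, 2, 3, 1, 4, 5], by decide, by decide⟩

private theorem sg_r12 : sg r12 = 1 := by
  have h : Perm.sign r12 = 1 := by decide
  unfold sg
  rw [h]
  simp

private theorem B12 {x : Arr} (hx : Sk x) : T3 x (el 1 2) (el 4 5) = (8 * x 0 3) := by
  have h := L1 hx r12
  rw [sg_r12] at h
  have e : T3 x (el 1 2) (el 4 5) = 1 * (8 * x 0 3) := h
  rw [e]
  ring

private def r13 : Perm (Fin 6) := ⟨![0, 2, 1, 3, 4, 5], ![0, 2, 1, 3, 4, 5], by decide, by decide⟩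

private theorem sg_r13 : sg r13 = -1 := by
  have h : Perm.sign r13 = -1 := by decide
  unfold sg
  rw [h]
  simp

private theorem B13 {x : Arr} (hx : Sk x) : T3 x (el 1 3) (el 4 5) = -(8 * x 0 2) := by
  have h := L1 hx r13
  rw [sg_r13] at h
  have e : T3 x (el 1 3) (el 4 5) = -1 * (8 * x 0 2) := h
  rw [e]
  ring

private def r23 : Perm (Fin 6) := ⟨![0, 1, 2, 3, 4, 5], ![0, 1, 2, 3, 4, 5], by decide, by decide⟩

private theorem sg_r23 : sg r23 = 1 := by
  have h : Perm.sign r23 = 1 := by decide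
  unfold sg
  rw [h]
  simp

private theorem B23 {x : Arr} (hx : Sk x) : T3 x (el 2 3) (el 4 5) = (8 * x 0 1) := by
  have h := L1 hx r23
  rw [sg_r23] at h
  have e : T3 x (el 2 3) (el 4 5) = 1 * (8 * x 0 1) := h
  rw [e]
  ring


private theorem base1 {x y : Arr} (hx : Sk x) (hy : Sk y) :
    T3 x y (el 4 5) = 8 * pf4 x y 0 1 2 3 := by
  rw [T3_comm23]
  conv_lhs => rw [sk_decomp hy]
  simp only [T3_add_right, T3_smul_right]
  simp only [T3_comm23 x (el 4 5), B4, B5, B01 hx, B02 hx, B03 hx, B12 hx, B13 hx, B23 hx]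
  unfold pf4
  ring

private theorem L2 {x y : Arr} (hx : Sk x) (hy : Sk y) (π : Perm (Fin 6)) :
    T3 x y (el (π 4) (π 5)) = sg π * (8 * pf4 x y (π 0) (π 1) (π 2) (π 3)) := by
  rw [T3_pe π, pe_el, base1 (sk_pe hx π) (sk_pe hy π)]
  rfl

private def p01 : Perm (Fin 6) := ⟨![2, 3, 4, 5, 0, 1], ![4, 5, 0, 1, 2, 3], by decide, by decide⟩

private theorem sg_p01 : sg p01 = 1 := by
  have h : Perm.sign p01 = 1 := by decide
  unfold sg
  rw [h]
  simp

private theorem C01 {x y : Arr} (hx : Sk x) (hy : Sk y) :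
    T3 x y (el 0 1) = (8 * pf4 x y 2 3 4 5) := by
  have h := L2 hx hy p01
  rw [sg_p01] at h
  have e : T3 x y (el 0 1) = 1 * (8 * pf4 x y 2 3 4 5) := h
  rw [e]
  ring

private def p02 : Perm (Fin 6) := ⟨![1, 3, 4, 5, 0, 2], ![4, 0, 5, 1, 2, 3], by decide, by decide⟩

private theorem sg_p02 : sg p02 = -1 := by
  have h : Perm.sign p02 = -1 := by decide
  unfold sg
  rw [h]
  simp

private theorem C02 {x y : Arr} (hx : Sk x) (hy : Sk y) :
    T3 x y (el 0 2) = -(8 * pf4 x y 1 3 4 5) := by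
  have h := L2 hx hy p02
  rw [sg_p02] at h
  have e : T3 x y (el 0 2) = -1 * (8 * pf4 x y 1 3 4 5) := h
  rw [e]
  ring

private def p03 : Perm (Fin 6) := ⟨![1, 2, 4, 5, 0, 3], ![4, 0, 1, 5, 2, 3], by decide, by decide⟩

private theorem sg_p03 : sg p03 = 1 := by
  have h : Perm.sign p03 = 1 := by decide
  unfold sg
  rw [h]
  simp

private theorem C03 {x y : Arr} (hx : Sk x) (hy : Sk y) :
    T3 x y (el 0 3) = (8 * pf4 x y 1 2 4 5) := by
  have h := L2 hx hy p03
  rw [sg_p03] at h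
  have e : T3 x y (el 0 3) = 1 * (8 * pf4 x y 1 2 4 5) := h
  rw [e]
  ring

private def p04 : Perm (Fin 6) := ⟨![1, 2, 3, 5, 0, 4], ![4, 0, 1, 2, 5, 3], by decide, by decide⟩

private theorem sg_p04 : sg p04 = -1 := by
  have h : Perm.sign p04 = -1 := by decide
  unfold sg
  rw [h]
  simp

private theorem C04 {x y : Arr} (hx : Sk x) (hy : Sk y) :
    T3 x y (el 0 4) = -(8 * pf4 x y 1 2 3 5) := by
  have h := L2 hx hy p04
  rw [sg_p04] at h
  have e : T3 x y (el 0 4) = -1 * (8 * pf4 x y 1 2 3 5) := h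
  rw [e]
  ring

private def p05 : Perm (Fin 6) := ⟨![1, 2, 3, 4, 0, 5], ![4, 0, 1, 2, 3, 5], by decide, by decide⟩

private theorem sg_p05 : sg p05 = 1 := by
  have h : Perm.sign p05 = 1 := by decide
  unfold sg
  rw [h]
  simp

private theorem C05 {x y : Arr} (hx : Sk x) (hy : Sk y) :
    T3 x y (el 0 5) = (8 * pf4 x y 1 2 3 4) := by
  have h := L2 hx hy p05
  rw [sg_p05] at h
  have e : T3 x y (el 0 5) = 1 * (8 * pf4 x y 1 2 3 4) := h
  rw [e]
  ring

private def p12 : Perm (Fin 6) := ⟨![0, 3, 4, 5, 1, 2], ![0, 4, 5, 1, 2, 3], by decide, by decide⟩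

private theorem sg_p12 : sg p12 = 1 := by
  have h : Perm.sign p12 = 1 := by decide
  unfold sg
  rw [h]
  simp

private theorem C12 {x y : Arr} (hx : Sk x) (hy : Sk y) :
    T3 x y (el 1 2) = (8 * pf4 x y 0 3 4 5) := by
  have h := L2 hx hy p12
  rw [sg_p12] at h
  have e : T3 x y (el 1 2) = 1 * (8 * pf4 x y 0 3 4 5) := h
  rw [e]
  ring

private def p13 : Perm (Fin 6) := ⟨![0, 2, 4, 5, 1, 3], ![0, 4, 1, 5, 2, 3], by decide, by decide⟩

private theorem sg_p13 : sg p13 = -1 := by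
  have h : Perm.sign p13 = -1 := by decide
  unfold sg
  rw [h]
  simp

private theorem C13 {x y : Arr} (hx : Sk x) (hy : Sk y) :
    T3 x y (el 1 3) = -(8 * pf4 x y 0 2 4 5) := by
  have h := L2 hx hy p13
  rw [sg_p13] at h
  have e : T3 x y (el 1 3) = -1 * (8 * pf4 x y 0 2 4 5) := h
  rw [e]
  ring

private def p14 : Perm (Fin 6) := ⟨![0, 2, 3, 5, 1, 4], ![0, 4, 1, 2, 5, 3], by decide, by decide⟩

private theorem sg_p14 : sg p14 = 1 := by
  have h : Perm.sign p14 = 1 := by decide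
  unfold sg
  rw [h]
  simp

private theorem C14 {x y : Arr} (hx : Sk x) (hy : Sk y) :
    T3 x y (el 1 4) = (8 * pf4 x y 0 2 3 5) := by
  have h := L2 hx hy p14
  rw [sg_p14] at h
  have e : T3 x y (el 1 4) = 1 * (8 * pf4 x y 0 2 3 5) := h
  rw [e]
  ring

private def p15 : Perm (Fin 6) := ⟨![0, 2, 3, 4, 1, 5], ![0, 4, 1, 2, 3, 5], by decide, by decide⟩

private theorem sg_p15 : sg p15 = -1 := by
  have h : Perm.sign p15 = -1 := by decide
  unfold sg
  rw [h]
  simp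

private theorem C15 {x y : Arr} (hx : Sk x) (hy : Sk y) :
    T3 x y (el 1 5) = -(8 * pf4 x y 0 2 3 4) := by
  have h := L2 hx hy p15
  rw [sg_p15] at h
  have e : T3 x y (el 1 5) = -1 * (8 * pf4 x y 0 2 3 4) := h
  rw [e]
  ring

private def p23 : Perm (Fin 6) := ⟨![0, 1, 4, 5, 2, 3], ![0, 1, 4, 5, 2, 3], by decide, by decide⟩

private theorem sg_p23 : sg p23 = 1 := by
  have h : Perm.sign p23 = 1 := by decide
  unfold sg
  rw [h]
  simp

private theorem C23 {x y : Arr} (hx : Sk x) (hy : Sk y) :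
    T3 x y (el 2 3) = (8 * pf4 x y 0 1 4 5) := by
  have h := L2 hx hy p23
  rw [sg_p23] at h
  have e : T3 x y (el 2 3) = 1 * (8 * pf4 x y 0 1 4 5) := h
  rw [e]
  ring

private def p24 : Perm (Fin 6) := ⟨![0, 1, 3, 5, 2, 4], ![0, 1, 4, 2, 5, 3], by decide, by decide⟩

private theorem sg_p24 : sg p24 = -1 := by
  have h : Perm.sign p24 = -1 := by decide
  unfold sg
  rw [h]
  simp

private theorem C24 {x y : Arr} (hx : Sk x) (hy : Sk y) :
    T3 x y (el 2 4) = -(8 * pf4 x y 0 1 3 5) := by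
  have h := L2 hx hy p24
  rw [sg_p24] at h
  have e : T3 x y (el 2 4) = -1 * (8 * pf4 x y 0 1 3 5) := h
  rw [e]
  ring

private def p25 : Perm (Fin 6) := ⟨![0, 1, 3, 4, 2, 5], ![0, 1, 4, 2, 3, 5], by decide, by decide⟩

private theorem sg_p25 : sg p25 = 1 := by
  have h : Perm.sign p25 = 1 := by decide
  unfold sg
  rw [h]
  simp

private theorem C25 {x y : Arr} (hx : Sk x) (hy : Sk y) :
    T3 x y (el 2 5) = (8 * pf4 x y 0 1 3 4) := by
  have h := L2 hx hy p25
  rw [sg_p25] at h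
  have e : T3 x y (el 2 5) = 1 * (8 * pf4 x y 0 1 3 4) := h
  rw [e]
  ring

private def p34 : Perm (Fin 6) := ⟨![0, 1, 2, 5, 3, 4], ![0, 1, 2, 4, 5, 3], by decide, by decide⟩

private theorem sg_p34 : sg p34 = 1 := by
  have h : Perm.sign p34 = 1 := by decide
  unfold sg
  rw [h]
  simp

private theorem C34 {x y : Arr} (hx : Sk x) (hy : Sk y) :
    T3 x y (el 3 4) = (8 * pf4 x y 0 1 2 5) := by
  have h := L2 hx hy p34
  rw [sg_p34] at h
  have e : T3 x y (el 3 4) = 1 * (8 * pf4 x y 0 1 2 5) := h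
  rw [e]
  ring

private def p35 : Perm (Fin 6) := ⟨![0, 1, 2, 4, 3, 5], ![0, 1, 2, 4, 3, 5], by decide, by decide⟩

private theorem sg_p35 : sg p35 = -1 := by
  have h : Perm.sign p35 = -1 := by decide
  unfold sg
  rw [h]
  simp

private theorem C35 {x y : Arr} (hx : Sk x) (hy : Sk y) :
    T3 x y (el 3 5) = -(8 * pf4 x y 0 1 2 4) := by
  have h := L2 hx hy p35
  rw [sg_p35] at h
  have e : T3 x y (el 3 5) = -1 * (8 * pf4 x y 0 1 2 4) := h
  rw [e]
  ring

private def p45 : Perm (Fin 6) := ⟨![0, 1, 2, 3, 4, 5], ![0, 1, 2, 3, 4, 5], by decide, by decide⟩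

private theorem sg_p45 : sg p45 = 1 := by
  have h : Perm.sign p45 = 1 := by decide
  unfold sg
  rw [h]
  simp

private theorem C45 {x y : Arr} (hx : Sk x) (hy : Sk y) :
    T3 x y (el 4 5) = (8 * pf4 x y 0 1 2 3) := by
  have h := L2 hx hy p45
  rw [sg_p45] at h
  have e : T3 x y (el 4 5) = 1 * (8 * pf4 x y 0 1 2 3) := h
  rw [e]
  ring

theorem T3_eval {x y z : Arr} (hx : Sk x) (hy : Sk y) (hz : Sk z) :
    T3 x y z = 8 * (z 0 1 * pf4 x y 2 3 4 5 - z 0 2 * pf4 x y 1 3 4 5 + z 0 3 * pf4 x y 1 2 4 5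
      - z 0 4 * pf4 x y 1 2 3 5 + z 0 5 * pf4 x y 1 2 3 4 + z 1 2 * pf4 x y 0 3 4 5
      - z 1 3 * pf4 x y 0 2 4 5 + z 1 4 * pf4 x y 0 2 3 5 - z 1 5 * pf4 x y 0 2 3 4
      + z 2 3 * pf4 x y 0 1 4 5 - z 2 4 * pf4 x y 0 1 3 5 + z 2 5 * pf4 x y 0 1 3 4
      + z 3 4 * pf4 x y 0 1 2 5 - z 3 5 * pf4 x y 0 1 2 4 + z 4 5 * pf4 x y 0 1 2 3) := by
  conv_lhs => rw [sk_decomp hz]
  simp only [T3_add_right, T3_smul_right]
  rw [C01 hx hy, C02 hx hy, C03 hx hy, C04 hx hy, C05 hx hy, C12 hx hy, C13 hx hy, C14 hx hy, C15 hx hy, C23 hx hy, C24 hx hy, C25 hx hy, C34 hx hy, C35 hx hy, C45 hx hy]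
  ring

end Pool.HopfAL
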