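import Pool.Agent.Lib.MP_4a593f_gt.AL.Eval

/-!
Consequences of the explicit formula for `T3` (`T3_eval`).
-/

namespace Pool.HopfAL

open Finset Equiv Pool.HopfKP

theorem T3_JJ {x : Arr} (hx : Sk x) : T3 J J x = 16 * tJ x := by
  rw [T3_eval sk_J sk_J hx]
  simp [pf4, J, nf, tJ]
  ring

theorem T3_nf (a b c : ℝ) {x : Arr} (hx : Sk x) :
    T3 (nf a b c) x x = 16 * (a * (x 2 3 * x 4 5 - x 2 4 * x 3 5 + x 2 5 * x 3 4)
      + b * (x 0 1 * x 4 5 - x 0 4 * x 1 5 + x 0 5 * x 1 4)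
      + c * (x 0 1 * x 2 3 - x 0 2 * x 1 3 + x 0 3 * x 1 2)) := by
  rw [T3_eval (sk_nf a b c) hx hx]
  simp [pf4, nf]
  ring

theorem T3_nf3 (a b c : ℝ) : T3 (nf a b c) (nf a b c) (nf a b c) = 48 * (a * b * c) := by
  rw [T3_nf a b c (sk_nf a b c)]
  simp [nf]
  ring

theorem T3_J3 : T3 J J J = 48 := by
  have := T3_nf3 1 1 1
  simpa [J] using this

end Pool.HopfAL
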