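import Pool.Agent.Lib.MP_4a593f_gt.AL.Defs

/-!
Normal form of a 2-form on `ℝ⁶` in a positively oriented basis.

Proof.  Write `y(u,v) = ∑ y_kl u_k v_l`; it is alternating.  If there are `u₁, v₁` with
`y(u₁,v₁) ≠ 0` put `W₁ = {w | y(u₁,w) = y(v₁,w) = 0}`, of dimension `≥ 4`, which meets
`span(u₁,v₁)` only in `0`.  If `y` vanishes on `W₁ × W₁`, take a linearly independent family of 4
vectors of `W₁`.  Otherwise take `u₂, v₂ ∈ W₁` with `y(u₂,v₂) ≠ 0` and
`W₂ = {w | y(u₁,w) = y(v₁,w) = y(u₂,w) = y(v₂,w) = 0}`, of dimension `≥ 2`, and two linearly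
independent vectors `u₃, v₃` of `W₂`.  In all cases the six vectors are linearly independent (test
a relation with `y(u₁,·)`, `y(v₁,·)`, ...), and `y` has the normal form in them.  If `y = 0` take
the standard basis.  Finally, if the determinant is negative replace `g 0` by `- g 0` and `a` by
`- a`.
-/

namespace Pool.HopfAL

open Finset Equiv Pool.HopfKP

/-- the bilinear form of an array -/
private def bl (y : Arr) (u v : Vec) : ℝ := ∑ k, ∑ l, y k l * u k * v l

private theorem bl_add_left (y : Arr) (u u' v : Vec) : bl y (u + u') v = bl y u v + bl y u' v := by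
  simp only [bl, Pi.add_apply, ← Finset.sum_add_distrib]
  refine Finset.sum_congr rfl fun k _ => Finset.sum_congr rfl fun l _ => ?_
  ring

private theorem bl_smul_left (y : Arr) (c : ℝ) (u v : Vec) : bl y (c • u) v = c * bl y u v := by
  simp only [bl, Pi.smul_apply, smul_eq_mul, Finset.mul_sum]
  refine Finset.sum_congr rfl fun k _ => Finset.sum_congr rfl fun l _ => ?_
  ring

private theorem bl_add_right (y : Arr) (u v v' : Vec) : bl y u (v + v') = bl y u v + bl y u v' := by
  simp only [bl, Pi.add_apply, ← Finset.sum_add_distrib]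
  refine Finset.sum_congr rfl fun k _ => Finset.sum_congr rfl fun l _ => ?_
  ring

private theorem bl_smul_right (y : Arr) (c : ℝ) (u v : Vec) : bl y u (c • v) = c * bl y u v := by
  simp only [bl, Pi.smul_apply, smul_eq_mul, Finset.mul_sum]
  refine Finset.sum_congr rfl fun k _ => Finset.sum_congr rfl fun l _ => ?_
  ring

private theorem bl_skew {y : Arr} (hy : Sk y) (u v : Vec) : bl y v u = - bl y u v := by
  simp only [bl, ← Finset.sum_neg_distrib]
  rw [Finset.sum_comm]
  refine Finset.sum_congr rfl fun k _ => Finset.sum_congr rfl fun l _ => ?_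
  rw [hy k l]
  ring

private theorem bl_self {y : Arr} (hy : Sk y) (u : Vec) : bl y u u = 0 := by
  have := bl_skew hy u u
  linarith

/-- `B u` as a linear map -/
private def lf (y : Arr) (u : Vec) : Vec →ₗ[ℝ] ℝ where
  toFun := bl y u
  map_add' := bl_add_right y u
  map_smul' c v := by simpa using bl_smul_right y c u v

private theorem sup_dim {n : ℕ} {W W' : Submodule ℝ Vec} {u v : Vec}
    (hW : Module.finrank ℝ W = n + 2) (h : W ≤ Submodule.span ℝ {u, v} ⊔ W') :
    n ≤ Module.finrank ℝ W' := by
  have h1 : Module.finrank ℝ W ≤ Module.finrank ℝ (Submodule.span ℝ {u, v} ⊔ W' : Submodule ℝ Vec) :=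
    Submodule.finrank_mono h
  have h2 := Submodule.finrank_add_le_finrank_add_finrank (Submodule.span ℝ {u, v}) W'
  have h3 : Module.finrank ℝ (Submodule.span ℝ ({u, v} : Set Vec)) ≤ 2 := by
    have h4 : ({u, v} : Set Vec) = Set.range ![u, v] := by
      ext w
      simp [or_comm, eq_comm]
    rw [h4]
    have := finrank_range_le_card (R := ℝ) ![u, v]
    simpa [Set.finrank] using this
  omega

private theorem stepA {y : Arr} (hy : Sk y) {n : ℕ} {W : Submodule ℝ Vec}
    (hW : Module.finrank ℝ W = n + 2) : ∃ (u v : Vec) (W' : Submodule ℝ Vec), u ∈ W ∧ v ∈ W ∧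
      W' ≤ W ∧ W ≤ Submodule.span ℝ {u, v} ⊔ W' ∧ Module.finrank ℝ W' = n ∧
      ∀ w ∈ W', bl y u w = 0 ∧ bl y v w = 0 := by
  by_cases hB : ∃ u ∈ W, ∃ v ∈ W, bl y u v ≠ 0
  · obtain ⟨u, hu, v, hv, huv⟩ := hB
    set W' : Submodule ℝ Vec := W ⊓ (LinearMap.ker (lf y u) ⊓ LinearMap.ker (lf y v)) with hW'
    have hmem : ∀ w, w ∈ W' ↔ w ∈ W ∧ bl y u w = 0 ∧ bl y v w = 0 := by
      intro w
      simp only [hW', Submodule.mem_inf, LinearMap.mem_ker]
      rfl
    have hle : W ≤ Submodule.span ℝ {u, v} ⊔ W' := by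
      intro w hw
      have hvu : bl y v u = - bl y u v := bl_skew hy u v
      set α := - bl y v w / bl y u v with hα
      set β := bl y u w / bl y u v with hβ
      have h1 : w - (α • u + β • v) ∈ W' := by
        rw [hmem]
        refine ⟨W.sub_mem hw (W.add_mem (W.smul_mem _ hu) (W.smul_mem _ hv)), ?_, ?_⟩
        · have h2 : bl y u w = bl y u (w - (α • u + β • v)) + bl y u (α • u + β • v) := by
            rw [← bl_add_right, sub_add_cancel]
          rw [bl_add_right, bl_smul_right, bl_smul_right, bl_self hy] at h2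
          have h3 : β * bl y u v = bl y u w := by rw [hβ]; field_simp
          linarith
        · have h2 : bl y v w = bl y v (w - (α • u + β • v)) + bl y v (α • u + β • v) := by
            rw [← bl_add_right, sub_add_cancel]
          rw [bl_add_right, bl_smul_right, bl_smul_right, bl_self hy, hvu] at h2
          have h3 : α * (- bl y u v) = bl y v w := by rw [hα]; field_simp
          linarith
      have h4 : w = (α • u + β • v) + (w - (α • u + β • v)) := by abel
      rw [h4]
      refine Submodule.add_mem_sup (Submodule.add_mem _ (Submodule.smul_mem _ _ ?_)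
        (Submodule.smul_mem _ _ ?_)) h1
      · exact Submodule.subset_span (by simp)
      · exact Submodule.subset_span (by simp)
    refine ⟨u, v, W', hu, hv, inf_le_left, hle, ?_, fun w hw => ((hmem w).1 hw).2⟩
    refine le_antisymm ?_ (sup_dim hW hle)
    have hli : LinearIndependent ℝ ![u, v] := by
      rw [LinearIndependent.pair_iff]
      intro s t hst
      have h1 : bl y u (s • u + t • v) = 0 := by
        rw [hst]; simp [bl]
      have h2 : bl y v (s • u + t • v) = 0 := by
        rw [hst]; simp [bl]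
      rw [bl_add_right, bl_smul_right, bl_smul_right, bl_self hy] at h1 h2
      rw [bl_skew hy u v] at h2
      constructor
      · have : s * bl y u v = 0 := by linarith
        exact (mul_eq_zero.1 this).resolve_right huv
      · have : t * bl y u v = 0 := by linarith
        exact (mul_eq_zero.1 this).resolve_right huv
    have h2 : Module.finrank ℝ (Submodule.span ℝ ({u, v} : Set Vec)) = 2 := by
      have h4 : ({u, v} : Set Vec) = Set.range ![u, v] := by
        ext w
        simp [or_comm, eq_comm]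
      rw [h4, finrank_span_eq_card hli]
      simp
    have hinf : Submodule.span ℝ ({u, v} : Set Vec) ⊓ W' = ⊥ := by
      rw [Submodule.eq_bot_iff]
      intro w hw
      obtain ⟨hw1, hw2⟩ := Submodule.mem_inf.1 hw
      obtain ⟨s, t, rfl⟩ := Submodule.mem_span_pair.1 hw1
      obtain ⟨-, h1, h2⟩ := (hmem _).1 hw2
      rw [bl_add_right, bl_smul_right, bl_smul_right, bl_self hy] at h1 h2
      rw [bl_skew hy u v] at h2
      have hs : s = 0 := by
        have : s * bl y u v = 0 := by linarith
        exact (mul_eq_zero.1 this).resolve_right huv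
      have ht : t = 0 := by
        have : t * bl y u v = 0 := by linarith
        exact (mul_eq_zero.1 this).resolve_right huv
      rw [hs, ht]; simp
    have h3 := Submodule.finrank_sup_add_finrank_inf_eq (Submodule.span ℝ ({u, v} : Set Vec)) W'
    rw [hinf, h2] at h3
    have h5 : Module.finrank ℝ (Submodule.span ℝ ({u, v} : Set Vec) ⊔ W' : Submodule ℝ Vec) ≤
        Module.finrank ℝ W := by
      refine Submodule.finrank_mono (sup_le ?_ inf_le_left)
      rw [Submodule.span_le]
      intro w hw
      rcases hw with rfl | hw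
      · exact hu
      · rw [Set.mem_singleton_iff.1 hw]; exact hv
    rw [finrank_bot] at h3
    omega
  · push Not at hB
    let b : Module.Basis (Fin (n + 2)) ℝ W := Module.finBasisOfFinrankEq ℝ W hW
    set W' : Submodule ℝ Vec := Submodule.span ℝ (Set.range fun i : Fin n =>
      ((b ⟨i.1 + 2, by omega⟩ : W) : Vec)) with hW'
    have hW'W : W' ≤ W := by
      rw [hW', Submodule.span_le]
      rintro _ ⟨i, rfl⟩
      exact (b _).2
    have hle : W ≤ Submodule.span ℝ {((b ⟨0, by omega⟩ : W) : Vec), ((b ⟨1, by omega⟩ : W) : Vec)} ⊔ W' := by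
      intro w hw
      have h1 : (⟨w, hw⟩ : W) = ∑ i, b.repr ⟨w, hw⟩ i • b i := (b.sum_repr _).symm
      have h2 : w = ∑ i, b.repr ⟨w, hw⟩ i • ((b i : W) : Vec) := by
        have h5 := congrArg W.subtype h1
        simpa only [map_sum, map_smul, Submodule.subtype_apply] using h5
      rw [h2]
      refine Submodule.sum_mem _ fun i _ => Submodule.smul_mem _ _ ?_
      rcases Nat.lt_or_ge i.1 2 with hi | hi
      · refine Submodule.mem_sup_left (Submodule.subset_span ?_)
        have h3 : i = ⟨0, by omega⟩ ∨ i = ⟨1, by omega⟩ := by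
          rcases Nat.lt_or_ge i.1 1 with h | h
          · left; apply Fin.ext; show i.1 = 0; omega
          · right; apply Fin.ext; show i.1 = 1; omega
        rcases h3 with h3 | h3
        · rw [h3]; exact Set.mem_insert _ _
        · rw [h3]; exact Set.mem_insert_of_mem _ rfl
      · refine Submodule.mem_sup_right (Submodule.subset_span ⟨⟨i.1 - 2, by omega⟩, ?_⟩)
        have h6 : (⟨(i.1 - 2) + 2, by omega⟩ : Fin (n + 2)) = i := by
          apply Fin.ext; show (i.1 - 2) + 2 = i.1; omega
        show ((b ⟨(i.1 - 2) + 2, _⟩ : W) : Vec) = _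
        rw [h6]
    refine ⟨_, _, W', (b ⟨0, by omega⟩).2, (b ⟨1, by omega⟩).2, hW'W, hle,
      le_antisymm ?_ (sup_dim hW hle), ?_⟩
    · have := finrank_range_le_card (R := ℝ) (fun i : Fin n =>
        ((b ⟨i.1 + 2, by omega⟩ : W) : Vec))
      simpa [Set.finrank] using this
    · intro w hw
      exact ⟨hB _ (b _).2 _ (hW'W hw), hB _ (b _).2 _ (hW'W hw)⟩

private theorem pull_eq (g : Fin 6 → Vec) (y : Arr) (i j : Fin 6) :
    pull g y i j = bl y (g i) (g j) := rfl

private theorem exists_nf0 {y : Arr} (hy : Sk y) : ∃ (g : Fin 6 → Vec) (a b c : ℝ),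
    Matrix.det (Matrix.of g) ≠ 0 ∧ pull g y = nf a b c := by
  have h6 : Module.finrank ℝ (⊤ : Submodule ℝ Vec) = 4 + 2 := by
    rw [finrank_top]; simp
  obtain ⟨u₁, v₁, W₁, -, -, hW₁, hs₁, hd₁, ho₁⟩ := stepA hy h6
  obtain ⟨u₂, v₂, W₂, hu₂, hv₂, hW₂, hs₂, hd₂, ho₂⟩ := stepA hy (n := 2) hd₁
  obtain ⟨u₃, v₃, W₃, hu₃, hv₃, hW₃, hs₃, hd₃, ho₃⟩ := stepA hy (n := 0) hd₂
  have hW3 : W₃ = ⊥ := Submodule.finrank_eq_zero.1 hd₃
  have hspan : ⊤ ≤ Submodule.span ℝ (Set.range ![u₁, v₁, u₂, v₂, u₃, v₃]) := by
    have hm : ∀ i : Fin 6, ![u₁, v₁, u₂, v₂, u₃, v₃] i ∈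
        Submodule.span ℝ (Set.range ![u₁, v₁, u₂, v₂, u₃, v₃]) := fun i =>
      Submodule.subset_span ⟨i, rfl⟩
    refine hs₁.trans (sup_le ?_ (hs₂.trans (sup_le ?_ (hs₃.trans (sup_le ?_ ?_)))))
    · rw [Submodule.span_le]
      intro w hw
      rcases hw with rfl | hw
      · exact hm 0
      · rw [Set.mem_singleton_iff.1 hw]; exact hm 1
    · rw [Submodule.span_le]
      intro w hw
      rcases hw with rfl | hw
      · exact hm 2
      · rw [Set.mem_singleton_iff.1 hw]; exact hm 3
    · rw [Submodule.span_le]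
      intro w hw
      rcases hw with rfl | hw
      · exact hm 4
      · rw [Set.mem_singleton_iff.1 hw]; exact hm 5
    · rw [hW3]; exact bot_le
  have hli : LinearIndependent ℝ ![u₁, v₁, u₂, v₂, u₃, v₃] :=
    linearIndependent_of_top_le_span_of_card_eq_finrank hspan (by simp)
  have hdet : Matrix.det (Matrix.of ![u₁, v₁, u₂, v₂, u₃, v₃]) ≠ 0 := by
    have h1 : IsUnit (Matrix.of ![u₁, v₁, u₂, v₂, u₃, v₃]) :=
      Matrix.linearIndependent_rows_iff_isUnit.1 hli
    exact ((Matrix.isUnit_iff_isUnit_det _).1 h1).ne_zero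
  have h12 := ho₁ _ hu₂
  have h12' := ho₁ _ hv₂
  have h13 := ho₁ _ (hW₂ hu₃)
  have h13' := ho₁ _ (hW₂ hv₃)
  have h23 := ho₂ _ hu₃
  have h23' := ho₂ _ hv₃
  refine ⟨![u₁, v₁, u₂, v₂, u₃, v₃], bl y u₁ v₁, bl y u₂ v₂, bl y u₃ v₃, hdet, ?_⟩
  have r : ∀ u v : Vec, bl y u v = 0 → bl y v u = 0 := fun u v h => by
    rw [bl_skew hy u v, h, neg_zero]
  funext i j
  rw [pull_eq]
  fin_cases i <;> fin_cases j
  · exact bl_self hy _
  · rfl
  · exact h12.1
  · exact h12'.1
  · exact h13.1
  · exact h13'.1
  · exact bl_skew hy _ _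
  · exact bl_self hy _
  · exact h12.2
  · exact h12'.2
  · exact h13.2
  · exact h13'.2
  · exact r _ _ h12.1
  · exact r _ _ h12.2
  · exact bl_self hy _
  · rfl
  · exact h23.1
  · exact h23'.1
  · exact r _ _ h12'.1
  · exact r _ _ h12'.2
  · exact bl_skew hy _ _
  · exact bl_self hy _
  · exact h23.2
  · exact h23'.2
  · exact r _ _ h13.1
  · exact r _ _ h13.2
  · exact r _ _ h23.1
  · exact r _ _ h23.2
  · exact bl_self hy _
  · rfl
  · exact r _ _ h13'.1
  · exact r _ _ h13'.2
  · exact r _ _ h23'.1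
  · exact r _ _ h23'.2
  · exact bl_skew hy _ _
  · exact bl_self hy _

theorem exists_nf {y : Arr} (hy : Sk y) : ∃ (g : Fin 6 → Vec) (a b c : ℝ),
    0 < Matrix.det (Matrix.of g) ∧ pull g y = nf a b c := by
  obtain ⟨g, a, b, c, hdet, hp⟩ := exists_nf0 hy
  rcases lt_or_gt_of_ne hdet with h | h
  · refine ⟨Function.update g 0 (-g 0), -a, b, c, ?_, ?_⟩
    · have h1 : Matrix.of (Function.update g 0 (-g 0)) =
          (Matrix.of g).updateRow 0 ((-1 : ℝ) • (g 0)) := by
        rw [neg_one_smul]; rfl
      have h2 : (Matrix.of g).updateRow 0 (g 0) = Matrix.of g := Matrix.updateRow_eq_self _ _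
      rw [h1, Matrix.det_updateRow_smul, h2]
      linarith
    · have h3 : ∀ i j, bl y (g i) (g j) = nf a b c i j := fun i j => by
        rw [← pull_eq, hp]
      have hn1 : ∀ u v : Vec, bl y (-u) v = - bl y u v := fun u v => by
        rw [← neg_one_smul ℝ u, bl_smul_left]; ring
      have hn2 : ∀ u v : Vec, bl y u (-v) = - bl y u v := fun u v => by
        rw [← neg_one_smul ℝ v, bl_smul_right]; ring
      funext i j
      rw [pull_eq]
      by_cases hi : i = 0
      · by_cases hj : j = 0
        · subst hi; subst hj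
          rw [Function.update_self, hn1, hn2, h3]
          simp [nf]
        · subst hi
          rw [Function.update_self, Function.update_of_ne hj, hn1, h3]
          fin_cases j <;> simp_all [nf]
      · by_cases hj : j = 0
        · subst hj
          rw [Function.update_self, Function.update_of_ne hi, hn2, h3]
          fin_cases i <;> simp_all [nf]
        · rw [Function.update_of_ne hi, Function.update_of_ne hj, h3]
          fin_cases i <;> fin_cases j <;> simp_all [nf]
  · exact ⟨g, a, b, c, h, hp⟩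

end Pool.HopfAL
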