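import Pool.Agent.Lib.MP_4a593f_gt.AL.Defs

/-!
Change of basis for 2-forms.

Hint for `T3_pull`: both sides are trilinear; for arrays `x = (i,j) ↦ u i * v j` the value of `T3`
is a `6 × 6` determinant (see `T3_r1`, `T3_mv` in `KP/GL.lean`), and
`pull g ((i,j) ↦ u i * v j) = (i,j) ↦ (∑ g i k u k) * (∑ g j l v l)`.
-/

namespace Pool.HopfAL

open Finset Equiv Pool.HopfKP

/-- product of two vectors -/
private def r1 (u v : Vec) : Arr := fun i j => u i * v j

/-- the family applied to a vector -/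
private def mv (g : Fin 6 → Vec) (u : Vec) : Vec := fun i => ∑ a, g i a * u a

private theorem T3_r1 (U : Fin 6 → Vec) :
    T3 (r1 (U 0) (U 1)) (r1 (U 2) (U 3)) (r1 (U 4) (U 5)) =
      (Matrix.of fun i j => U j i).det := by
  rw [Matrix.det_apply]
  unfold T3 r1 sg
  refine Finset.sum_congr rfl fun σ _ => ?_
  rw [Fin.prod_univ_six, Units.smul_def, zsmul_eq_mul]
  simp only [Matrix.of_apply]
  ring

private theorem T3_mv (g : Fin 6 → Vec) (U : Fin 6 → Vec) :
    T3 (r1 (mv g (U 0)) (mv g (U 1))) (r1 (mv g (U 2)) (mv g (U 3)))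
      (r1 (mv g (U 4)) (mv g (U 5))) =
    (Matrix.of g).det * T3 (r1 (U 0) (U 1)) (r1 (U 2) (U 3)) (r1 (U 4) (U 5)) := by
  rw [T3_r1 U, T3_r1 fun i => mv g (U i), ← Matrix.det_mul]
  congr 1

private theorem P_sum_mid {ι : Type*} (s : Finset ι) (α γ : Arr) (β : ι → Arr) :
    T3 α (∑ i ∈ s, β i) γ = ∑ i ∈ s, T3 α (β i) γ := by
  rw [T3_comm23, T3_sum_right]
  exact Finset.sum_congr rfl fun i _ => T3_comm23 _ _ _

private theorem P_sum_left {ι : Type*} (s : Finset ι) (β γ : Arr) (α : ι → Arr) :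
    T3 (∑ i ∈ s, α i) β γ = ∑ i ∈ s, T3 (α i) β γ := by
  rw [T3_comm12, P_sum_mid]
  exact Finset.sum_congr rfl fun i _ => T3_comm12 _ _ _

private theorem P_smul_mid (c : ℝ) (α β γ : Arr) : T3 α (c • β) γ = c * T3 α β γ := by
  rw [T3_comm23, T3_smul_right, T3_comm23]

private theorem P_smul_left (c : ℝ) (α β γ : Arr) : T3 (c • α) β γ = c * T3 α β γ := by
  rw [T3_comm12, P_smul_mid, T3_comm12]

theorem pull_add (g : Fin 6 → Vec) (x y : Arr) : pull g (x + y) = pull g x + pull g y := by
  funext i j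
  simp only [pull, Pi.add_apply, ← Finset.sum_add_distrib]
  refine Finset.sum_congr rfl fun k _ => Finset.sum_congr rfl fun l _ => ?_
  ring

theorem pull_smul (g : Fin 6 → Vec) (c : ℝ) (x : Arr) : pull g (c • x) = c • pull g x := by
  funext i j
  simp only [pull, Pi.smul_apply, smul_eq_mul, Finset.mul_sum]
  refine Finset.sum_congr rfl fun k _ => Finset.sum_congr rfl fun l _ => ?_
  ring

/-- `pull g` as a linear map -/
private def pullL (g : Fin 6 → Vec) : Arr →ₗ[ℝ] Arr where
  toFun := pull g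
  map_add' := pull_add g
  map_smul' := pull_smul g

private theorem pull_sum {ι : Type*} (s : Finset ι) (g : Fin 6 → Vec) (F : ι → Arr) (c : ι → ℝ) :
    pull g (∑ p ∈ s, c p • F p) = ∑ p ∈ s, c p • pull g (F p) := by
  have h := map_sum (pullL g) (fun p => c p • F p) s
  simp only [map_smul] at h
  exact h

private def bs (a : Fin 6) : Vec := fun i => if i = a then 1 else 0

/-- elementary arrays -/
private def ea (p : Fin 6 × Fin 6) : Arr := r1 (bs p.1) (bs p.2)

private theorem arr_eq (x : Arr) : x = ∑ p : Fin 6 × Fin 6, x p.1 p.2 • ea p := by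
  funext i j
  simp only [Finset.sum_apply, Pi.smul_apply, smul_eq_mul]
  rw [Finset.sum_eq_single (i, j)]
  · simp [ea, r1, bs]
  · rintro ⟨a, b⟩ - hne
    simp only [ea, r1, bs]
    by_cases h1 : i = a
    · by_cases h2 : j = b
      · exact absurd (by rw [h1, h2]) hne
      · simp [h2]
    · simp [h1]
  · intro h
    exact absurd (Finset.mem_univ _) h

private theorem pull_r1 (g : Fin 6 → Vec) (u v : Vec) :
    pull g (r1 u v) = r1 (mv g u) (mv g v) := by
  funext i j
  unfold pull r1 mv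
  rw [Finset.sum_mul_sum]
  refine Finset.sum_congr rfl fun k _ => Finset.sum_congr rfl fun l _ => ?_
  ring

private theorem T3_ea (g : Fin 6 → Vec) (p q r : Fin 6 × Fin 6) :
    T3 (pull g (ea p)) (pull g (ea q)) (pull g (ea r)) =
      Matrix.det (Matrix.of g) * T3 (ea p) (ea q) (ea r) := by
  unfold ea
  rw [pull_r1, pull_r1, pull_r1]
  have h1 := T3_mv g ![bs p.1, bs p.2, bs q.1, bs q.2, bs r.1, bs r.2]
  simp only [Matrix.cons_val] at h1
  exact h1

theorem T3_pull (g : Fin 6 → Vec) (x y z : Arr) :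
    T3 (pull g x) (pull g y) (pull g z) = Matrix.det (Matrix.of g) * T3 x y z := by
  have s1 : ∀ p q : Fin 6 × Fin 6, T3 (pull g (ea p)) (pull g (ea q)) (pull g z) =
      Matrix.det (Matrix.of g) * T3 (ea p) (ea q) z := by
    intro p q
    rw [arr_eq z, pull_sum, T3_sum_right, T3_sum_right, Finset.mul_sum]
    refine Finset.sum_congr rfl fun r _ => ?_
    rw [T3_smul_right, T3_smul_right, T3_ea]
    ring
  have s2 : ∀ p : Fin 6 × Fin 6, T3 (pull g (ea p)) (pull g y) (pull g z) =
      Matrix.det (Matrix.of g) * T3 (ea p) y z := by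
    intro p
    rw [arr_eq y, pull_sum, P_sum_mid, P_sum_mid, Finset.mul_sum]
    refine Finset.sum_congr rfl fun r _ => ?_
    rw [P_smul_mid, P_smul_mid, s1]
    ring
  rw [arr_eq x, pull_sum, P_sum_left, P_sum_left, Finset.mul_sum]
  refine Finset.sum_congr rfl fun r _ => ?_
  rw [P_smul_left, P_smul_left, s2]
  ring

theorem sk_pull (g : Fin 6 → Vec) {x : Arr} (hx : Sk x) : Sk (pull g x) := by
  intro i j
  unfold pull
  rw [Finset.sum_comm, ← Finset.sum_neg_distrib]
  refine Finset.sum_congr rfl fun k _ => ?_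
  rw [← Finset.sum_neg_distrib]
  refine Finset.sum_congr rfl fun l _ => ?_
  rw [hx k l]
  ring

/-- `pull` as a product of matrices -/
theorem pull_eq (g : Fin 6 → Vec) (x : Arr) :
    Matrix.of (pull g x) = Matrix.of g * Matrix.of x * (Matrix.of g).transpose := by
  ext i j
  simp only [Matrix.mul_apply, Matrix.of_apply, Matrix.transpose_apply, pull, Finset.sum_mul]
  rw [Finset.sum_comm]
  refine Finset.sum_congr rfl fun k _ => Finset.sum_congr rfl fun l _ => ?_
  ring

theorem det_pull (g : Fin 6 → Vec) (x : Arr) :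
    Matrix.det (Matrix.of (pull g x)) = Matrix.det (Matrix.of g) ^ 2 * Matrix.det (Matrix.of x) := by
  rw [pull_eq, Matrix.det_mul, Matrix.det_mul, Matrix.det_transpose]
  ring

/-- for an invertible family there is an inverse family -/
theorem exists_pull_inv {g : Fin 6 → Vec} (hg : Matrix.det (Matrix.of g) ≠ 0) :
    ∃ h : Fin 6 → Vec, (∀ x, pull h (pull g x) = x) ∧ (∀ x, pull g (pull h x) = x) ∧
      Matrix.det (Matrix.of h) * Matrix.det (Matrix.of g) = 1 := by
  have hu : IsUnit (Matrix.det (Matrix.of g)) := isUnit_iff_ne_zero.2 hg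
  set A : Matrix (Fin 6) (Fin 6) ℝ := Matrix.of g with hA
  have key : ∀ (B C : Matrix (Fin 6) (Fin 6) ℝ), B * C = 1 → ∀ x : Arr,
      pull (Matrix.of.symm B) (pull (Matrix.of.symm C) x) = x := by
    intro B C hBC x
    apply Matrix.of.injective
    rw [pull_eq, pull_eq]
    simp only [Equiv.apply_symm_apply]
    have h2 : C.transpose * B.transpose = 1 := by
      rw [← Matrix.transpose_mul, hBC, Matrix.transpose_one]
    calc B * (C * Matrix.of x * C.transpose) * B.transpose
        = (B * C) * Matrix.of x * (C.transpose * B.transpose) := by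
          simp only [Matrix.mul_assoc]
      _ = Matrix.of x := by rw [hBC, h2, Matrix.one_mul, Matrix.mul_one]
  refine ⟨Matrix.of.symm A⁻¹, ?_, ?_, ?_⟩
  · exact key A⁻¹ A (Matrix.nonsing_inv_mul A hu)
  · exact key A A⁻¹ (Matrix.mul_nonsing_inv A hu)
  · rw [Equiv.apply_symm_apply, ← Matrix.det_mul, Matrix.nonsing_inv_mul A hu, Matrix.det_one]

end Pool.HopfAL
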