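import Pool.Agent.Lib.MP_4a593f_gt.AL.EvalC
import Pool.Agent.Lib.MP_4a593f_gt.AL.Pull
import Pool.Agent.Lib.MP_4a593f_gt.AL.NormForm

/-!
The quadratic form `x ↦ T3 y x x` on 2-forms is nonpositive on a subspace of dimension 7, and of
dimension 8 if `T3 y y y > 0`.

Proof.  By `exists_nf` choose `g` with `det g > 0` and `pull g y = nf a b c`; let `h` be the
inverse family (`exists_pull_inv`).  By `T3_pull`, `det g * T3 y x x = T3 (nf a b c) x' x'` for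
`x' = pull g x`, evaluated by `T3_nf`; so it is enough to treat `y = nf a b c` (compose with
`pull h`).  Choose signs `s₁, s₂, s₃ ∈ {1,-1}` with `s₁ a = |a|` etc.  Put, for parameters `t`,
`x₂₄ = s₁ t₀, x₃₅ = t₀, x₂₅ = - s₁ t₁, x₃₄ = t₁`; `x₀₄ = s₂ t₂, x₁₅ = t₂, x₀₅ = - s₂ t₃, x₁₄ = t₃`;
`x₀₂ = s₃ t₄, x₁₃ = t₄, x₀₃ = - s₃ t₅, x₁₂ = t₅`, and `x₀₁ = t₆, x₂₃ = x₄₅ = 0`; then
`T3 = -16 (|a| (t₀² + t₁²) + |b| (t₂² + t₃²) + |c| (t₄² + t₅²)) ≤ 0`.  If `T3 y y y > 0` then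
`a b c > 0` (`T3_nf3`), and instead `x₀₁ = a t₆, x₂₃ = b t₇, x₄₅ = - c (t₆ + t₇)`, which
contributes `-16 a b c (t₆² + t₆ t₇ + t₇²) ≤ 0`.
-/

namespace Pool.HopfAL

open Finset Equiv Pool.HopfKP

/-- the array with entries `x₀₁ = p, x₂₃ = q, x₄₅ = r` and the six pairs of the proof -/
private def mk (s₁ s₂ s₃ p q r : ℝ) (t : Fin 6 → ℝ) : Arr :=
  p • el 0 1 + q • el 2 3 + r • el 4 5 +
    t 0 • (s₁ • el 2 4 + el 3 5) + t 1 • (el 3 4 - s₁ • el 2 5) +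
    t 2 • (s₂ • el 0 4 + el 1 5) + t 3 • (el 1 4 - s₂ • el 0 5) +
    t 4 • (s₃ • el 0 2 + el 1 3) + t 5 • (el 1 2 - s₃ • el 0 3)

private theorem mk_add (s₁ s₂ s₃ p q r p' q' r' : ℝ) (t t' : Fin 6 → ℝ) :
    mk s₁ s₂ s₃ (p + p') (q + q') (r + r') (t + t') =
      mk s₁ s₂ s₃ p q r t + mk s₁ s₂ s₃ p' q' r' t' := by
  funext i j
  simp only [mk, Pi.add_apply, Pi.smul_apply, smul_eq_mul]
  ring

private theorem mk_smul (s₁ s₂ s₃ p q r : ℝ) (t : Fin 6 → ℝ) (c : ℝ) :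
    mk s₁ s₂ s₃ (c * p) (c * q) (c * r) (c • t) = c • mk s₁ s₂ s₃ p q r t := by
  funext i j
  simp only [mk, Pi.add_apply, Pi.smul_apply, smul_eq_mul]
  ring

private theorem mk_sk (s₁ s₂ s₃ p q r : ℝ) (t : Fin 6 → ℝ) : Sk (mk s₁ s₂ s₃ p q r t) := by
  intro i j
  simp only [mk, Pi.add_apply, Pi.sub_apply, Pi.smul_apply, smul_eq_mul, sk_el _ _ i j]
  ring

private theorem mk_T3 (a b c s₁ s₂ s₃ p q r : ℝ) (t : Fin 6 → ℝ) :
    T3 (nf a b c) (mk s₁ s₂ s₃ p q r t) (mk s₁ s₂ s₃ p q r t) =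
      16 * (a * q * r + b * p * r + c * p * q) -
      16 * (a * s₁ * (t 0 ^ 2 + t 1 ^ 2) + b * s₂ * (t 2 ^ 2 + t 3 ^ 2) +
        c * s₃ * (t 4 ^ 2 + t 5 ^ 2)) := by
  rw [T3_nf a b c (mk_sk _ _ _ _ _ _ _)]
  simp [mk, el]
  ring

private theorem mk_entries (s₁ s₂ s₃ p q r : ℝ) (t : Fin 6 → ℝ) :
    mk s₁ s₂ s₃ p q r t 0 1 = p ∧ mk s₁ s₂ s₃ p q r t 2 3 = q ∧
    mk s₁ s₂ s₃ p q r t 3 5 = t 0 ∧ mk s₁ s₂ s₃ p q r t 3 4 = t 1 ∧
    mk s₁ s₂ s₃ p q r t 1 5 = t 2 ∧ mk s₁ s₂ s₃ p q r t 1 4 = t 3 ∧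
    mk s₁ s₂ s₃ p q r t 1 3 = t 4 ∧ mk s₁ s₂ s₃ p q r t 1 2 = t 5 := by
  refine ⟨?_, ?_, ?_, ?_, ?_, ?_, ?_, ?_⟩ <;> simp [mk, el]

private theorem exists_sign (a : ℝ) : ∃ s : ℝ, 0 ≤ a * s := by
  rcases le_total 0 a with h | h
  · exact ⟨1, by linarith⟩
  · exact ⟨-1, by linarith⟩

/-- reduction to the normal form -/
private theorem reduce {n : ℕ} {g : Fin 6 → Vec} {y : Arr} {a b c : ℝ}
    (hg : 0 < Matrix.det (Matrix.of g)) (hy : pull g y = nf a b c)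
    (Φ : (Fin n → ℝ) →ₗ[ℝ] Arr) (hΦ : Function.Injective Φ) (hsk : ∀ t, Sk (Φ t))
    (hle : ∀ t, T3 (nf a b c) (Φ t) (Φ t) ≤ 0) :
    ∃ Ψ : (Fin n → ℝ) →ₗ[ℝ] Arr, Function.Injective Ψ ∧
    (∀ t, Sk (Ψ t)) ∧ ∀ t, T3 y (Ψ t) (Ψ t) ≤ 0 := by
  obtain ⟨h, -, hgh, -⟩ := exists_pull_inv hg.ne'
  refine ⟨{ toFun := fun t => pull h (Φ t)
            map_add' := fun t t' => by rw [map_add, pull_add]
            map_smul' := fun c t => by rw [map_smul, pull_smul, RingHom.id_apply] }, ?_, ?_, ?_⟩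
  · intro t t' htt
    have h1 : pull h (Φ t) = pull h (Φ t') := htt
    have h2 := congrArg (pull g) h1
    rw [hgh, hgh] at h2
    exact hΦ h2
  · intro t
    exact sk_pull h (hsk t)
  · intro t
    show T3 y (pull h (Φ t)) (pull h (Φ t)) ≤ 0
    have h1 := T3_pull g y (pull h (Φ t)) (pull h (Φ t))
    rw [hgh, hy] at h1
    have h2 := hle t
    rw [h1] at h2
    by_contra hn
    push Not at hn
    exact absurd h2 (not_le.2 (mul_pos hg hn))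

theorem index8 {y : Arr} (hy : Sk y) : ∃ Ψ : (Fin 7 → ℝ) →ₗ[ℝ] Arr, Function.Injective Ψ ∧
    (∀ t, Sk (Ψ t)) ∧ ∀ t, T3 y (Ψ t) (Ψ t) ≤ 0 := by
  obtain ⟨g, a, b, c, hg, hn⟩ := exists_nf hy
  obtain ⟨s₁, h1⟩ := exists_sign a
  obtain ⟨s₂, h2⟩ := exists_sign b
  obtain ⟨s₃, h3⟩ := exists_sign c
  refine reduce hg hn
    { toFun := fun t => mk s₁ s₂ s₃ (t 6) 0 0 (fun i => t i.castSucc)
      map_add' := fun t t' => by
        rw [← mk_add]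
        congr 1 <;> simp
      map_smul' := fun c t => by
        rw [RingHom.id_apply, ← mk_smul]
        congr 1 <;> simp } ?_ ?_ ?_
  · intro t t' htt
    have hh : mk s₁ s₂ s₃ (t 6) 0 0 (fun i => t i.castSucc) =
      mk s₁ s₂ s₃ (t' 6) 0 0 (fun i => t' i.castSucc) := htt
    obtain ⟨e1, -, e3, e4, e5, e6, e7, e8⟩ := mk_entries s₁ s₂ s₃ (t 6) 0 0 (fun i => t i.castSucc)
    obtain ⟨f1, -, f3, f4, f5, f6, f7, f8⟩ :=
      mk_entries s₁ s₂ s₃ (t' 6) 0 0 (fun i => t' i.castSucc)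
    rw [hh] at e1 e3 e4 e5 e6 e7 e8
    funext i
    fin_cases i
    · exact e3.symm.trans f3
    · exact e4.symm.trans f4
    · exact e5.symm.trans f5
    · exact e6.symm.trans f6
    · exact e7.symm.trans f7
    · exact e8.symm.trans f8
    · exact e1.symm.trans f1
  · intro t
    exact mk_sk s₁ s₂ s₃ (t 6) 0 0 (fun i => t i.castSucc)
  · intro t
    show T3 (nf a b c) (mk s₁ s₂ s₃ (t 6) 0 0 (fun i => t i.castSucc))
      (mk s₁ s₂ s₃ (t 6) 0 0 (fun i => t i.castSucc)) ≤ 0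
    rw [mk_T3]
    have k1 := mul_nonneg h1 (add_nonneg (sq_nonneg (t (Fin.castSucc 0)))
      (sq_nonneg (t (Fin.castSucc 1))))
    have k2 := mul_nonneg h2 (add_nonneg (sq_nonneg (t (Fin.castSucc 2)))
      (sq_nonneg (t (Fin.castSucc 3))))
    have k3 := mul_nonneg h3 (add_nonneg (sq_nonneg (t (Fin.castSucc 4)))
      (sq_nonneg (t (Fin.castSucc 5))))
    linarith

theorem index7 {y : Arr} (hy : Sk y) (hp : 0 < T3 y y y) :
    ∃ Ψ : (Fin 8 → ℝ) →ₗ[ℝ] Arr, Function.Injective Ψ ∧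
      (∀ t, Sk (Ψ t)) ∧ ∀ t, T3 y (Ψ t) (Ψ t) ≤ 0 := by
  obtain ⟨g, a, b, c, hg, hn⟩ := exists_nf hy
  have habc : 0 < a * b * c := by
    have h1 := T3_pull g y y y
    rw [hn, T3_nf3] at h1
    have h2 := mul_pos hg hp
    linarith
  have ha : a ≠ 0 := by
    rintro rfl
    simp at habc
  have hb : b ≠ 0 := by
    rintro rfl
    simp at habc
  obtain ⟨s₁, h1⟩ := exists_sign a
  obtain ⟨s₂, h2⟩ := exists_sign b
  obtain ⟨s₃, h3⟩ := exists_sign c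
  refine reduce hg hn
    { toFun := fun t => mk s₁ s₂ s₃ (a * t 6) (b * t 7) (-c * (t 6 + t 7))
        (fun i => t i.castSucc.castSucc)
      map_add' := fun t t' => by
        rw [← mk_add]
        congr 1 <;> simp only [Pi.add_apply] <;> ring
      map_smul' := fun c t => by
        rw [RingHom.id_apply, ← mk_smul]
        congr 1 <;> simp only [Pi.smul_apply, smul_eq_mul] <;> ring } ?_ ?_ ?_
  · intro t t' htt
    have hh : mk s₁ s₂ s₃ (a * t 6) (b * t 7) (-c * (t 6 + t 7))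
        (fun i => t i.castSucc.castSucc) =
      mk s₁ s₂ s₃ (a * t' 6) (b * t' 7) (-c * (t' 6 + t' 7))
        (fun i => t' i.castSucc.castSucc) := htt
    obtain ⟨e1, e2, e3, e4, e5, e6, e7, e8⟩ := mk_entries s₁ s₂ s₃ (a * t 6) (b * t 7)
      (-c * (t 6 + t 7)) (fun i => t i.castSucc.castSucc)
    obtain ⟨f1, f2, f3, f4, f5, f6, f7, f8⟩ := mk_entries s₁ s₂ s₃ (a * t' 6) (b * t' 7)
      (-c * (t' 6 + t' 7)) (fun i => t' i.castSucc.castSucc)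
    rw [hh] at e1 e2 e3 e4 e5 e6 e7 e8
    funext i
    fin_cases i
    · exact e3.symm.trans f3
    · exact e4.symm.trans f4
    · exact e5.symm.trans f5
    · exact e6.symm.trans f6
    · exact e7.symm.trans f7
    · exact e8.symm.trans f8
    · exact mul_left_cancel₀ ha (e1.symm.trans f1)
    · exact mul_left_cancel₀ hb (e2.symm.trans f2)
  · intro t
    exact mk_sk s₁ s₂ s₃ (a * t 6) (b * t 7) (-c * (t 6 + t 7)) (fun i => t i.castSucc.castSucc)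
  · intro t
    show T3 (nf a b c) (mk s₁ s₂ s₃ (a * t 6) (b * t 7) (-c * (t 6 + t 7))
        (fun i => t i.castSucc.castSucc))
      (mk s₁ s₂ s₃ (a * t 6) (b * t 7) (-c * (t 6 + t 7))
        (fun i => t i.castSucc.castSucc)) ≤ 0
    rw [mk_T3]
    have k1 := mul_nonneg h1 (add_nonneg (sq_nonneg (t (Fin.castSucc (Fin.castSucc 0))))
      (sq_nonneg (t (Fin.castSucc (Fin.castSucc 1)))))
    have k2 := mul_nonneg h2 (add_nonneg (sq_nonneg (t (Fin.castSucc (Fin.castSucc 2))))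
      (sq_nonneg (t (Fin.castSucc (Fin.castSucc 3)))))
    have k3 := mul_nonneg h3 (add_nonneg (sq_nonneg (t (Fin.castSucc (Fin.castSucc 4))))
      (sq_nonneg (t (Fin.castSucc (Fin.castSucc 5)))))
    have k4 : 0 ≤ t 6 ^ 2 + t 6 * t 7 + t 7 ^ 2 := by
      nlinarith [sq_nonneg (t 6 + t 7), sq_nonneg (t 6), sq_nonneg (t 7)]
    have k5 := mul_nonneg habc.le k4
    have k6 : a * (b * t 7) * (-c * (t 6 + t 7)) + b * (a * t 6) * (-c * (t 6 + t 7)) +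
        c * (a * t 6) * (b * t 7) = -(a * b * c * (t 6 ^ 2 + t 6 * t 7 + t 7 ^ 2)) := by
      ring
    rw [k6]
    linarith

end Pool.HopfAL
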