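import Pool.Agent.Lib.MP_4a593f_gt.AL.Reduce

/-!
The general case by a limit.

Proof.  Let `w_δ = w + δ J`, `R_δ = R + δ C cI` with a constant `C` such that
`bf (sq w_δ) β β < bf (sq w) β β + 2 δ C ∑ β²` for `0 < δ ≤ 1`, `β ≠ 0` (a crude bound), while
`bf cI β β = 2 ∑ β²` for skew `β`; so `strict` applies to `R_δ, w_δ` when `det w_δ ≠ 0`.
`det w_δ ≠ 0` for all but finitely many `δ` (up to a sign it is the characteristic polynomial
of `J * w` at `δ`, as `J * J = -1`).  Both sides are continuous in `δ`; let `δ → 0+`.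
-/

namespace Pool.HopfAL

open Finset Equiv Pool.HopfKP Filter Topology

private theorem det_nf (a b c : ℝ) : Matrix.det (Matrix.of (nf a b c)) = (a * b * c) ^ 2 := by
  unfold nf
  simp [Matrix.det_succ_row_zero, Fin.sum_univ_succ, Fin.succAbove]
  ring

private theorem det_J : Matrix.det (Matrix.of J) = 1 := by
  rw [J, det_nf]; norm_num

private theorem J_mul_J : Matrix.of J * Matrix.of J = -1 := by
  ext i j
  rw [Matrix.mul_apply, Fin.sum_univ_six]
  fin_cases i <;> fin_cases j <;> simp [J, nf]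

private theorem det_shift (w : Arr) (δ : ℝ) :
    Matrix.det (Matrix.of (w + δ • J)) = ((Matrix.of J * Matrix.of w).charpoly).eval δ := by
  rw [Matrix.eval_charpoly]
  have h : Matrix.of (w + δ • J) =
      Matrix.of J * (Matrix.scalar (Fin 6) δ - Matrix.of J * Matrix.of w) := by
    have h1 : Matrix.of J * Matrix.scalar (Fin 6) δ = δ • Matrix.of J := by
      rw [Matrix.scalar_apply]
      ext i j
      simp [Matrix.mul_diagonal, mul_comm]
    rw [mul_sub, ← mul_assoc, J_mul_J, h1, neg_one_mul, sub_neg_eq_add, add_comm]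
    rfl
  rw [h, Matrix.det_mul, det_J, one_mul]

private theorem eventually_det_ne (w : Arr) :
    ∀ᶠ δ : ℝ in 𝓝[>] 0, Matrix.det (Matrix.of (w + δ • J)) ≠ 0 := by
  have hp : (Matrix.of J * Matrix.of w).charpoly ≠ 0 := (Matrix.charpoly_monic _).ne_zero
  have hfin : ({δ : ℝ | ((Matrix.of J * Matrix.of w).charpoly).IsRoot δ} \ {0}).Finite :=
    (Polynomial.finite_setOfPred_isRoot hp).subset Set.sdiff_subset
  have h1 : ({δ : ℝ | ((Matrix.of J * Matrix.of w).charpoly).IsRoot δ} \ {0})ᶜ ∈ 𝓝 (0 : ℝ) :=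
    hfin.isClosed.isOpen_compl.mem_nhds (by simp)
  filter_upwards [mem_nhdsWithin_of_mem_nhds h1, self_mem_nhdsWithin] with δ hδ hpos
  rw [det_shift]
  intro hc
  exact hδ ⟨hc, fun h => (ne_of_gt hpos) h⟩

private theorem curv_add_cI {R : Ten} (hR : IsCurvature R) (c : ℝ) : IsCurvature (R + c • cI) := by
  have hc : ∀ a b : Fin 6, (if a = b then (1 : ℝ) else 0) = if b = a then 1 else 0 := by
    intro a b
    simp only [eq_comm]
  refine ⟨?_, ?_, ?_⟩
  · intro i j k l
    simp only [Pi.add_apply, Pi.smul_apply, smul_eq_mul, hR.skew12 i j k l, cI]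
    ring
  · intro i j k l
    simp only [Pi.add_apply, Pi.smul_apply, smul_eq_mul, hR.skew34 i j k l, cI]
    ring
  · intro i j k l
    have := hR.bianchi i j k l
    simp only [Pi.add_apply, Pi.smul_apply, smul_eq_mul, cI]
    rw [hc j i, hc k i, hc k j]
    linear_combination this

private theorem bf_add (U V : Ten) (x y : Arr) : bf (U + V) x y = bf U x y + bf V x y := by
  simp only [bf, ← Finset.sum_add_distrib, Pi.add_apply]
  refine Finset.sum_congr rfl fun i _ => Finset.sum_congr rfl fun j _ =>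
    Finset.sum_congr rfl fun k _ => Finset.sum_congr rfl fun l _ => ?_
  ring

private theorem bf_smul (c : ℝ) (U : Ten) (x y : Arr) : bf (c • U) x y = c * bf U x y := by
  simp only [bf, Finset.mul_sum, Pi.smul_apply, smul_eq_mul]
  refine Finset.sum_congr rfl fun i _ => Finset.sum_congr rfl fun j _ =>
    Finset.sum_congr rfl fun k _ => Finset.sum_congr rfl fun l _ => ?_
  ring

private theorem bf_sub (U V : Ten) (x y : Arr) : bf (U - V) x y = bf U x y - bf V x y := by
  have : U - V = U + (-1 : ℝ) • V := by rw [neg_one_smul, sub_eq_add_neg]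
  rw [this, bf_add, bf_smul]
  ring

/-- the sum of the squares -/
private def ss (β : Arr) : ℝ := ∑ i, ∑ j, β i j ^ 2

private theorem ss_pos {β : Arr} (h : β ≠ 0) : 0 < ss β := by
  have : ∃ i j, β i j ≠ 0 := by
    by_contra hc
    push Not at hc
    exact h (funext fun i => funext fun j => hc i j)
  obtain ⟨i, j, hij⟩ := this
  unfold ss
  refine Finset.sum_pos' (fun i _ => Finset.sum_nonneg fun j _ => sq_nonneg _)
    ⟨i, Finset.mem_univ _, Finset.sum_pos' (fun j _ => sq_nonneg _) ⟨j, Finset.mem_univ _, ?_⟩⟩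
  positivity

private theorem bf_cI {β : Arr} (h : Sk β) : bf cI β β = 2 * ss β := by
  have h1 : ∀ i j : Fin 6, ∑ k, ∑ l, cI i j k l * β i j * β k l = 2 * β i j ^ 2 := by
    intro i j
    have h2 : ∀ k l : Fin 6, cI i j k l * β i j * β k l =
        (if i = k then (if j = l then β i j * β k l else 0) else 0) -
          (if j = k then (if i = l then β i j * β k l else 0) else 0) := by
      intro k l
      unfold cI
      split_ifs <;> ring
    simp only [h2, Finset.sum_sub_distrib]
    simp [Finset.sum_ite_eq]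
    rw [h i j]
    ring
  unfold bf ss
  rw [Finset.mul_sum]
  refine Finset.sum_congr rfl fun i _ => ?_
  rw [Finset.mul_sum]
  exact Finset.sum_congr rfl fun j _ => h1 i j

private theorem bf_le {U : Ten} {M : ℝ} (hM : ∀ i j k l, |U i j k l| ≤ M) (β : Arr) :
    bf U β β ≤ 36 * M * ss β := by
  have h1 : ∀ i j k l : Fin 6, U i j k l * β i j * β k l ≤
      M / 2 * β i j ^ 2 + M / 2 * β k l ^ 2 := by
    intro i j k l
    have hM0 : 0 ≤ M := (abs_nonneg _).trans (hM i j k l)
    have h2 : U i j k l * β i j * β k l ≤ |U i j k l| * |β i j * β k l| := by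
      rw [mul_assoc, ← abs_mul]
      exact le_abs_self _
    have h3 : |β i j * β k l| ≤ (β i j ^ 2 + β k l ^ 2) / 2 := by
      rw [abs_le]
      constructor <;> nlinarith [sq_nonneg (β i j + β k l), sq_nonneg (β i j - β k l)]
    calc U i j k l * β i j * β k l ≤ |U i j k l| * |β i j * β k l| := h2
      _ ≤ M * ((β i j ^ 2 + β k l ^ 2) / 2) := mul_le_mul (hM i j k l) h3 (abs_nonneg _) hM0
      _ = _ := by ring
  have h4 : bf U β β ≤ ∑ i : Fin 6, ∑ j : Fin 6, ∑ k : Fin 6, ∑ l : Fin 6,
      (M / 2 * β i j ^ 2 + M / 2 * β k l ^ 2) := by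
    unfold bf
    exact Finset.sum_le_sum fun i _ => Finset.sum_le_sum fun j _ =>
      Finset.sum_le_sum fun k _ => Finset.sum_le_sum fun l _ => h1 i j k l
  refine h4.trans (le_of_eq ?_)
  unfold ss
  simp only [Finset.sum_add_distrib, Finset.sum_const, Finset.card_univ, Fintype.card_fin,
    ← Finset.mul_sum, nsmul_eq_mul]
  push_cast
  ring

private theorem absJ (i j : Fin 6) : |J i j| ≤ 1 := by
  fin_cases i <;> fin_cases j <;> simp [J, nf]

private theorem sq_diff {w : Arr} {N : ℝ} (hN : ∀ i j, |w i j| ≤ N) {δ : ℝ} (h0 : 0 < δ)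
    (h1 : δ ≤ 1) (i j k l : Fin 6) :
    |(sq (w + δ • J) - sq w) i j k l| ≤ δ * (4 * N + 2) := by
  have hN0 : 0 ≤ N := (abs_nonneg _).trans (hN 0 0)
  have m1 : ∀ a b c d : Fin 6, |J a b * w c d| ≤ N := by
    intro a b c d
    rw [abs_mul]
    calc |J a b| * |w c d| ≤ 1 * N := mul_le_mul (absJ a b) (hN c d) (abs_nonneg _) zero_le_one
      _ = N := one_mul N
  have m2 : ∀ a b c d : Fin 6, |J a b * J c d| ≤ 1 := by
    intro a b c d
    rw [abs_mul]
    calc |J a b| * |J c d| ≤ 1 * 1 :=
          mul_le_mul (absJ a b) (absJ c d) (abs_nonneg _) zero_le_one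
      _ = 1 := one_mul 1
  have e : (sq (w + δ • J) - sq w) i j k l =
      δ * (J i k * w j l + J j l * w i k - J i l * w j k - J j k * w i l +
        δ * (J i k * J j l - J i l * J j k)) := by
    simp only [sq, Pi.sub_apply, Pi.add_apply, Pi.smul_apply, smul_eq_mul]
    ring
  rw [e, abs_mul, abs_of_pos h0]
  refine mul_le_mul_of_nonneg_left ?_ h0.le
  have a1 := abs_le.1 (m1 i k j l)
  have a2 := abs_le.1 (m1 j l i k)
  have a3 := abs_le.1 (m1 i l j k)
  have a4 := abs_le.1 (m1 j k i l)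
  have b1 := abs_le.1 (m2 i k j l)
  have b2 := abs_le.1 (m2 i l j k)
  rw [abs_le]
  constructor <;> nlinarith [a1.1, a1.2, a2.1, a2.2, a3.1, a3.2, a4.1, a4.2, b1.1, b1.2, b2.1, b2.2]

private theorem exists_bound (w : Arr) : ∃ N : ℝ, ∀ i j, |w i j| ≤ N := by
  refine ⟨∑ i, ∑ j, |w i j|, fun i j => ?_⟩
  calc |w i j| ≤ ∑ j, |w i j| :=
        Finset.single_le_sum (f := fun j => |w i j|) (fun _ _ => abs_nonneg _) (Finset.mem_univ j)
    _ ≤ _ := Finset.single_le_sum (f := fun i => ∑ j, |w i j|)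
        (fun _ _ => Finset.sum_nonneg fun _ _ => abs_nonneg _) (Finset.mem_univ i)

theorem main {R : Ten} (hR : IsCurvature R) {w : Arr} (hw : Sk w)
    (hnn : ∀ β : Arr, Sk β → 0 ≤ bf (R - sq w) β β) :
    720 * Matrix.det (Matrix.of w) ≤ gb R := by
  obtain ⟨N, hN⟩ := exists_bound w
  obtain ⟨C, hC⟩ : ∃ C : ℝ, C = 18 * (4 * N + 2) + 1 := ⟨_, rfl⟩
  have hkey : ∀ᶠ δ : ℝ in 𝓝[>] 0,
      720 * Matrix.det (Matrix.of (w + δ • J)) ≤ gb (R + (δ * C) • cI) := by
    have h1 : ∀ᶠ δ : ℝ in 𝓝[>] 0, δ ≤ 1 :=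
      mem_nhdsWithin_of_mem_nhds (Iic_mem_nhds zero_lt_one)
    filter_upwards [eventually_det_ne w, self_mem_nhdsWithin, h1] with δ hd hpos hle
    have hpos : 0 < δ := hpos
    refine strict (curv_add_cI hR _) ?_ hd fun β hβ hne => ?_
    · intro i j
      simp only [Pi.add_apply, Pi.smul_apply, smul_eq_mul, hw i j, sk_J i j]
      ring
    · have e : R + (δ * C) • cI - sq (w + δ • J) =
          (R - sq w) + (δ * C) • cI - (sq (w + δ • J) - sq w) := by
        abel
      rw [e, bf_sub, bf_add, bf_smul, bf_cI hβ]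
      have h2 := bf_le (sq_diff hN hpos hle) β
      have h3 := hnn β hβ
      have h4 := ss_pos hne
      have h5 : 0 < δ * ss β := mul_pos hpos h4
      rw [hC]
      nlinarith
  have c1 : Tendsto (fun δ : ℝ => 720 * Matrix.det (Matrix.of (w + δ • J))) (𝓝[>] 0)
      (𝓝 (720 * Matrix.det (Matrix.of w))) := by
    have hc : Continuous fun δ : ℝ => 720 * Matrix.det (Matrix.of (w + δ • J)) := by
      refine continuous_const.mul (Continuous.matrix_det ?_)
      refine continuous_matrix fun i j => ?_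
      simp only [Matrix.of_apply, Pi.add_apply, Pi.smul_apply, smul_eq_mul]
      fun_prop
    have := hc.tendsto 0
    simp only [zero_smul, add_zero] at this
    exact this.mono_left nhdsWithin_le_nhds
  have c2 : Tendsto (fun δ : ℝ => gb (R + (δ * C) • cI)) (𝓝[>] 0) (𝓝 (gb R)) := by
    have hc : Continuous fun δ : ℝ => gb (R + (δ * C) • cI) := by
      unfold gb
      refine continuous_finsetSum _ fun σ _ => continuous_finsetSum _ fun τ _ => ?_
      simp only [Pi.add_apply, Pi.smul_apply, smul_eq_mul]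
      fun_prop
    have := hc.tendsto 0
    simp only [zero_mul, zero_smul, add_zero] at this
    exact this.mono_left nhdsWithin_le_nhds
  exact le_of_tendsto_of_tendsto c1 c2 hkey

theorem det_nonneg {w : Arr} (hw : Sk w) : 0 ≤ Matrix.det (Matrix.of w) := by
  obtain ⟨g, a, b, c, hg, h⟩ := exists_nf hw
  have h1 := det_pull g w
  rw [h, det_nf] at h1
  have h2 : 0 < Matrix.det (Matrix.of g) ^ 2 := by positivity
  by_contra hc
  push Not at hc
  have := mul_neg_of_pos_of_neg h2 hc
  rw [← h1] at this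
  exact absurd this (not_lt.2 (sq_nonneg _))

end Pool.HopfAL
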