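import Pool.Agent.Lib.MP_4a593f_gt.AL.ShiftA

/-!
Quadratic and cubic terms in `Om`.  By `Om_eq` and `gb3_tens` both are explicit sums of products of
values of `T3` on elementary 2-forms (each is `0` or `±8`).
-/

namespace Pool.HopfAL

open Finset Equiv Pool.HopfKP

private theorem Qp_comm (b c : Arr) : Qp b c = Qp c b := by unfold Qp; ring

private theorem gb3_sp_Om (x y y' : Arr) :
    gb3 (tens x x) (sp y y') Om = 2 * Qp (dl x y) (dl x y') := by
  unfold sp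
  rw [gb3_add_mid, gb3_tens_Om, gb3_tens_Om, Qp_comm (dl x y') (dl x y)]
  ring

private theorem gb3_sub_mid (R S S' U : Ten) : gb3 R (S - S') U = gb3 R S U - gb3 R S' U := by
  have h : S - S' = S + (-1 : ℝ) • S' := by rw [sub_eq_add_neg, neg_one_smul]
  rw [h, gb3_add_mid, gb3_smul_mid]
  ring

private theorem gb3_sub_left (R R' S U : Ten) : gb3 (R - R') S U = gb3 R S U - gb3 R' S U := by
  rw [gb3_comm12, gb3_sub_mid, gb3_comm12 S, gb3_comm12 S]

section els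

variable {x z : Arr}

private theorem e01 (hx : Sk x) (hz : Sk z) : T3 x (el 0 1) z = 8 * pf4 x z 2 3 4 5 := by
  rw [T3_comm23, T3_eval hx hz (sk_el 0 1)]; simp [el]
private theorem e02 (hx : Sk x) (hz : Sk z) : T3 x (el 0 2) z = -(8 * pf4 x z 1 3 4 5) := by
  rw [T3_comm23, T3_eval hx hz (sk_el 0 2)]; simp [el]
private theorem e03 (hx : Sk x) (hz : Sk z) : T3 x (el 0 3) z = 8 * pf4 x z 1 2 4 5 := by
  rw [T3_comm23, T3_eval hx hz (sk_el 0 3)]; simp [el]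
private theorem e04 (hx : Sk x) (hz : Sk z) : T3 x (el 0 4) z = -(8 * pf4 x z 1 2 3 5) := by
  rw [T3_comm23, T3_eval hx hz (sk_el 0 4)]; simp [el]
private theorem e05 (hx : Sk x) (hz : Sk z) : T3 x (el 0 5) z = 8 * pf4 x z 1 2 3 4 := by
  rw [T3_comm23, T3_eval hx hz (sk_el 0 5)]; simp [el]
private theorem e12 (hx : Sk x) (hz : Sk z) : T3 x (el 1 2) z = 8 * pf4 x z 0 3 4 5 := by
  rw [T3_comm23, T3_eval hx hz (sk_el 1 2)]; simp [el]
private theorem e13 (hx : Sk x) (hz : Sk z) : T3 x (el 1 3) z = -(8 * pf4 x z 0 2 4 5) := by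
  rw [T3_comm23, T3_eval hx hz (sk_el 1 3)]; simp [el]
private theorem e14 (hx : Sk x) (hz : Sk z) : T3 x (el 1 4) z = 8 * pf4 x z 0 2 3 5 := by
  rw [T3_comm23, T3_eval hx hz (sk_el 1 4)]; simp [el]
private theorem e15 (hx : Sk x) (hz : Sk z) : T3 x (el 1 5) z = -(8 * pf4 x z 0 2 3 4) := by
  rw [T3_comm23, T3_eval hx hz (sk_el 1 5)]; simp [el]
private theorem e23 (hx : Sk x) (hz : Sk z) : T3 x (el 2 3) z = 8 * pf4 x z 0 1 4 5 := by
  rw [T3_comm23, T3_eval hx hz (sk_el 2 3)]; simp [el]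
private theorem e24 (hx : Sk x) (hz : Sk z) : T3 x (el 2 4) z = -(8 * pf4 x z 0 1 3 5) := by
  rw [T3_comm23, T3_eval hx hz (sk_el 2 4)]; simp [el]
private theorem e25 (hx : Sk x) (hz : Sk z) : T3 x (el 2 5) z = 8 * pf4 x z 0 1 3 4 := by
  rw [T3_comm23, T3_eval hx hz (sk_el 2 5)]; simp [el]
private theorem e34 (hx : Sk x) (hz : Sk z) : T3 x (el 3 4) z = 8 * pf4 x z 0 1 2 5 := by
  rw [T3_comm23, T3_eval hx hz (sk_el 3 4)]; simp [el]
private theorem e35 (hx : Sk x) (hz : Sk z) : T3 x (el 3 5) z = -(8 * pf4 x z 0 1 2 4) := by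
  rw [T3_comm23, T3_eval hx hz (sk_el 3 5)]; simp [el]
private theorem e45 (hx : Sk x) (hz : Sk z) : T3 x (el 4 5) z = 8 * pf4 x z 0 1 2 3 := by
  rw [T3_comm23, T3_eval hx hz (sk_el 4 5)]; simp [el]

end els

theorem gb3_x_Om_Om {x : Arr} (hx : Sk x) :
    gb3 (tens x x) Om Om = 384 * tJ x ^ 2 - 32 * T3 x x J := by
  have h1 : gb3 (tens x x) Om Om = gb3 (tens x x) (sp (el 0 1) (el 2 3) - sp (el 0 2) (el 1 3)
    + sp (el 0 3) (el 1 2)
    + sp (el 0 1) (el 4 5) - sp (el 0 4) (el 1 5) + sp (el 0 5) (el 1 4)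
    + sp (el 2 3) (el 4 5) - sp (el 2 4) (el 3 5) + sp (el 2 5) (el 3 4)) Om :=
    congrArg (fun S => gb3 (tens x x) S Om) Om_eq
  rw [h1, T3_eval hx hx sk_J]
  simp only [gb3_add_mid, gb3_sub_mid, gb3_sp_Om]
  simp only [Qp, dl]
  simp only [e01 hx (sk_el _ _), e02 hx (sk_el _ _), e03 hx (sk_el _ _), e04 hx (sk_el _ _),
    e05 hx (sk_el _ _), e12 hx (sk_el _ _), e13 hx (sk_el _ _), e14 hx (sk_el _ _),
    e15 hx (sk_el _ _), e23 hx (sk_el _ _), e24 hx (sk_el _ _), e25 hx (sk_el _ _),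
    e34 hx (sk_el _ _), e35 hx (sk_el _ _), e45 hx (sk_el _ _)]
  simp [pf4, el, J, nf, tJ]
  ring

private theorem gb3_sp_Om_Om {x y : Arr} (hx : Sk x) (hy : Sk y) :
    gb3 (sp x y) Om Om = 768 * (tJ x * tJ y) - 64 * T3 x y J := by
  have hxy : Sk (x + y) := by
    intro i j
    simp only [Pi.add_apply, hx i j, hy i j]; ring
  have h1 : tens (x + y) (x + y) = tens x x + sp x y + tens y y := by
    funext i j k l
    simp only [tens, sp, Pi.add_apply]; ring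
  have h2 := gb3_x_Om_Om hxy
  rw [h1, gb3_add_left, gb3_add_left, gb3_x_Om_Om hx, gb3_x_Om_Om hy] at h2
  have h3 : T3 (x + y) (x + y) J = T3 x x J + 2 * T3 x y J + T3 y y J := by
    rw [T3_eval hxy hxy sk_J, T3_eval hx hx sk_J, T3_eval hx hy sk_J, T3_eval hy hy sk_J]
    simp only [pf4, Pi.add_apply]
    ring
  have h4 : tJ (x + y) = tJ x + tJ y := by
    simp only [tJ, Pi.add_apply]; ring
  rw [h3, h4] at h2
  linarith

theorem gb_Om : gb Om = -2304 := by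
  have h1 : gb Om = gb3 (sp (el 0 1) (el 2 3) - sp (el 0 2) (el 1 3)
    + sp (el 0 3) (el 1 2)
    + sp (el 0 1) (el 4 5) - sp (el 0 4) (el 1 5) + sp (el 0 5) (el 1 4)
    + sp (el 2 3) (el 4 5) - sp (el 2 4) (el 3 5) + sp (el 2 5) (el 3 4)) Om Om := by
    rw [gb_eq]
    exact congrArg (fun S => gb3 S Om Om) Om_eq
  rw [h1]
  simp only [gb3_add_left, gb3_sub_left, gb3_sp_Om_Om (sk_el _ _) (sk_el _ _)]
  simp only [T3_eval (sk_el _ _) (sk_el _ _) sk_J]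
  simp [pf4, el, J, nf, tJ]
  norm_num

end Pool.HopfAL
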