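import Pool.Agent.Lib.MP_4a593f_gt.AL.ShiftA
import Pool.Agent.Lib.MP_4a593f_gt.AL.ShiftB

/-!
The integrand of `G - Om` for `G = ∑ ρ_a ⊗ ρ_a` satisfying the trace condition.

Proof.  `gb (G - Om) = gb G - 3 gb3 G G Om + 3 gb3 G Om Om - gb Om` (`gb_add`, with `(-1) • Om`).
Sum the identity `key` over `x = ρ a`, `y = ρ b`: with `hb` applied to `z = ρ a` and to
`z = el i j` (`∑ dl (ρ a) (ρ a) = 3 dl J J`, `Qp` is bilinear, `dl J J` is `16` on the pairs 01, 23,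
45 and `0` on the others above the diagonal by `T3_JJ`), `4 gb3 G G Om + 2 * 9 * Qp (dl J J) (dl J J)
= 64 ∑ tJ (ρ a) * 3 * 16 * tJ (ρ a)`, i.e. `gb3 G G Om = 768 ∑ tJ² - 6912`; `gb3 G Om Om =
384 ∑ tJ² - 32 * 3 * T3 J J J = 384 ∑ tJ² - 4608`.
-/

namespace Pool.HopfAL

open Finset Equiv Pool.HopfKP

private theorem gb_sub' (R S : Ten) :
    gb (R - S) = gb R - 3 * gb3 R R S + 3 * gb3 R S S - gb S := by
  have h : R - S = R + (-1 : ℝ) • S := by simp [sub_eq_add_neg]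
  rw [h, gb_add, gb3_diag_smul, gb3_smul_right, gb3_smul_mid, gb3_smul_right]
  ring

private theorem Qp_sum_left {ι : Type} (s : Finset ι) (f : ι → Arr) (c : Arr) :
    Qp (fun i j => ∑ a ∈ s, f a i j) c = ∑ a ∈ s, Qp (f a) c := by
  classical
  induction s using Finset.induction_on with
  | empty => simp [Qp]
  | insert a s ha ih =>
    rw [Finset.sum_insert ha, ← ih]
    simp only [Finset.sum_insert ha]
    unfold Qp
    ring

private theorem Qp_comm (b c : Arr) : Qp b c = Qp c b := by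
  unfold Qp
  ring

private theorem Qp_sum_right {ι : Type} (s : Finset ι) (f : ι → Arr) (c : Arr) :
    Qp c (fun i j => ∑ a ∈ s, f a i j) = ∑ a ∈ s, Qp c (f a) := by
  rw [Qp_comm, Qp_sum_left]
  exact Finset.sum_congr rfl fun a _ => Qp_comm _ _

private theorem tJ_el (k l : Fin 6) : tJ (el k l) =
    ((if k = 0 ∧ l = 1 then 1 else 0) - (if k = 1 ∧ l = 0 then 1 else 0))
    + ((if k = 2 ∧ l = 3 then 1 else 0) - (if k = 3 ∧ l = 2 then 1 else 0))
    + ((if k = 4 ∧ l = 5 then 1 else 0) - (if k = 5 ∧ l = 4 then 1 else 0)) := by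
  fin_cases k <;> fin_cases l <;> simp [tJ, el]

private theorem Qp_t : Qp (fun i j => 48 * tJ (el i j)) (fun i j => 48 * tJ (el i j)) = 13824 := by
  simp only [Qp, tJ_el]
  simp
  norm_num

private theorem T3_sym (x y : Arr) : T3 x y y = T3 y y x := by
  rw [T3_comm12, T3_comm23]

theorem gb_shift {ι : Type} [Fintype ι] (ρ : ι → Arr) (hs : ∀ a, Sk (ρ a))
    (hb : ∀ z, Sk z → ∑ a, T3 (ρ a) (ρ a) z = 3 * T3 J J z) :
    gb (∑ a, tens (ρ a) (ρ a) - Om) =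
      ∑ a, ∑ b, ∑ c, T3 (ρ a) (ρ b) (ρ c) ^ 2 - 1152 * ∑ a, tJ (ρ a) ^ 2 + 9216 := by
  have hb' : ∀ z, Sk z → ∑ a, T3 (ρ a) (ρ a) z = 48 * tJ z := by
    intro z hz
    rw [hb z hz, T3_JJ hz]
    ring
  set G : Ten := ∑ a, tens (ρ a) (ρ a) with hG
  have e1 : gb G = ∑ a, ∑ b, ∑ c, T3 (ρ a) (ρ b) (ρ c) ^ 2 := by
    rw [gb_eq, hG, gb3_sum_left]
    refine Finset.sum_congr rfl fun a _ => ?_
    rw [gb3_sum_mid]
    refine Finset.sum_congr rfl fun b _ => ?_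
    rw [gb3_sum_right]
    refine Finset.sum_congr rfl fun c _ => ?_
    rw [gb3_tens, pow_two]
  have e2 : gb3 G G Om = ∑ a, ∑ b, Qp (dl (ρ a) (ρ b)) (dl (ρ a) (ρ b)) := by
    rw [hG, gb3_sum_left]
    refine Finset.sum_congr rfl fun a _ => ?_
    rw [gb3_sum_mid]
    refine Finset.sum_congr rfl fun b _ => ?_
    rw [gb3_tens_Om]
  have e3 : ∑ a, ∑ b, Qp (dl (ρ a) (ρ a)) (dl (ρ b) (ρ b)) = 13824 := by
    have h1 : ∀ a, ∑ b, Qp (dl (ρ a) (ρ a)) (dl (ρ b) (ρ b)) =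
        Qp (dl (ρ a) (ρ a)) (fun i j => 48 * tJ (el i j)) := by
      intro a
      rw [← Qp_sum_right]
      congr 1
      funext i j
      exact hb' _ (sk_el i j)
    simp only [h1]
    rw [← Qp_sum_left]
    have h2 : (fun i j => ∑ a, dl (ρ a) (ρ a) i j) = (fun i j => 48 * tJ (el i j)) := by
      funext i j
      exact hb' _ (sk_el i j)
    rw [h2]
    exact Qp_t
  have e4 : ∑ a, ∑ b, 32 * (T3 (ρ a) (ρ b) (ρ b) * tJ (ρ a) + T3 (ρ a) (ρ a) (ρ b) * tJ (ρ b)) =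
      3072 * ∑ a, tJ (ρ a) ^ 2 := by
    have h1 : ∑ a, ∑ b, T3 (ρ a) (ρ b) (ρ b) * tJ (ρ a) = 48 * ∑ a, tJ (ρ a) ^ 2 := by
      rw [Finset.mul_sum]
      refine Finset.sum_congr rfl fun a _ => ?_
      rw [← Finset.sum_mul]
      have : ∑ b, T3 (ρ a) (ρ b) (ρ b) = 48 * tJ (ρ a) := by
        rw [← hb' _ (hs a)]
        exact Finset.sum_congr rfl fun b _ => T3_sym _ _
      rw [this]
      ring
    have h2 : ∑ a, ∑ b, T3 (ρ a) (ρ a) (ρ b) * tJ (ρ b) = 48 * ∑ a, tJ (ρ a) ^ 2 := by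
      rw [Finset.sum_comm, Finset.mul_sum]
      refine Finset.sum_congr rfl fun b _ => ?_
      rw [← Finset.sum_mul, hb' _ (hs b)]
      ring
    simp only [← Finset.mul_sum, Finset.sum_add_distrib]
    rw [h1, h2]
    ring
  have e5 : 4 * gb3 G G Om + 2 * 13824 = 3072 * ∑ a, tJ (ρ a) ^ 2 := by
    rw [← e4, e2, ← e3, Finset.mul_sum, Finset.mul_sum, ← Finset.sum_add_distrib]
    refine Finset.sum_congr rfl fun a _ => ?_
    rw [Finset.mul_sum, Finset.mul_sum, ← Finset.sum_add_distrib]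
    refine Finset.sum_congr rfl fun b _ => ?_
    exact key (hs a) (hs b)
  have e6 : gb3 G Om Om = 384 * ∑ a, tJ (ρ a) ^ 2 - 4608 := by
    rw [hG, gb3_sum_left]
    have h1 : ∀ a, gb3 (tens (ρ a) (ρ a)) Om Om =
        384 * tJ (ρ a) ^ 2 - 32 * T3 (ρ a) (ρ a) J := fun a => gb3_x_Om_Om (hs a)
    simp only [h1]
    rw [Finset.sum_sub_distrib, ← Finset.mul_sum, ← Finset.mul_sum, hb J sk_J, T3_J3]
    ring
  rw [gb_sub', e1, e6, gb_Om]
  linarith
end Pool.HopfAL
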