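import Pool.Agent.Lib.MP_4a593f_gt.AL.Defs

/-!
The Bianchi identity as a trace condition.

Proof.  For a four-index array `U` put `c4 U z = ∑_σ sgn σ U (σ0) (σ1) (σ2) (σ3) z (σ4) (σ5)`.
It is linear in `U`; `c4 (tens x x) z = T3 x x z`; `c4 R z = 0` by the Bianchi identity (reindex
the sum by the 3-cycle `0 → 1 → 2 → 0`, an even permutation, and add the three copies);
`c4 Om z = 3 * T3 J J z` (reindex by a transposition, resp. a 3-cycle).
-/

namespace Pool.HopfAL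

open Finset Equiv Pool.HopfKP

/-- contraction of a four-index array and a two-index array with the volume form -/
private def Trace_c4 (U : Ten) (z : Arr) : ℝ :=
  ∑ σ : Perm (Fin 6), sg σ * (U (σ 0) (σ 1) (σ 2) (σ 3) * z (σ 4) (σ 5))

private theorem Trace_re (π : Perm (Fin 6)) (F : Perm (Fin 6) → ℝ) :
    ∑ σ, F (σ * π) = ∑ σ, F σ :=
  Fintype.sum_equiv (Equiv.mulRight π) _ _ (fun _ => rfl)

private theorem Trace_c4_add (U V : Ten) (z : Arr) :
    Trace_c4 (U + V) z = Trace_c4 U z + Trace_c4 V z := by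
  unfold Trace_c4
  rw [← Finset.sum_add_distrib]
  refine Finset.sum_congr rfl fun σ _ => ?_
  simp only [Pi.add_apply]
  ring

private theorem Trace_c4_tens {ι : Type} [Fintype ι] (ρ : ι → Arr) (z : Arr) :
    Trace_c4 (∑ a, tens (ρ a) (ρ a)) z = ∑ a, T3 (ρ a) (ρ a) z := by
  unfold Trace_c4 T3 tens
  rw [Finset.sum_comm]
  refine Finset.sum_congr rfl fun σ _ => ?_
  simp only [Finset.sum_apply, Finset.sum_mul, Finset.mul_sum]

/-- the 3-cycle `0 → 1 → 2 → 0` -/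
private def Trace_p : Perm (Fin 6) := swap 0 1 * swap 1 2

/-- the 3-cycle `1 → 2 → 3 → 1` -/
private def Trace_q : Perm (Fin 6) := swap 1 2 * swap 2 3

private theorem Trace_sg_p : sg Trace_p = 1 := by
  have : Perm.sign Trace_p = 1 := by decide
  unfold sg; rw [this]; simp

private theorem Trace_sg_q : sg Trace_q = 1 := by
  have : Perm.sign Trace_q = 1 := by decide
  unfold sg; rw [this]; simp

private theorem Trace_sg_s : sg (swap (1 : Fin 6) 2) = -1 := by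
  have : Perm.sign (swap (1 : Fin 6) 2) = -1 := by decide
  unfold sg; rw [this]; simp

private theorem Trace_c4_R {R : Ten} (hR : IsCurvature R) (z : Arr) : Trace_c4 R z = 0 := by
  have h0 : Trace_p 0 = 1 := by decide
  have h1 : Trace_p 1 = 2 := by decide
  have h2 : Trace_p 2 = 0 := by decide
  have h3 : Trace_p 3 = 3 := by decide
  have h4 : Trace_p 4 = 4 := by decide
  have h5 : Trace_p 5 = 5 := by decide
  have e1 : ∑ σ : Perm (Fin 6), sg σ * (R (σ 1) (σ 2) (σ 0) (σ 3) * z (σ 4) (σ 5)) =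
      Trace_c4 R z := by
    unfold Trace_c4
    rw [← Trace_re Trace_p
      (fun σ : Perm (Fin 6) => sg σ * (R (σ 0) (σ 1) (σ 2) (σ 3) * z (σ 4) (σ 5)))]
    refine Finset.sum_congr rfl fun σ _ => ?_
    simp only [sg_mul, Trace_sg_p, Perm.mul_apply, h0, h1, h2, h3, h4, h5, mul_one]
  have e2 : ∑ σ : Perm (Fin 6), sg σ * (R (σ 2) (σ 0) (σ 1) (σ 3) * z (σ 4) (σ 5)) =
      Trace_c4 R z := by
    rw [← e1, ← Trace_re Trace_p
      (fun σ : Perm (Fin 6) => sg σ * (R (σ 1) (σ 2) (σ 0) (σ 3) * z (σ 4) (σ 5)))]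
    refine Finset.sum_congr rfl fun σ _ => ?_
    simp only [sg_mul, Trace_sg_p, Perm.mul_apply, h0, h1, h2, h3, h4, h5, mul_one]
  have e3 : Trace_c4 R z +
      ∑ σ : Perm (Fin 6), sg σ * (R (σ 1) (σ 2) (σ 0) (σ 3) * z (σ 4) (σ 5)) +
      ∑ σ : Perm (Fin 6), sg σ * (R (σ 2) (σ 0) (σ 1) (σ 3) * z (σ 4) (σ 5)) = 0 := by
    unfold Trace_c4
    rw [← Finset.sum_add_distrib, ← Finset.sum_add_distrib]
    refine Finset.sum_eq_zero fun σ _ => ?_
    have hb := hR.bianchi (σ 0) (σ 1) (σ 2) (σ 3)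
    have : sg σ * (R (σ 0) (σ 1) (σ 2) (σ 3) * z (σ 4) (σ 5)) +
        sg σ * (R (σ 1) (σ 2) (σ 0) (σ 3) * z (σ 4) (σ 5)) +
        sg σ * (R (σ 2) (σ 0) (σ 1) (σ 3) * z (σ 4) (σ 5)) =
        sg σ * z (σ 4) (σ 5) * (R (σ 0) (σ 1) (σ 2) (σ 3) + R (σ 1) (σ 2) (σ 0) (σ 3) +
          R (σ 2) (σ 0) (σ 1) (σ 3)) := by ring
    rw [this, hb, mul_zero]
  rw [e1, e2] at e3
  linarith

private theorem Trace_c4_Om (z : Arr) : Trace_c4 Om z = 3 * T3 J J z := by
  have e0 : Trace_c4 Om z =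
      T3 J J z - ∑ σ : Perm (Fin 6), sg σ * (J (σ 0) (σ 2) * J (σ 1) (σ 3) * z (σ 4) (σ 5)) +
      ∑ σ : Perm (Fin 6), sg σ * (J (σ 0) (σ 3) * J (σ 1) (σ 2) * z (σ 4) (σ 5)) := by
    unfold Trace_c4 Om T3
    rw [← Finset.sum_sub_distrib, ← Finset.sum_add_distrib]
    refine Finset.sum_congr rfl fun σ _ => ?_
    ring
  have e1 : ∑ σ : Perm (Fin 6), sg σ * (J (σ 0) (σ 2) * J (σ 1) (σ 3) * z (σ 4) (σ 5)) =
      -T3 J J z := by
    have h0 : swap (1 : Fin 6) 2 0 = 0 := by decide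
    have h1 : swap (1 : Fin 6) 2 1 = 2 := by decide
    have h2 : swap (1 : Fin 6) 2 2 = 1 := by decide
    have h3 : swap (1 : Fin 6) 2 3 = 3 := by decide
    have h4 : swap (1 : Fin 6) 2 4 = 4 := by decide
    have h5 : swap (1 : Fin 6) 2 5 = 5 := by decide
    unfold T3
    rw [← Trace_re (swap (1 : Fin 6) 2)
      (fun σ : Perm (Fin 6) => sg σ * (J (σ 0) (σ 1) * J (σ 2) (σ 3) * z (σ 4) (σ 5))),
      ← Finset.sum_neg_distrib]
    refine Finset.sum_congr rfl fun σ _ => ?_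
    simp only [sg_mul, Trace_sg_s, Perm.mul_apply, h0, h1, h2, h3, h4, h5]
    ring
  have e2 : ∑ σ : Perm (Fin 6), sg σ * (J (σ 0) (σ 3) * J (σ 1) (σ 2) * z (σ 4) (σ 5)) =
      T3 J J z := by
    have h0 : Trace_q 0 = 0 := by decide
    have h1 : Trace_q 1 = 2 := by decide
    have h2 : Trace_q 2 = 3 := by decide
    have h3 : Trace_q 3 = 1 := by decide
    have h4 : Trace_q 4 = 4 := by decide
    have h5 : Trace_q 5 = 5 := by decide
    rw [← Trace_re Trace_q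
      (fun σ : Perm (Fin 6) => sg σ * (J (σ 0) (σ 3) * J (σ 1) (σ 2) * z (σ 4) (σ 5)))]
    unfold T3
    refine Finset.sum_congr rfl fun σ _ => ?_
    simp only [sg_mul, Trace_sg_q, Perm.mul_apply, h0, h1, h2, h3, h4, h5, mul_one]
  rw [e0, e1, e2]
  ring

theorem trace_cond {R : Ten} (hR : IsCurvature R) {ι : Type} [Fintype ι] (ρ : ι → Arr)
    (h : R + Om = ∑ a, tens (ρ a) (ρ a)) (z : Arr) :
    ∑ a, T3 (ρ a) (ρ a) z = 3 * T3 J J z := by
  rw [← Trace_c4_tens, ← h, Trace_c4_add, Trace_c4_R hR, Trace_c4_Om, zero_add]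

end Pool.HopfAL
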