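import Pool.Agent.Lib.MP_4a593f_gt.AL.Abstract
import Pool.Agent.Lib.MP_4a593f_gt.AL.Chol
import Pool.Agent.Lib.MP_4a593f_gt.AL.Count
import Pool.Agent.Lib.MP_4a593f_gt.AL.Index
import Pool.Agent.Lib.MP_4a593f_gt.AL.Shift
import Pool.Agent.Lib.MP_4a593f_gt.AL.Trace

/-!
The theorem for `w = J` and strict positivity.
-/

namespace Pool.HopfAL

open Finset Equiv Pool.HopfKP

private theorem bf_add (U V : Ten) (x y : Arr) : bf (U + V) x y = bf U x y + bf V x y := by
  unfold bf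
  simp only [← Finset.sum_add_distrib, Pi.add_apply, add_mul]

private theorem bf_tens (p q x y : Arr) :
    bf (tens p q) x y = (∑ i, ∑ j, p i j * x i j) * ∑ k, ∑ l, q k l * y k l := by
  unfold bf tens
  rw [Finset.sum_mul]
  refine Finset.sum_congr rfl fun i _ => ?_
  rw [Finset.sum_mul]
  refine Finset.sum_congr rfl fun j _ => ?_
  rw [Finset.mul_sum]
  refine Finset.sum_congr rfl fun k _ => ?_
  rw [Finset.mul_sum]
  exact Finset.sum_congr rfl fun l _ => by ring

private theorem bf_sum {ι : Type} (s : Finset ι) (F : ι → Ten) (x y : Arr) :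
    bf (∑ a ∈ s, F a) x y = ∑ a ∈ s, bf (F a) x y := by
  classical
  induction s using Finset.induction_on with
  | empty => simp [bf]
  | insert a s ha ih => rw [Finset.sum_insert ha, Finset.sum_insert ha, bf_add, ih]

private theorem add_Om (R : Ten) : R + Om = (R - sq J) + tens J J := by
  funext i j k l
  simp only [Pi.add_apply, Pi.sub_apply, Om, sq, tens]
  ring

private theorem skewOm12 (i j k l : Fin 6) : Om j i k l = - Om i j k l := by
  have h := sk_J i j
  simp only [Om, h]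
  ring

private theorem skewOm34 (i j k l : Fin 6) : Om i j l k = - Om i j k l := by
  have h := sk_J k l
  simp only [Om, h]
  ring

private theorem pairOm (i j k l : Fin 6) : Om k l i j = Om i j k l := by
  simp only [Om, sk_J i l, sk_J j k, sk_J i k, sk_J j l]
  ring

private theorem T3_sum3 (c : Fin 15 → ℝ) (ρ : Fin 15 → Arr) (x y : Arr) :
    T3 x y (∑ a, c a • ρ a) = ∑ a, c a * T3 x y (ρ a) := by
  rw [T3_sum_right]
  exact Finset.sum_congr rfl fun a _ => T3_smul_right _ _ _ _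

private theorem T3_rot (x y z : Arr) : T3 x y z = T3 y z x := by
  rw [T3_comm12, T3_comm23]

theorem main0 {R : Ten} (hR : IsCurvature R)
    (hpos : ∀ β : Arr, Sk β → β ≠ 0 → 0 < bf (R - sq J) β β) : 720 ≤ gb R := by
  -- the positive definite tensor `G = R + Om`
  have hG12 : ∀ i j k l, (R + Om) j i k l = - (R + Om) i j k l := by
    intro i j k l
    simp only [Pi.add_apply, hR.skew12 i j, skewOm12 i j]; ring
  have hG34 : ∀ i j k l, (R + Om) i j l k = - (R + Om) i j k l := by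
    intro i j k l
    simp only [Pi.add_apply, hR.skew34 i j k l, skewOm34 i j k l]; ring
  have hGp : ∀ i j k l, (R + Om) k l i j = (R + Om) i j k l := by
    intro i j k l
    simp only [Pi.add_apply]
    rw [hR.pair i j k l, pairOm i j k l]
  have hJJ : ∀ β : Arr, bf (R + Om) β β =
      bf (R - sq J) β β + (∑ i, ∑ j, J i j * β i j) ^ 2 := by
    intro β
    rw [add_Om, bf_add, bf_tens, pow_two]
  have hGpos : ∀ β : Arr, Sk β → β ≠ 0 → 0 < bf (R + Om) β β := by
    intro β h1 h2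
    rw [hJJ]
    have := hpos β h1 h2
    positivity
  obtain ⟨ρ, hρ, hsum, hli, hspan, hdual⟩ := exists_gram hG12 hG34 hGp hGpos
  -- the trace condition
  have htr : ∀ z, ∑ a, T3 (ρ a) (ρ a) z = 3 * T3 J J z := fun z => trace_cond hR ρ hsum z
  obtain ⟨ω, hω⟩ := hspan J sk_J
  -- the abstract data
  set N : Fin 15 → Fin 15 → Fin 15 → ℝ := fun a b c => T3 (ρ a) (ρ b) (ρ c) / 48 with hN
  have hT : ∀ a b c, T3 (ρ a) (ρ b) (ρ c) = 48 * N a b c := by
    intro a b c; simp only [hN]; ring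
  have h12 : ∀ a b c, N b a c = N a b c := by
    intro a b c; simp only [hN]; rw [T3_comm12]
  have h23 : ∀ a b c, N a c b = N a b c := by
    intro a b c; simp only [hN]; rw [T3_comm23]
  have hJJa : ∀ a, T3 J J (ρ a) = 48 * ∑ b, ∑ c, N a b c * ω b * ω c := by
    intro a
    rw [T3_rot J J (ρ a), T3_rot J (ρ a) J]
    rw [show T3 (ρ a) J J = T3 (ρ a) J (∑ c, ω c • ρ c) by rw [← hω], T3_sum3, Finset.mul_sum]
    rw [show (∑ b, 48 * ∑ c, N a b c * ω b * ω c) = ∑ b, ∑ c, 48 * (N a b c * ω b * ω c) from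
      Finset.sum_congr rfl fun b _ => Finset.mul_sum _ _ _, Finset.sum_comm]
    refine Finset.sum_congr rfl fun c _ => ?_
    rw [T3_comm23, show T3 (ρ a) (ρ c) J = T3 (ρ a) (ρ c) (∑ b, ω b • ρ b) by rw [← hω], T3_sum3,
      Finset.mul_sum]
    refine Finset.sum_congr rfl fun b _ => ?_
    rw [hT, h23]; ring
  have hξ : ∀ a, ∑ b, N a b b = 3 * ∑ b, ∑ c, N a b c * ω b * ω c := by
    intro a
    have h1 := htr (ρ a)
    rw [hJJa] at h1
    have h2 : ∑ b, T3 (ρ b) (ρ b) (ρ a) = 48 * ∑ b, N a b b := by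
      rw [Finset.mul_sum]
      refine Finset.sum_congr rfl fun b _ => ?_
      rw [hT]
      rw [show N b b a = N a b b by rw [h23, h12]]
    rw [h2] at h1
    linarith
  have hν : ∑ a, ∑ b, ∑ c, N a b c * ω a * ω b * ω c = 1 := by
    have h1 : T3 J J J = 48 * ∑ a, ∑ b, ∑ c, N a b c * ω a * ω b * ω c := by
      rw [show T3 J J J = T3 J J (∑ a, ω a • ρ a) by rw [← hω], T3_sum3, Finset.mul_sum]
      refine Finset.sum_congr rfl fun a _ => ?_
      rw [hJJa, ← mul_assoc, mul_comm (ω a) 48, mul_assoc, Finset.mul_sum]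
      congr 1
      refine Finset.sum_congr rfl fun b _ => ?_
      rw [Finset.mul_sum]
      exact Finset.sum_congr rfl fun c _ => by ring
    rw [T3_J3] at h1
    linarith
  have hω1 : ∑ a, ω a ^ 2 ≤ 1 := by
    obtain ⟨β, hβ, hβρ⟩ := hdual ω
    have e1 : bf (R + Om) β β = ∑ a, ω a ^ 2 := by
      rw [hsum, bf_sum]
      refine Finset.sum_congr rfl fun a _ => ?_
      rw [bf_tens, hβρ]; ring
    have e2 : ∑ i, ∑ j, J i j * β i j = ∑ a, ω a ^ 2 := by
      have : ∀ i j, J i j * β i j = ∑ a, ω a * (ρ a i j * β i j) := by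
        intro i j
        rw [show J i j = (∑ a, ω a • ρ a) i j by rw [← hω]]
        simp only [Finset.sum_apply, Pi.smul_apply, smul_eq_mul, Finset.sum_mul]
        exact Finset.sum_congr rfl fun a _ => by ring
      simp only [this]
      rw [show (∑ i, ∑ j, ∑ a, ω a * (ρ a i j * β i j)) =
        ∑ i, ∑ a, ∑ j, ω a * (ρ a i j * β i j) from Finset.sum_congr rfl fun i _ =>
          Finset.sum_comm, Finset.sum_comm]
      refine Finset.sum_congr rfl fun a _ => ?_
      calc ∑ i, ∑ j, ω a * (ρ a i j * β i j) = ω a * ∑ i, ∑ j, ρ a i j * β i j := by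
            simp only [Finset.mul_sum]
        _ = ω a ^ 2 := by rw [hβρ a]; ring
    have e3 : 0 ≤ bf (R - sq J) β β := by
      rcases eq_or_ne β 0 with h | h
      · rw [h]; simp [bf]
      · exact (hpos β hβ h).le
    have e4 := hJJ β
    rw [e1, e2] at e4
    by_contra hc
    push Not at hc
    nlinarith
  -- the index bounds
  have hTN : ∀ (y : Fin 15 → ℝ) (i j : Fin 15),
      T3 (∑ a, y a • ρ a) (ρ i) (ρ j) = 48 * ∑ a, y a * N a i j := by
    intro y i j
    rw [T3_rot, T3_sum3, Finset.mul_sum]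
    refine Finset.sum_congr rfl fun a _ => ?_
    rw [hT, show N i j a = N a i j by rw [h23, h12]]; ring
  have hyyy : ∀ y : Fin 15 → ℝ, T3 (∑ a, y a • ρ a) (∑ a, y a • ρ a) (∑ a, y a • ρ a) =
      48 * ∑ a, ∑ b, ∑ c, N a b c * y a * y b * y c := by
    intro y
    rw [T3_sum3, Finset.mul_sum]
    refine Finset.sum_congr rfl fun a _ => ?_
    rw [T3_comm23, T3_sum3, Finset.mul_sum, Finset.mul_sum]
    refine Finset.sum_congr rfl fun b _ => ?_
    rw [hTN, Finset.mul_sum, Finset.mul_sum, Finset.mul_sum, Finset.mul_sum]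
    refine Finset.sum_congr rfl fun c _ => ?_
    rw [show N c a b = N a b c by rw [h12, h23]]; ring
  have hsk : ∀ y : Fin 15 → ℝ, Sk (∑ a, y a • ρ a) := by
    intro y i j
    simp only [Finset.sum_apply, Pi.smul_apply, smul_eq_mul, ← Finset.sum_neg_distrib]
    exact Finset.sum_congr rfl fun a _ => by rw [hρ a i j]; ring
  have hEpos : ∀ (y : Fin 15 → ℝ) (E : Submodule ℝ (Fin 15 → ℝ)),
      (∀ c ∈ E, c ≠ 0 → 0 < ∑ i, ∑ j, (∑ a, y a * N a i j) * c i * c j) →
      ∀ c ∈ E, c ≠ 0 → 0 < ∑ i, ∑ j, T3 (∑ a, y a • ρ a) (ρ i) (ρ j) * c i * c j := by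
    intro y E hE c hc hc0
    have h1 := hE c hc hc0
    have h2 : ∑ i, ∑ j, T3 (∑ a, y a • ρ a) (ρ i) (ρ j) * c i * c j =
        48 * ∑ i, ∑ j, (∑ a, y a * N a i j) * c i * c j := by
      rw [Finset.mul_sum]
      refine Finset.sum_congr rfl fun i _ => ?_
      rw [Finset.mul_sum]
      refine Finset.sum_congr rfl fun j _ => ?_
      rw [hTN]; ring
    rw [h2]; linarith
  have h8 : ∀ y : Fin 15 → ℝ, ∀ E : Submodule ℝ (Fin 15 → ℝ),
      (∀ c ∈ E, c ≠ 0 → 0 < ∑ i, ∑ j, (∑ a, y a * N a i j) * c i * c j) →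
      Module.finrank ℝ E ≤ 8 := by
    intro y E hE
    obtain ⟨Ψ, hΨ, hs, hn⟩ := index8 (hsk y)
    have := count hρ Ψ hΨ hs hn E (hEpos y E hE)
    omega
  have h7 : ∀ y : Fin 15 → ℝ, 0 < ∑ a, ∑ b, ∑ c, N a b c * y a * y b * y c →
      ∀ E : Submodule ℝ (Fin 15 → ℝ),
      (∀ c ∈ E, c ≠ 0 → 0 < ∑ i, ∑ j, (∑ a, y a * N a i j) * c i * c j) →
      Module.finrank ℝ E ≤ 7 := by
    intro y hy E hE
    obtain ⟨Ψ, hΨ, hs, hn⟩ := index7 (hsk y) (by rw [hyyy]; linarith)
    have := count hρ Ψ hΨ hs hn E (hEpos y E hE)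
    omega
  have hmain := abstract_core N h12 h23 ω hξ hν hω1 h8 h7
  -- back to the integrand
  have hgb : gb R = ∑ a, ∑ b, ∑ c, T3 (ρ a) (ρ b) (ρ c) ^ 2 - 1152 * ∑ a, tJ (ρ a) ^ 2 + 9216 := by
    rw [← gb_shift ρ hρ (fun z _ => htr z), ← hsum]
    congr 1
    simp
  have e1 : ∑ a, ∑ b, ∑ c, T3 (ρ a) (ρ b) (ρ c) ^ 2 = 2304 * ∑ a, ∑ b, ∑ c, N a b c ^ 2 := by
    rw [Finset.mul_sum]
    refine Finset.sum_congr rfl fun a _ => ?_
    rw [Finset.mul_sum]
    refine Finset.sum_congr rfl fun b _ => ?_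
    rw [Finset.mul_sum]
    refine Finset.sum_congr rfl fun c _ => ?_
    rw [hT]; ring
  have e2 : ∑ a, tJ (ρ a) ^ 2 = 9 * ∑ a, (∑ b, ∑ c, N a b c * ω b * ω c) ^ 2 := by
    rw [Finset.mul_sum]
    refine Finset.sum_congr rfl fun a _ => ?_
    have h1 := T3_JJ (hρ a)
    rw [hJJa] at h1
    have h2 : tJ (ρ a) = 3 * ∑ b, ∑ c, N a b c * ω b * ω c := by linarith
    rw [h2]; ring
  rw [hgb, e1, e2]
  linarith

end Pool.HopfAL
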