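import Pool.Agent.Lib.MP_4a593f_gt.AL.Main0
import Pool.Agent.Lib.MP_4a593f_gt.AL.NormForm
import Pool.Agent.Lib.MP_4a593f_gt.AL.Pull

/-!
Reduction of the general case to `w = J`, first with strict positivity and `w` invertible, then
by a limit.

Proof of `strict`.  By `exists_nf`, `pull g w = nf a b c`; `det (nf a b c) = (abc)² ≠ 0` by
`det_pull`; rescale `g` (divide `g 0` by `a`, `g 2` by `b`, `g 4` by `c`) to get `pull g' w = J`,
`det g' ≠ 0`, and `det g'^2 * det w = det J = 1`.  The tensor `act g' R` (`KP/GL.lean`) is a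
curvature tensor with `gb (act g' R) = det g'^2 * gb R`, and
`bf (act g' R - sq J) β β = bf (R - sq w) β' β'` with `β' k l = ∑ i, ∑ j, β i j * g' i k * g' j l`
(skew, nonzero for `β ≠ 0` as `g'` is invertible).  Apply `main0` and divide.

Proof of `perturb`.  Let `w_δ = w + δ J`, `R_δ = R + δ C cI` with a constant `C` such that
`bf (sq w_δ) β β ≤ bf (sq w) β β + δ C' ∑ β²` for `0 < δ ≤ 1` and `bf cI β β = 2 ∑ β²` for skew
`β`.  `det w_δ ≠ 0` for all but finitely many `δ` (up to a sign it is the characteristic polynomial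
of `J * w` at `δ`, as `J * J = -1`).  Both sides are continuous in `δ`; let `δ → 0+`.
-/

namespace Pool.HopfAL

open Finset Equiv Pool.HopfKP

private theorem det_nf (a b c : ℝ) : Matrix.det (Matrix.of (nf a b c)) = (a * b * c) ^ 2 := by
  simp [nf, Matrix.det_succ_row_zero, Fin.sum_univ_succ, Fin.succAbove]
  ring

/-- the transposed change of basis -/
private def cb (g : Fin 6 → Vec) (β : Arr) : Arr := fun k l => ∑ i, ∑ j, β i j * g i k * g j l

private theorem cb_eq (g : Fin 6 → Vec) (β : Arr) :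
    Matrix.of (cb g β) = (Matrix.of g).transpose * Matrix.of β * Matrix.of g := by
  ext k l
  simp only [Matrix.mul_apply, Matrix.transpose_apply, Matrix.of_apply, cb, Finset.sum_mul]
  rw [Finset.sum_comm]
  refine Finset.sum_congr rfl fun i _ => Finset.sum_congr rfl fun j _ => ?_
  ring

private theorem sk_cb (g : Fin 6 → Vec) {β : Arr} (hβ : Sk β) : Sk (cb g β) := by
  intro k l
  unfold cb
  rw [Finset.sum_comm, ← Finset.sum_neg_distrib]
  refine Finset.sum_congr rfl fun i _ => ?_
  rw [← Finset.sum_neg_distrib]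
  refine Finset.sum_congr rfl fun j _ => ?_
  rw [hβ i j]
  ring

private theorem cb_ne {g : Fin 6 → Vec} (hg : Matrix.det (Matrix.of g) ≠ 0) {β : Arr}
    (hβ : β ≠ 0) : cb g β ≠ 0 := by
  intro h
  apply hβ
  have hu : IsUnit (Matrix.of g).det := isUnit_iff_ne_zero.2 hg
  have hut : IsUnit (Matrix.of g).transpose.det := by rwa [Matrix.det_transpose]
  have h1 : (Matrix.of g).transpose * Matrix.of β * Matrix.of g = 0 := by
    rw [← cb_eq, h]
    rfl
  have h2 : Matrix.of β = 0 := by
    have h3 : (Matrix.of g).transpose * Matrix.of β = 0 := by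
      have := congrArg (fun M => M * (Matrix.of g)⁻¹) h1
      simpa [Matrix.mul_assoc, Matrix.mul_nonsing_inv _ hu] using this
    have := congrArg (fun M => ((Matrix.of g).transpose)⁻¹ * M) h3
    simpa [← Matrix.mul_assoc, Matrix.nonsing_inv_mul _ hut] using this
  funext i j
  exact congrFun (congrFun h2 i) j

private abbrev Ix := Fin 6 × Fin 6 × Fin 6 × Fin 6

private theorem sum4 (f : Fin 6 → Fin 6 → Fin 6 → Fin 6 → ℝ) :
    ∑ i, ∑ j, ∑ k, ∑ l, f i j k l = ∑ p : Ix, f p.1 p.2.1 p.2.2.1 p.2.2.2 := by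
  simp only [Fintype.sum_prod_type]

private theorem prod22 (A B : Arr) :
    (∑ i, ∑ j, A i j) * (∑ k, ∑ l, B k l) = ∑ i, ∑ j, ∑ k, ∑ l, A i j * B k l := by
  simp only [← Finset.mul_sum, ← Finset.sum_mul]

private theorem bf_act (g : Fin 6 → Vec) (U : Ten) (x y : Arr) :
    bf (act g U) x y = bf U (cb g x) (cb g y) := by
  unfold bf act ev cb
  rw [sum4, sum4]
  have h1 : ∀ p : Ix, (∑ i, ∑ j, ∑ k, ∑ l, U i j k l * g p.1 i * g p.2.1 j * g p.2.2.1 k *
      g p.2.2.2 l) * x p.1 p.2.1 * y p.2.2.1 p.2.2.2 = ∑ q : Ix, U q.1 q.2.1 q.2.2.1 q.2.2.2 *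
        (x p.1 p.2.1 * g p.1 q.1 * g p.2.1 q.2.1) *
        (y p.2.2.1 p.2.2.2 * g p.2.2.1 q.2.2.1 * g p.2.2.2 q.2.2.2) := by
    intro p
    rw [sum4, Finset.sum_mul, Finset.sum_mul]
    refine Finset.sum_congr rfl fun q _ => ?_
    ring
  rw [Finset.sum_congr rfl fun p _ => h1 p, Finset.sum_comm]
  refine Finset.sum_congr rfl fun q _ => ?_
  rw [mul_assoc, prod22, sum4, Finset.mul_sum]
  refine Finset.sum_congr rfl fun p _ => ?_
  ring

private theorem act_sq (g : Fin 6 → Vec) (w : Arr) : act g (sq w) = sq (pull g w) := by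
  have hp : ∀ (i j k l : Fin 6), (∑ p, ∑ q, ∑ r, ∑ s, (w p r * w q s) * g i p * g j q * g k r *
      g l s) = pull g w i k * pull g w j l := by
    intro i j k l
    unfold pull
    rw [prod22]
    refine Finset.sum_congr rfl fun p _ => ?_
    rw [Finset.sum_comm]
    refine Finset.sum_congr rfl fun r _ => Finset.sum_congr rfl fun q _ =>
      Finset.sum_congr rfl fun s _ => ?_
    ring
  have hq : ∀ (i j k l : Fin 6), (∑ p, ∑ q, ∑ r, ∑ s, (w p s * w q r) * g i p * g j q * g k r *
      g l s) = pull g w i l * pull g w j k := by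
    intro i j k l
    rw [← hp i j l k]
    refine Finset.sum_congr rfl fun p _ => Finset.sum_congr rfl fun q _ => ?_
    rw [Finset.sum_comm]
    refine Finset.sum_congr rfl fun r _ => Finset.sum_congr rfl fun s _ => ?_
    ring
  funext i j k l
  unfold act ev
  rw [show sq (pull g w) i j k l = pull g w i k * pull g w j l - pull g w i l * pull g w j k
    from rfl, ← hp i j k l, ← hq i j k l]
  simp only [← Finset.sum_sub_distrib]
  refine Finset.sum_congr rfl fun p _ => Finset.sum_congr rfl fun q _ =>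
    Finset.sum_congr rfl fun r _ => Finset.sum_congr rfl fun s _ => ?_
  unfold sq
  ring

private theorem act_sub (g : Fin 6 → Vec) (R S : Ten) :
    act g (R - S) = act g R - act g S := by
  funext i j k l
  simp only [act, ev, Pi.sub_apply, ← Finset.sum_sub_distrib]
  refine Finset.sum_congr rfl fun i _ => Finset.sum_congr rfl fun j _ =>
    Finset.sum_congr rfl fun k _ => Finset.sum_congr rfl fun l _ => ?_
  ring

/-- a family carrying `w` to `J` -/
private theorem exists_J {w : Arr} (hw : Sk w) (hdet : Matrix.det (Matrix.of w) ≠ 0) :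
    ∃ g : Fin 6 → Vec, Matrix.det (Matrix.of g) ≠ 0 ∧ pull g w = J := by
  obtain ⟨g, a, b, c, hg, hp⟩ := exists_nf hw
  have h1 := det_pull g w
  rw [hp, det_nf] at h1
  have habc : (a * b * c) ^ 2 ≠ 0 := by
    rw [h1]
    exact mul_ne_zero (pow_ne_zero 2 hg.ne') hdet
  have habc' : a * b * c ≠ 0 := fun h => habc (by rw [h]; norm_num)
  have hc : c ≠ 0 := right_ne_zero_of_mul habc'
  have hab : a * b ≠ 0 := left_ne_zero_of_mul habc'
  have hb : b ≠ 0 := right_ne_zero_of_mul hab
  have ha : a ≠ 0 := left_ne_zero_of_mul hab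
  let s : Fin 6 → ℝ := ![a⁻¹, 1, b⁻¹, 1, c⁻¹, 1]
  have hJ : pull (fun i k => s i * g i k) w = J := by
    funext i j
    have h2 : pull (fun i k => s i * g i k) w i j = s i * s j * pull g w i j := by
      unfold pull
      rw [Finset.mul_sum]
      refine Finset.sum_congr rfl fun k _ => ?_
      rw [Finset.mul_sum]
      refine Finset.sum_congr rfl fun l _ => ?_
      ring
    rw [h2, hp]
    unfold J
    fin_cases i <;> fin_cases j <;> simp [s, nf, ha, hb, hc]
  refine ⟨fun i k => s i * g i k, ?_, hJ⟩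
  have h3 := det_pull (fun i k => s i * g i k) w
  rw [hJ] at h3
  intro h4
  rw [h4] at h3
  have h5 : Matrix.det (Matrix.of J) = 1 := by
    rw [J, det_nf]; norm_num
  rw [h5] at h3
  norm_num at h3

theorem strict {R : Ten} (hR : IsCurvature R) {w : Arr} (hw : Sk w)
    (hdet : Matrix.det (Matrix.of w) ≠ 0)
    (hpos : ∀ β : Arr, Sk β → β ≠ 0 → 0 < bf (R - sq w) β β) :
    720 * Matrix.det (Matrix.of w) ≤ gb R := by
  obtain ⟨g, hg, hJ⟩ := exists_J hw hdet
  have hdJ : Matrix.det (Matrix.of g) ^ 2 * Matrix.det (Matrix.of w) = 1 := by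
    rw [← det_pull, hJ, J, det_nf]
    norm_num
  have hsq : act g R - sq J = act g (R - sq w) := by
    rw [act_sub, act_sq, hJ]
  have h720 : 720 ≤ gb (act g R) := by
    refine main0 (act_curv hR) fun β hβ hβ0 => ?_
    rw [hsq, bf_act]
    exact hpos _ (sk_cb g hβ) (cb_ne hg hβ0)
  rw [gb_act] at h720
  have hg2 : 0 < Matrix.det (Matrix.of g) ^ 2 := by positivity
  have hw0 : 0 < Matrix.det (Matrix.of w) := by
    by_contra hcon
    push Not at hcon
    nlinarith [mul_nonneg hg2.le (sub_nonneg.2 hcon)]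
  calc 720 * Matrix.det (Matrix.of w)
      ≤ (Matrix.det (Matrix.of g) ^ 2 * gb R) * Matrix.det (Matrix.of w) :=
        mul_le_mul_of_nonneg_right h720 hw0.le
    _ = (Matrix.det (Matrix.of g) ^ 2 * Matrix.det (Matrix.of w)) * gb R := by ring
    _ = gb R := by rw [hdJ, one_mul]

end Pool.HopfAL
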