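import Mathlib

/-!
A scalar inequality.

Proof of `scalar0`.  Put `a = 1 - p ≥ r`, `ρ = r / a ∈ [0,1]` (so `a ρ = r` also where `a = 0`),
`y = ∑ r d ≥ 3/4`, `α = ∑ r ρ ≤ ∑ r ≤ 1`, `D = ∑ p d`, `h = 1/2 + ε/4`; `α > 0` (else `r = 0` and
`y = 0`).  Cauchy-Schwarz gives `(∑ r d)² ≤ (∑ a d²) (∑ r)` hence `scalar00`.  Let
`g = d - (y/α) ρ`; then `∑ r g = 0`, `∑ a d² = y²/α + ∑ a g²`, `D = (y/α) β + z` with
`β = ∑ p ρ`, `z = ∑ p g`.  For `k ∈ I` one has `p ≤ 1 - ε`, `a ≥ ε`, so `ε p ≤ (1-ε) a` and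
`ε z² ≤ ε (∑ p) (∑ p g²) ≤ (1-ε)² ∑ a g²`.  Let `V = ∑ a d² - 9/16 ≥ ∑ a g²`.  If `ε = 0` there is
nothing to prove.  Let `ε > 0`.
(A) `(y/α) β ≤ 1/4`.  Then `z ≥ D - 1/4`.  If `D ≤ 1/4`: `(h-D)² ≥ (1/4+ε/4)² ≥ 3ε/16`.
 If `1/4 ≤ D ≤ h`: `(1-ε)² V ≥ ε (D-1/4)²`; so with `s = D - 1/4`, `q = (1+ε)/4 = h - 1/4`,
 `(1-ε)² (3V + (q-s)² - 3ε/16) ≥ 3 ε s² + (1-ε)² ((q-s)² - 3ε/16) ≥ 0`, because the minimum over
 `s` of `3 ε s² + (1-ε)² (q-s)²` is `3 ε (1-ε)² q² / (3 ε + (1-ε)²)` and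
 `16 q² = (1+ε)² ≥ 1 + ε + ε² = 3ε + (1-ε)²`; (`ε = 1` forces `p = 0` on `I`, `D = 0`).
 If `D ≥ h`: `z ≥ q` and `(1-ε)² 3V ≥ 3 ε q² ≥ (1-ε)² 3ε/16`.
(B) `(y/α) β > 1/4`.  Claim `y²/α - 9/16 ≥ ε/16` (which gives `3V ≥ 3ε/16`).  Otherwise
 `9 ≤ 16 y² < (9+ε) α`, so `1 - α < ε/9`.  With `A₁ = 1 - ∑ r`, `K = {ρ > 1/2}`,
 `A₂ = ∑_{∉K} r (1-ρ)`, `A₃ = ∑_K r (1-ρ)`: `A₁ + A₂ + A₃ = 1 - α < ε/9`.
 `∑_{∉K} r ≤ 2 A₂`, `∑_K (a - r) = ∑_K a (1-ρ) ≤ 2 A₃`.  So `∑_K r ≥ 1 - 2ε/9 > 0`, `K ≠ ∅`;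
 `|K| - (1-ε) ≤ ∑_K a ≤ 1 + 2ε/9 < 1 + ε`, so `|K| = 1`, `K = {k₀}`.
 `1 - r k₀ = A₁ + ∑_{∉K} r ≤ 2ε/9`, so `p k₀ ≤ 2ε/9`, `∑_{∉K} r ≤ 2ε/9`, and, since `a ≥ ε`
 gives `ρ ≤ r/ε`, `β ≤ p k₀ + (1/ε) ∑_{∉K} p r ≤ 2ε/9 + (1-ε) 2/9 = 2/9`.  Finally
 `(y/α)² < (9+ε)/(16 α) ≤ (9+ε)²/144`, `y/α ≤ 10/12`, `(y/α) β ≤ (10/12)(2/9) < 1/4`,
 a contradiction.

Proof of `scalar1`.  By homogeneity (divide `μ` by `X = ∑ r μ`) let `X = 1`.  Let `I = {μ > 0}`,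
`d = μ - 1/4`, `n = ∑ p μ` (over all indices), `1 - ε = ∑_I p`.  For `k ∈ I`,
`3 a μ² - (3/2) μ = 3 a d² - (3/16) a - (3/2) p μ`; for `k ∉ I`,
`3 a μ² - (3/2) μ ≥ - (3/2) p μ`.  Hence
`LHS - RHS ≥ 3 ∑_I a d² - (3/16) ∑_I a - (3/2) n + n²`, and `∑_I r d ≥ 1 - 1/4`.
If `n ≤ 0`: `≥ 27/16 - 24/16 > 0`.  If `n > 0`: `∑_I a = |I| - (1-ε) ≤ 6 + ε`,
`n ≤ ∑_I p μ = D + (1-ε)/4`, `n - 3/4 ≤ D - h`, so `(n - 3/4)² ≥ (max (h-D) 0)²` and `scalar0`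
finishes.
-/

namespace Pool.HopfAL

open Finset

theorem scalar00 {ι : Type} (I : Finset ι) (p r d : ι → ℝ)
    (hr : ∀ k ∈ I, 0 ≤ r k) (hpr : ∀ k ∈ I, p k + r k ≤ 1)
    (hR : ∑ k ∈ I, r k ≤ 1) (hd : 3 / 4 ≤ ∑ k ∈ I, r k * d k) :
    9 / 16 ≤ ∑ k ∈ I, (1 - p k) * d k ^ 2 := by
  have h1 : ∑ k ∈ I, r k * d k ^ 2 ≤ ∑ k ∈ I, (1 - p k) * d k ^ 2 :=
    sum_le_sum fun k hk => mul_le_mul_of_nonneg_right (by linarith [hpr k hk]) (sq_nonneg _)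
  set y := ∑ k ∈ I, r k * d k with hy
  have h2 : 0 ≤ ∑ k ∈ I, r k * (d k - y) ^ 2 :=
    sum_nonneg fun k hk => mul_nonneg (hr k hk) (sq_nonneg _)
  have h3 : ∑ k ∈ I, r k * (d k - y) ^ 2 =
      ∑ k ∈ I, r k * d k ^ 2 - 2 * y * y + y ^ 2 * ∑ k ∈ I, r k := by
    have : ∀ k ∈ I, r k * (d k - y) ^ 2 =
        r k * d k ^ 2 - 2 * y * (r k * d k) + y ^ 2 * r k := fun k _ => by ring
    rw [sum_congr rfl this, sum_add_distrib, sum_sub_distrib, ← mul_sum, ← mul_sum, ← hy]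
  have h4 : y ^ 2 * ∑ k ∈ I, r k ≤ y ^ 2 * 1 := mul_le_mul_of_nonneg_left hR (sq_nonneg _)
  nlinarith

/-- The part of the proof in which the main term is large. -/
private theorem caseB {ι : Type} (I : Finset ι) (p r ρ : ι → ℝ) (ε y α : ℝ)
    (hp : ∀ k ∈ I, 0 ≤ p k) (hr : ∀ k ∈ I, 0 ≤ r k) (hpr : ∀ k ∈ I, p k + r k ≤ 1)
    (hρ0 : ∀ k ∈ I, 0 ≤ ρ k) (hρ1 : ∀ k ∈ I, ρ k ≤ 1) (haρ : ∀ k ∈ I, (1 - p k) * ρ k = r k)
    (hε : 0 < ε) (hε1 : ε ≤ 1) (hP : ∑ k ∈ I, p k = 1 - ε) (hR : ∑ k ∈ I, r k ≤ 1)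
    (hα : α = ∑ k ∈ I, r k * ρ k) (hα0 : 0 < α) (hy : 3 / 4 ≤ y)
    (hB : 1 / 4 < y / α * ∑ k ∈ I, p k * ρ k) : ε / 16 ≤ y / α * y - 9 / 16 := by
  classical
  by_contra hcon
  push Not at hcon
  have hpe : ∀ k ∈ I, p k ≤ 1 - ε := fun k hk => hP ▸ single_le_sum hp hk
  have e1 : y / α * y * α = y ^ 2 := by field_simp
  -- bounds for `α`
  have h16 : 16 * y ^ 2 < (9 + ε) * α := by
    have h := mul_lt_mul_of_pos_right hcon hα0
    nlinarith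
  have hα9 : 9 < (9 + ε) * α := by nlinarith
  set A₁ : ℝ := 1 - ∑ k ∈ I, r k with hA₁
  set K := I.filter (fun k => 1 / 2 < ρ k) with hK
  set L := I.filter (fun k => ¬ 1 / 2 < ρ k) with hL
  have hsplit : ∀ f : ι → ℝ, ∑ k ∈ K, f k + ∑ k ∈ L, f k = ∑ k ∈ I, f k := fun f =>
    sum_filter_add_sum_filter_not I _ f
  have hKI : ∀ k ∈ K, k ∈ I := fun k hk => (mem_filter.mp hk).1
  have hLI : ∀ k ∈ L, k ∈ I := fun k hk => (mem_filter.mp hk).1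
  have hKρ : ∀ k ∈ K, 1 / 2 < ρ k := fun k hk => (mem_filter.mp hk).2
  have hLρ : ∀ k ∈ L, ρ k ≤ 1 / 2 := fun k hk => not_lt.mp (mem_filter.mp hk).2
  set A₂ : ℝ := ∑ k ∈ L, r k * (1 - ρ k) with hA₂
  set A₃ : ℝ := ∑ k ∈ K, r k * (1 - ρ k) with hA₃
  have hsum : A₁ + A₂ + A₃ = 1 - α := by
    have h1 : A₃ + A₂ = ∑ k ∈ I, r k * (1 - ρ k) := hsplit _
    have h2 : ∑ k ∈ I, r k * (1 - ρ k) = ∑ k ∈ I, r k - α := by
      rw [hα, ← sum_sub_distrib]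
      exact sum_congr rfl fun k _ => by ring
    rw [hA₁]
    linarith
  have hA₁0 : 0 ≤ A₁ := by rw [hA₁]; linarith
  have hA₂0 : 0 ≤ A₂ := sum_nonneg fun k hk =>
    mul_nonneg (hr k (hLI k hk)) (by linarith [hρ1 k (hLI k hk)])
  have hA₃0 : 0 ≤ A₃ := sum_nonneg fun k hk =>
    mul_nonneg (hr k (hKI k hk)) (by linarith [hρ1 k (hKI k hk)])
  have hα1 : 1 - α < ε / 9 := by nlinarith
  have hLr : ∑ k ∈ L, r k ≤ 2 * A₂ := by
    rw [hA₂, mul_sum]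
    refine sum_le_sum fun k hk => ?_
    have h1 := hr k (hLI k hk)
    have h2 := hLρ k hk
    nlinarith
  have hKa : ∑ k ∈ K, (1 - p k - r k) ≤ 2 * A₃ := by
    rw [hA₃, mul_sum]
    refine sum_le_sum fun k hk => ?_
    have h1 := haρ k (hKI k hk)
    have h2 := (hKρ k hk).le
    have h3 := hρ1 k (hKI k hk)
    have h4 : 0 ≤ 1 - p k := by linarith [hpr k (hKI k hk), hr k (hKI k hk)]
    have h5 : 1 - p k - r k = (1 - p k) * (1 - ρ k) := by rw [← h1]; ring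
    have h6 : 2 * (r k * (1 - ρ k)) = (1 - p k) * (1 - ρ k) * (2 * ρ k) := by rw [← h1]; ring
    rw [h5, h6]
    have h7 : 0 ≤ (1 - p k) * (1 - ρ k) := mul_nonneg h4 (by linarith)
    nlinarith
  have hrs := hsplit r
  have hKr : 1 - 2 * ε / 9 ≤ ∑ k ∈ K, r k := by linarith
  have hKr1 : ∑ k ∈ K, r k ≤ 1 := by
    have : 0 ≤ ∑ k ∈ L, r k := sum_nonneg fun k hk => hr k (hLI k hk)
    linarith
  have hKne : K.Nonempty := by
    rw [nonempty_iff_ne_empty]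
    intro h
    rw [h, sum_empty] at hKr
    linarith
  have hKp : ∑ k ∈ K, p k ≤ 1 - ε := by
    have h1 := hsplit p
    have h2 : 0 ≤ ∑ k ∈ L, p k := sum_nonneg fun k hk => hp k (hLI k hk)
    linarith
  have hcard : (K.card : ℝ) < 2 := by
    have h1 : ∑ k ∈ K, (1 - p k - r k) = K.card - ∑ k ∈ K, p k - ∑ k ∈ K, r k := by
      rw [sum_sub_distrib, sum_sub_distrib]
      simp
    linarith
  have hcard1 : K.card = 1 := by
    have h1 : K.card < 2 := by exact_mod_cast hcard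
    have h2 : 0 < K.card := hKne.card_pos
    omega
  obtain ⟨k₀, hk₀⟩ := card_eq_one.mp hcard1
  have hk₀K : k₀ ∈ K := by rw [hk₀]; exact mem_singleton_self _
  have hk₀I := hKI k₀ hk₀K
  rw [hk₀, sum_singleton] at hKr
  have hpk₀ : p k₀ ≤ 2 * ε / 9 := by linarith [hpr k₀ hk₀I]
  have hLr2 : ∑ k ∈ L, r k ≤ 2 * ε / 9 := by linarith
  have hβ : ∑ k ∈ I, p k * ρ k ≤ 2 / 9 := by
    rw [← hsplit (fun k => p k * ρ k), hk₀, sum_singleton]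
    have h1 : p k₀ * ρ k₀ ≤ 2 * ε / 9 := by
      have := mul_le_mul_of_nonneg_left (hρ1 k₀ hk₀I) (hp k₀ hk₀I)
      linarith
    have h2 : ∑ k ∈ L, p k * ρ k ≤ ∑ k ∈ L, (1 - ε) / ε * r k := by
      refine sum_le_sum fun k hk => ?_
      have hkI := hLI k hk
      have h3 : ε * ρ k ≤ r k := by
        rw [← haρ k hkI]
        exact mul_le_mul_of_nonneg_right (by linarith [hpe k hkI]) (hρ0 k hkI)
      have h4 : p k * ρ k ≤ (1 - ε) * ρ k := mul_le_mul_of_nonneg_right (hpe k hkI) (hρ0 k hkI)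
      have h5 : (1 - ε) * ρ k = (1 - ε) / ε * (ε * ρ k) := by field_simp
      rw [h5] at h4
      exact h4.trans (mul_le_mul_of_nonneg_left h3 (div_nonneg (by linarith) hε.le))
    rw [← mul_sum] at h2
    have h3 : (1 - ε) / ε * ∑ k ∈ L, r k ≤ (1 - ε) / ε * (2 * ε / 9) :=
      mul_le_mul_of_nonneg_left hLr2 (div_nonneg (by linarith) hε.le)
    have h4 : (1 - ε) / ε * (2 * ε / 9) = (1 - ε) * 2 / 9 := by field_simp
    linarith
  -- `y / α ≤ 10 / 12`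
  have hya : y / α ≤ 10 / 12 := by
    have h0 : 0 ≤ y / α := div_nonneg (by linarith) hα0.le
    have h1 : (y / α) ^ 2 * (16 * α) = 16 * y * (y / α) := by field_simp
    have h2 : 16 * y * (y / α) < 9 + ε := by
      have : y / α * y < (9 + ε) / 16 := by linarith
      nlinarith
    by_contra h3
    push Not at h3
    have h4 : (10 / 12 : ℝ) ^ 2 < (y / α) ^ 2 := by gcongr
    have h5 : (10 / 12 : ℝ) ^ 2 * (16 * α) < 9 + ε := by
      have := mul_lt_mul_of_pos_right h4 (show 0 < 16 * α by linarith)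
      linarith
    nlinarith
  have hβ0 : 0 ≤ ∑ k ∈ I, p k * ρ k := sum_nonneg fun k hk => mul_nonneg (hp k hk) (hρ0 k hk)
  have hfin : y / α * ∑ k ∈ I, p k * ρ k ≤ 10 / 12 * (2 / 9) :=
    mul_le_mul hya hβ hβ0 (by norm_num)
  linarith

theorem scalar0 {ι : Type} (I : Finset ι) (p r d : ι → ℝ) (ε : ℝ)
    (hp : ∀ k ∈ I, 0 ≤ p k) (hr : ∀ k ∈ I, 0 ≤ r k) (hpr : ∀ k ∈ I, p k + r k ≤ 1)
    (hε : 0 ≤ ε) (hP : ∑ k ∈ I, p k = 1 - ε) (hR : ∑ k ∈ I, r k ≤ 1)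
    (hd : 3 / 4 ≤ ∑ k ∈ I, r k * d k) :
    3 / 16 * ε ≤ 3 * (∑ k ∈ I, (1 - p k) * d k ^ 2 - 9 / 16) +
      (max (1 / 2 + ε / 4 - ∑ k ∈ I, p k * d k) 0) ^ 2 := by
  rcases hε.eq_or_lt with h0 | hε0
  · have h1 := scalar00 I p r d hr hpr hR hd
    have h2 : 0 ≤ (max (1 / 2 + ε / 4 - ∑ k ∈ I, p k * d k) 0) ^ 2 := sq_nonneg _
    rw [← h0]
    rw [← h0] at h2
    linarith
  have hε1 : ε ≤ 1 := by
    have : 0 ≤ ∑ k ∈ I, p k := sum_nonneg hp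
    linarith
  have hpe : ∀ k ∈ I, p k ≤ 1 - ε := fun k hk => hP ▸ single_le_sum hp hk
  obtain ⟨ρ, hρ⟩ : ∃ ρ : ι → ℝ, ∀ k, ρ k = r k / (1 - p k) := ⟨fun k => r k / (1 - p k), fun _ => rfl⟩
  have hρ0 : ∀ k ∈ I, 0 ≤ ρ k := fun k hk => by
    rw [hρ k]
    exact div_nonneg (hr k hk) (by linarith [hpr k hk, hr k hk])
  have hapos : ∀ k ∈ I, 0 < 1 - p k := fun k hk => by linarith [hpe k hk]
  have hρ1 : ∀ k ∈ I, ρ k ≤ 1 := fun k hk => by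
    rw [hρ k, div_le_one (hapos k hk)]
    linarith [hpr k hk]
  have haρ : ∀ k ∈ I, (1 - p k) * ρ k = r k := fun k hk => by
    rw [hρ k]
    have := (hapos k hk).ne'
    field_simp
  set y := ∑ k ∈ I, r k * d k with hy
  obtain ⟨α, hα⟩ : ∃ α, α = ∑ k ∈ I, r k * ρ k := ⟨_, rfl⟩
  have hα0 : 0 < α := by
    by_contra hcon
    have h1 : ∀ k ∈ I, 0 ≤ r k * ρ k := fun k hk => mul_nonneg (hr k hk) (hρ0 k hk)
    have h2 : ∑ k ∈ I, r k * ρ k = 0 := le_antisymm (by rw [← hα]; linarith) (sum_nonneg h1)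
    rw [sum_eq_zero_iff_of_nonneg h1] at h2
    have h3 : y = 0 := by
      rw [hy]
      refine sum_eq_zero fun k hk => ?_
      have h4 : r k = 0 := by
        rcases mul_eq_zero.mp (h2 k hk) with h | h
        · exact h
        · rw [← haρ k hk, h, mul_zero]
      rw [h4, zero_mul]
    linarith
  have hα1 : α ≤ 1 := by
    rw [hα]
    refine (sum_le_sum fun k hk => ?_).trans hR
    have := mul_le_mul_of_nonneg_left (hρ1 k hk) (hr k hk)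
    linarith
  set t := y / α with ht
  have htα : t * α = y := by rw [ht]; field_simp
  have ht0 : 0 < t := div_pos (by linarith) hα0
  obtain ⟨g, hg⟩ : ∃ g : ι → ℝ, ∀ k, g k = d k - t * ρ k := ⟨fun k => d k - t * ρ k, fun _ => rfl⟩
  have hrg : ∑ k ∈ I, r k * g k = 0 := by
    have : ∀ k ∈ I, r k * g k = r k * d k - t * (r k * ρ k) := fun k _ => by rw [hg k]; ring
    rw [sum_congr rfl this, sum_sub_distrib, ← mul_sum, ← hα, ← hy, htα, sub_self]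
  set W := ∑ k ∈ I, (1 - p k) * g k ^ 2 with hW
  have hW0 : 0 ≤ W := sum_nonneg fun k hk => mul_nonneg (hapos k hk).le (sq_nonneg _)
  have hS2 : ∑ k ∈ I, (1 - p k) * d k ^ 2 = W + t * y := by
    have : ∀ k ∈ I, (1 - p k) * d k ^ 2 =
        (1 - p k) * g k ^ 2 + 2 * t * (r k * g k) + t ^ 2 * (r k * ρ k) := fun k hk => by
      have h1 := haρ k hk
      rw [← h1, hg k]
      ring
    rw [sum_congr rfl this, sum_add_distrib, sum_add_distrib, ← mul_sum, ← mul_sum, hrg, ← hα,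
      ← htα]
    ring
  set D := ∑ k ∈ I, p k * d k with hD
  set z := ∑ k ∈ I, p k * g k with hz
  have hS3 : D = t * (∑ k ∈ I, p k * ρ k) + z := by
    have : ∀ k ∈ I, p k * d k = t * (p k * ρ k) + p k * g k := fun k _ => by rw [hg k]; ring
    rw [hD, sum_congr rfl this, sum_add_distrib, ← mul_sum]
  have hCS : ε * z ^ 2 ≤ (1 - ε) ^ 2 * W := by
    have h1 : z ^ 2 ≤ (∑ k ∈ I, p k) * ∑ k ∈ I, p k * g k ^ 2 := by
      refine sum_sq_le_sum_mul_sum_of_sq_le_mul I hp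
        (fun k hk => mul_nonneg (hp k hk) (sq_nonneg _)) fun k _ => le_of_eq ?_
      ring
    rw [hP] at h1
    have h2 : ε * ∑ k ∈ I, p k * g k ^ 2 ≤ (1 - ε) * W := by
      rw [hW, mul_sum, mul_sum]
      refine sum_le_sum fun k hk => ?_
      have h3 : ε * p k ≤ (1 - ε) * (1 - p k) := by nlinarith [hpe k hk]
      have h4 := mul_le_mul_of_nonneg_right h3 (sq_nonneg (g k))
      linarith
    have h5 : ε * z ^ 2 ≤ ε * ((1 - ε) * ∑ k ∈ I, p k * g k ^ 2) :=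
      mul_le_mul_of_nonneg_left h1 hε
    have h6 : (1 - ε) * (ε * ∑ k ∈ I, p k * g k ^ 2) ≤ (1 - ε) * ((1 - ε) * W) :=
      mul_le_mul_of_nonneg_left h2 (by linarith)
    nlinarith
  have hty : 9 / 16 ≤ t * y := by
    have h1 : y * 1 ≤ t := by
      rw [ht, mul_one, le_div_iff₀ hα0]
      have := mul_le_mul_of_nonneg_left hα1 (show 0 ≤ y by linarith)
      linarith
    nlinarith
  rw [hS2]
  by_cases hA : t * (∑ k ∈ I, p k * ρ k) ≤ 1 / 4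
  · have hz1 : D - 1 / 4 ≤ z := by linarith
    have hmax0 : 0 ≤ max (1 / 2 + ε / 4 - D) 0 := le_max_right _ _
    have hmaxl : 1 / 2 + ε / 4 - D ≤ max (1 / 2 + ε / 4 - D) 0 := le_max_left _ _
    by_cases hD1 : D ≤ 1 / 4
    · have h1 : (1 / 4 + ε / 4) ^ 2 ≤ (max (1 / 2 + ε / 4 - D) 0) ^ 2 := by
        have : 1 / 4 + ε / 4 ≤ max (1 / 2 + ε / 4 - D) 0 := by linarith
        gcongr
      nlinarith [sq_nonneg (1 - ε)]
    push Not at hD1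
    have hz2 : ε * (D - 1 / 4) ^ 2 ≤ (1 - ε) ^ 2 * W := by
      have h1 : (D - 1 / 4) ^ 2 ≤ z ^ 2 := by
        have : 0 ≤ D - 1 / 4 := by linarith
        gcongr
      have h2 := mul_le_mul_of_nonneg_left h1 hε
      linarith
    by_cases hD2 : D ≤ 1 / 2 + ε / 4
    · have hm : max (1 / 2 + ε / 4 - D) 0 = 1 / 2 + ε / 4 - D := max_eq_left (by linarith)
      rw [hm]
      rcases hε1.eq_or_lt with h1 | h1
      · rw [h1] at hz2 ⊢
        have h2 : (D - 1 / 4) ^ 2 ≤ 0 := by linarith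
        have h3 : D - 1 / 4 = 0 := by
          have := le_antisymm h2 (sq_nonneg _)
          exact pow_eq_zero_iff (two_ne_zero) |>.mp this
        have h4 : D = 1 / 4 := by linarith
        rw [h4]
        nlinarith
      · set s := D - 1 / 4 with hs
        set q := (1 + ε) / 4 with hq
        have hqs : 1 / 2 + ε / 4 - D = q - s := by rw [hq, hs]; ring
        rw [hqs]
        set c := (1 - ε) ^ 2 with hc
        have hc0 : 0 < c := by rw [hc]; exact pow_pos (by linarith) 2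
        have h2 : 3 * ε + c ≤ 16 * q ^ 2 := by rw [hc, hq]; nlinarith
        have h3 : 3 * ε * c * q ^ 2 ≤ (3 * ε + c) * (3 * ε * s ^ 2 + c * (q - s) ^ 2) := by
          nlinarith [sq_nonneg (3 * ε * s - c * (q - s))]
        have h4 : 3 * ε * c / 16 ≤ 3 * ε * s ^ 2 + c * (q - s) ^ 2 := by
          have h5 : 0 < 3 * ε + c := by positivity
          have h6 : 3 * ε * c * ((3 * ε + c) / 16) ≤ 3 * ε * c * q ^ 2 :=
            mul_le_mul_of_nonneg_left (by linarith) (by positivity)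
          have h7 : (3 * ε + c) * (3 * ε * c / 16) ≤
              (3 * ε + c) * (3 * ε * s ^ 2 + c * (q - s) ^ 2) := by linarith
          exact le_of_mul_le_mul_left h7 h5
        have h8 : c * (3 / 16 * ε) ≤ c * (3 * (W + t * y - 9 / 16) + (q - s) ^ 2) := by
          have h9 : 0 ≤ c * (t * y - 9 / 16) := mul_nonneg hc0.le (by linarith)
          nlinarith
        exact le_of_mul_le_mul_left h8 hc0
    · push Not at hD2
      rcases hε1.eq_or_lt with h1 | h1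
      · rw [h1] at hz2 hD2
        nlinarith
      · have hc0 : 0 < (1 - ε) ^ 2 := pow_pos (by linarith) 2
        have h2 : (1 + ε) / 4 ≤ D - 1 / 4 := by linarith
        have h3 : ε / 16 ≤ (1 - ε) ^ 2 * W := by
          have h4 : (1 / 4 : ℝ) ^ 2 ≤ (D - 1 / 4) ^ 2 := by
            have : (1 / 4 : ℝ) ≤ D - 1 / 4 := by linarith
            gcongr
          nlinarith
        have h5 : (1 - ε) ^ 2 * W ≤ 1 * W :=
          mul_le_mul_of_nonneg_right (by nlinarith) hW0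
        have h6 : 0 ≤ (max (1 / 2 + ε / 4 - D) 0) ^ 2 := sq_nonneg _
        nlinarith
  · push Not at hA
    have h1 := caseB I p r ρ ε y α hp hr hpr hρ0 hρ1 haρ hε0 hε1 hP hR hα hα0 hd hA
    have h2 : 0 ≤ (max (1 / 2 + ε / 4 - D) 0) ^ 2 := sq_nonneg _
    rw [← ht] at h1
    nlinarith

end Pool.HopfAL
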