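import Pool.Agent.Lib.MP_4a593f_gt.AL.EvalC

/-!
`Om` as a sum of products of elementary 2-forms, and the mixed terms with `Om`.

Here `b A = T3 x y (el A)` is evaluated by `T3_eval`.  For `tens_Om`: expand `gb3` with `Om_eq`,
`gb3_add_*`, `gb3_smul_*`, `gb3_tens`.  The identity `key` is a polynomial identity in the 15 + 15
entries of `x` and `y` above the diagonal; it was checked numerically.
-/

namespace Pool.HopfAL

open Finset Equiv Pool.HopfKP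

/-- symmetrised product -/
def sp (x y : Arr) : Ten := tens x y + tens y x

/-- integer version of `J` -/
private def Jz (i j : Fin 6) : ℤ :=
  if i = 0 ∧ j = 1 ∨ i = 2 ∧ j = 3 ∨ i = 4 ∧ j = 5 then 1
  else if i = 1 ∧ j = 0 ∨ i = 3 ∧ j = 2 ∨ i = 5 ∧ j = 4 then -1 else 0

/-- integer version of `el` -/
private def ez (k l i j : Fin 6) : ℤ :=
  (if i = k then 1 else 0) * (if j = l then 1 else 0) -
    (if i = l then 1 else 0) * (if j = k then 1 else 0)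

private theorem J_cast (i j : Fin 6) : J i j = (Jz i j : ℝ) := by
  fin_cases i <;> fin_cases j <;> simp [J, nf, Jz]

private theorem el_cast (k l i j : Fin 6) : el k l i j = (ez k l i j : ℝ) := by
  simp [el, ez]

private def spz (a b c d i j k l : Fin 6) : ℤ := ez a b i j * ez c d k l + ez c d i j * ez a b k l

private theorem sp_cast (a b c d i j k l : Fin 6) :
    sp (el a b) (el c d) i j k l = (spz a b c d i j k l : ℝ) := by
  simp only [sp, tens, Pi.add_apply, el_cast, spz]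
  push_cast
  ring

private theorem Om_z : ∀ i j k l : Fin 6,
    Jz i j * Jz k l - Jz i k * Jz j l + Jz i l * Jz j k =
      spz 0 1 2 3 i j k l - spz 0 2 1 3 i j k l + spz 0 3 1 2 i j k l
      + spz 0 1 4 5 i j k l - spz 0 4 1 5 i j k l + spz 0 5 1 4 i j k l
      + spz 2 3 4 5 i j k l - spz 2 4 3 5 i j k l + spz 2 5 3 4 i j k l := by
  decide +kernel

theorem Om_eq : Om = sp (el 0 1) (el 2 3) - sp (el 0 2) (el 1 3) + sp (el 0 3) (el 1 2)
    + sp (el 0 1) (el 4 5) - sp (el 0 4) (el 1 5) + sp (el 0 5) (el 1 4)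
    + sp (el 2 3) (el 4 5) - sp (el 2 4) (el 3 5) + sp (el 2 5) (el 3 4) := by
  funext i j k l
  simp only [Pi.add_apply, Pi.sub_apply, sp_cast, Om, J_cast]
  exact_mod_cast Om_z i j k l

/-- the quadratic form `Om` in terms of the 15 numbers `b i j`, polarised -/
def Qp (b c : Arr) : ℝ :=
  b 0 1 * c 2 3 + b 2 3 * c 0 1 - b 0 2 * c 1 3 - b 1 3 * c 0 2 + b 0 3 * c 1 2 + b 1 2 * c 0 3
  + b 0 1 * c 4 5 + b 4 5 * c 0 1 - b 0 4 * c 1 5 - b 1 5 * c 0 4 + b 0 5 * c 1 4 + b 1 4 * c 0 5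
  + b 2 3 * c 4 5 + b 4 5 * c 2 3 - b 2 4 * c 3 5 - b 3 5 * c 2 4 + b 2 5 * c 3 4 + b 3 4 * c 2 5

/-- the dual bivector of `x ∧ y` -/
def dl (x y : Arr) : Arr := fun i j => T3 x y (el i j)

private theorem gb3_sub_right (R S U U' : Ten) : gb3 R S (U - U') = gb3 R S U - gb3 R S U' := by
  have : U - U' = U + (-1 : ℝ) • U' := by
    rw [neg_one_smul, sub_eq_add_neg]
  rw [this, gb3_add_right, gb3_smul_right]
  ring

private theorem gb3_tens_sp (x x' y y' u v : Arr) :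
    gb3 (tens x x') (tens y y') (sp u v) = T3 x y u * T3 x' y' v + T3 x y v * T3 x' y' u := by
  rw [sp, gb3_add_right, gb3_tens, gb3_tens]

theorem gb3_tens_Om (x x' y y' : Arr) :
    gb3 (tens x x') (tens y y') Om = Qp (dl x y) (dl x' y') := by
  rw [Om_eq]
  simp only [gb3_add_right, gb3_sub_right, gb3_tens_sp, Qp, dl]
  ring

private theorem dl_vals {x y : Arr} (hx : Sk x) (hy : Sk y) :
    dl x y 0 1 = 8 * pf4 x y 2 3 4 5 ∧ dl x y 0 2 = -(8 * pf4 x y 1 3 4 5) ∧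
    dl x y 0 3 = 8 * pf4 x y 1 2 4 5 ∧ dl x y 0 4 = -(8 * pf4 x y 1 2 3 5) ∧
    dl x y 0 5 = 8 * pf4 x y 1 2 3 4 ∧ dl x y 1 2 = 8 * pf4 x y 0 3 4 5 ∧
    dl x y 1 3 = -(8 * pf4 x y 0 2 4 5) ∧ dl x y 1 4 = 8 * pf4 x y 0 2 3 5 ∧
    dl x y 1 5 = -(8 * pf4 x y 0 2 3 4) ∧ dl x y 2 3 = 8 * pf4 x y 0 1 4 5 ∧
    dl x y 2 4 = -(8 * pf4 x y 0 1 3 5) ∧ dl x y 2 5 = 8 * pf4 x y 0 1 3 4 ∧
    dl x y 3 4 = 8 * pf4 x y 0 1 2 5 ∧ dl x y 3 5 = -(8 * pf4 x y 0 1 2 4) ∧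
    dl x y 4 5 = 8 * pf4 x y 0 1 2 3 := by
  refine ⟨?_, ?_, ?_, ?_, ?_, ?_, ?_, ?_, ?_, ?_, ?_, ?_, ?_, ?_, ?_⟩ <;>
  · simp only [dl]
    rw [T3_eval hx hy (sk_el _ _)]
    simp [el]

theorem key {x y : Arr} (hx : Sk x) (hy : Sk y) :
    4 * Qp (dl x y) (dl x y) + 2 * Qp (dl x x) (dl y y) =
      32 * (T3 x y y * tJ x + T3 x x y * tJ y) := by
  obtain ⟨a1, a2, a3, a4, a5, a6, a7, a8, a9, a10, a11, a12, a13, a14, a15⟩ := dl_vals hx hy
  obtain ⟨b1, b2, b3, b4, b5, b6, b7, b8, b9, b10, b11, b12, b13, b14, b15⟩ := dl_vals hx hx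
  obtain ⟨c1, c2, c3, c4, c5, c6, c7, c8, c9, c10, c11, c12, c13, c14, c15⟩ := dl_vals hy hy
  simp only [Qp, a1, a2, a3, a4, a5, a6, a7, a8, a9, a10, a11, a12, a13, a14, a15,
    b1, b2, b3, b4, b5, b6, b7, b8, b9, b10, b11, b12, b13, b14, b15,
    c1, c2, c3, c4, c5, c6, c7, c8, c9, c10, c11, c12, c13, c14, c15, T3_eval hx hy hy,
    T3_eval hx hx hy, tJ, pf4]
  ring

end Pool.HopfAL
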