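import Mathlib

/-!
Diagonalisation of a symmetric real matrix in elementary form (spectral theorem,
`Matrix.IsHermitian.spectral_theorem`, `Matrix.IsHermitian.eigenvectorBasis`).
-/

namespace Pool.HopfAL

open Finset

theorem exists_spec {ι : Type} [Fintype ι] [DecidableEq ι] (M : ι → ι → ℝ)
    (hM : ∀ i j, M j i = M i j) : ∃ (μ : ι → ℝ) (q : ι → ι → ℝ),
    (∀ k l, ∑ i, q k i * q l i = if k = l then 1 else 0) ∧
    (∀ i j, ∑ k, q k i * q k j = if i = j then 1 else 0) ∧
    ∀ i j, M i j = ∑ k, μ k * q k i * q k j := by
  have hH : (Matrix.of M).IsHermitian := by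
    ext i j
    simp only [Matrix.conjTranspose_apply, Matrix.of_apply, star_trivial]
    exact hM i j
  set U : Matrix ι ι ℝ := (hH.eigenvectorUnitary : Matrix ι ι ℝ) with hU
  have hmem : U ∈ Matrix.unitaryGroup ι ℝ := hH.eigenvectorUnitary.2
  have h1 : U * star U = 1 := Matrix.mem_unitaryGroup_iff.1 hmem
  have h2 : star U * U = 1 := Matrix.mem_unitaryGroup_iff'.1 hmem
  refine ⟨hH.eigenvalues, fun k i => U i k, ?_, ?_, ?_⟩
  · intro k l
    have := congrFun (congrFun h2 k) l
    rw [Matrix.mul_apply, Matrix.one_apply] at this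
    simpa [Matrix.star_apply] using this
  · intro i j
    have := congrFun (congrFun h1 i) j
    rw [Matrix.mul_apply, Matrix.one_apply] at this
    simpa [Matrix.star_apply] using this
  · intro i j
    have h3 := hH.spectral_theorem
    rw [Unitary.conjStarAlgAut_apply] at h3
    have := congrFun (congrFun h3 i) j
    rw [Matrix.mul_apply] at this
    simp only [Matrix.mul_diagonal, Matrix.of_apply, Matrix.star_apply, star_trivial,
      Function.comp_apply] at this
    rw [this]
    apply Finset.sum_congr rfl
    intro k _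
    simp only [← hU, RCLike.ofReal_real_eq_id, id]
    ring

end Pool.HopfAL
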